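import Pool.Agent.H132.ST.Fin

/-!
# Stretched polygons: the main theorem
-/

set_option autoImplicit false

namespace KN.ST

open KN KN.KQ Finset Filter Topology
open scoped Classical ENNReal

noncomputable section

theorem kap_small (k : ℕ) : kap (2 * k + 1) ^ k ≤ 2 := by
  have hM : (0 : ℝ) < ((2 * k + 1 : ℕ) : ℝ) := by exact_mod_cast Nat.succ_pos _
  have e1 : kap (2 * k + 1) = ENNReal.ofReal (((2 * k + 1 + 1 : ℕ) : ℝ) / ((2 * k + 1 : ℕ) : ℝ)) := by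
    unfold kap
    rw [ENNReal.ofReal_div_of_pos hM, ENNReal.ofReal_natCast, ENNReal.ofReal_natCast]
  rw [e1, ← ENNReal.ofReal_pow (by positivity)]
  have h2 : (2 : ℝ≥0∞) = ENNReal.ofReal 2 := by simp
  rw [h2]
  refine ENNReal.ofReal_le_ofReal ?_
  set x : ℝ := ((2 * k + 1 : ℕ) : ℝ) with hx
  have hx1 : ((2 * k + 1 + 1 : ℕ) : ℝ) = x + 1 := by rw [hx]; push_cast; ring
  have hx2 : x = 2 * k + 1 := by rw [hx]; push_cast; ring
  rw [hx1]
  have hb := one_add_mul_le_pow (a := -(1 / (x + 1))) (by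
    have : 1 / (x + 1) ≤ 1 := by
      rw [div_le_one (by linarith)]
      linarith
    linarith) k
  have e2 : 1 + -(1 / (x + 1)) = x / (x + 1) := by
    field_simp
    ring
  rw [e2] at hb
  have h3 : (1 : ℝ) / 2 ≤ 1 + k * -(1 / (x + 1)) := by
    have : (k : ℝ) * (1 / (x + 1)) ≤ 1 / 2 := by
      rw [mul_one_div, div_le_div_iff₀ (by linarith) (by norm_num)]
      rw [hx2]
      linarith
    linarith
  have h4 : (1 : ℝ) / 2 ≤ (x / (x + 1)) ^ k := h3.trans hb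
  have h5 : ((x + 1) / x) ^ k * (x / (x + 1)) ^ k = 1 := by
    rw [← mul_pow]
    have : (x + 1) / x * (x / (x + 1)) = 1 := by
      have : x + 1 ≠ 0 := by linarith
      field_simp
    rw [this, one_pow]
  have h6 : 0 < ((x + 1) / x) ^ k := by positivity
  nlinarith

/-- the values of the force -/
theorem adm_exists : ∃ y₀ : ℝ, 0 < y₀ ∧ ∀ y : ℝ, y₀ ≤ y → ∃ (M K : ℕ) (t : ℝ≥0∞),
    Adm M K t ∧ t ^ 6 = ENNReal.ofReal y := by
  obtain ⟨K, hK⟩ : ∃ K : ℕ, K = 576 := ⟨_, rfl⟩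
  obtain ⟨M, hM⟩ : ∃ M : ℕ, M = 2 * (2 * K + 1) + 1 := ⟨_, rfl⟩
  have hκ := kap_small (2 * K + 1)
  rw [← hM] at hκ
  refine ⟨((12 : ℝ) ^ (2 * M + 3)) ^ 6, by positivity, fun y hy => ?_⟩
  have h12 : (0 : ℝ) < (12 : ℝ) ^ (2 * M + 3) := by positivity
  have hy0 : 0 < y := lt_of_lt_of_le (by positivity) hy
  have hs : ((12 : ℝ) ^ (2 * M + 3)) ≤ y ^ ((1 : ℝ) / 6) := by
    have h1 := Real.rpow_le_rpow (by positivity) hy (show (0 : ℝ) ≤ 1 / 6 by norm_num)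
    refine le_trans (le_of_eq ?_) h1
    rw [← Real.rpow_natCast (((12 : ℝ) ^ (2 * M + 3))) 6, ← Real.rpow_mul h12.le]
    norm_num
  refine ⟨M, K, ENNReal.ofReal (y ^ ((1 : ℝ) / 6)), ⟨by omega, ?_, ENNReal.ofReal_ne_top,
    by omega, hκ⟩, ?_⟩
  · have h1 := ENNReal.ofReal_le_ofReal hs
    rw [ENNReal.ofReal_pow (by norm_num)] at h1
    refine le_trans (le_of_eq ?_) h1
    norm_num
  · rw [← ENNReal.ofReal_pow (by positivity), ← Real.rpow_natCast, ← Real.rpow_mul hy0.le]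
    norm_num

theorem main : ∃ y₀ : ℝ, 0 < y₀ ∧ ∀ y : ℝ, y₀ ≤ y → ∃ μ : ℝ, 0 < μ ∧
    (∀ᶠ j : ℕ in atTop, 0 < Sr y sq (2 * j)) ∧
    Tendsto (fun j : ℕ => Sr y sq (2 * j) ^ ((1 : ℝ) / (2 * j))) atTop (𝓝 μ) ∧
    ∀ (k : List V) (N : ℕ), MaxN k N →
      Tendsto (fun j : ℕ => Sr y k (2 * j) ^ ((1 : ℝ) / (2 * j))) atTop (𝓝 μ) ∧
      ∃ C : ℝ, 0 < C ∧ ∀ᶠ j : ℕ in atTop,
        (2 * j : ℝ) ^ N * Sr y sq (2 * j) ≤ C * Sr y k (2 * j) ∧
        Sr y k (2 * j) ≤ C * ((2 * j : ℝ) ^ N * Sr y sq (2 * j)) := by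
  obtain ⟨y₀, hy₀, hadm⟩ := adm_exists
  refine ⟨y₀, hy₀, fun y hy => ?_⟩
  obtain ⟨M, K, t, h, ht⟩ := hadm y hy
  have hy0 : 0 < y := hy₀.trans_le hy
  obtain ⟨μ, hμ, hpos, hlim⟩ := h.growth
  have hfin : ∀ n, Zc t PY n ≠ ⊤ := fun n => Zc_ne_top h.one h.htt _ n
  obtain ⟨C, n₀, hC⟩ := h.unknot
  have hZ : ∀ n, Zc t PY n = ENNReal.ofReal (Zc t PY n).toReal := fun n =>
    (ENNReal.ofReal_toReal (hfin n)).symm
  have hev : ∀ n₀ : ℕ, ∀ᶠ j : ℕ in atTop, n₀ ≤ 2 * j := by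
    intro n₀
    filter_upwards [eventually_ge_atTop n₀] with j hj
    omega
  -- the unknot
  have hU : ∀ᶠ j : ℕ in atTop, (Zc t PY (2 * j)).toReal ≤ (C + 1) * Sr y sq (2 * j) ∧
      Sr y sq (2 * j) ≤ (C + 1) * ((2 * j : ℝ) * (Zc t PY (2 * j)).toReal) := by
    filter_upwards [hev n₀] with j hj
    obtain ⟨h1, h2⟩ := hC (2 * j) hj (even_two_mul j)
    rw [Zp_real hy0 ht, hZ] at h1 h2
    rw [show ENNReal.ofReal (Zc t PY (2 * j)).toReal = ((1 : ℕ) : ℝ≥0∞) *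
      ENNReal.ofReal (Zc t PY (2 * j)).toReal by simp] at h1
    rw [show ENNReal.ofReal (Sr y sq (2 * j)) = ((1 : ℕ) : ℝ≥0∞) *
      ENNReal.ofReal (Sr y sq (2 * j)) by simp, ← mul_assoc, ← Nat.cast_mul] at h2
    have h3 := le_real ENNReal.toReal_nonneg (Sr_nonneg hy0.le _ _) h1
    have h4 := le_real (Sr_nonneg hy0.le _ _) ENNReal.toReal_nonneg h2
    push_cast at h3 h4
    have h5 := Sr_nonneg hy0.le sq (2 * j)
    have h6 := (hpos j).le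
    refine ⟨by linarith, ?_⟩
    have h7 : 0 ≤ (2 * j : ℝ) * (Zc t PY (2 * j)).toReal := by positivity
    linarith
  have hSpos : ∀ᶠ j : ℕ in atTop, 0 < Sr y sq (2 * j) := by
    filter_upwards [hU] with j hj
    have h1 := hpos j
    have h2 : (0 : ℝ) < C + 1 := by positivity
    by_contra hn
    push Not at hn
    have := mul_nonpos_of_nonneg_of_nonpos h2.le hn
    linarith [hj.1]
  have hlimU : Tendsto (fun j : ℕ => Sr y sq (2 * j) ^ ((1 : ℝ) / (2 * j))) atTop (𝓝 μ) := by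
    refine root_lim hμ (C := (C : ℝ) + 1) (by positivity) 1 (Eventually.of_forall hpos) ?_ ?_ hlim
    · filter_upwards [hU, eventually_ge_atTop 1] with j hj hj1
      refine hj.1.trans ?_
      have h1 := Sr_nonneg hy0.le sq (2 * j)
      have h2 : (1 : ℝ) ≤ j := by exact_mod_cast hj1
      rw [pow_one]
      have h3 : (0 : ℝ) < C + 1 := by positivity
      refine mul_le_mul_of_nonneg_left ?_ h3.le
      nlinarith
    · filter_upwards [hU] with j hj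
      rw [pow_one]
      exact hj.2
  refine ⟨μ, hμ, hSpos, hlimU, fun k N hk => ?_⟩
  obtain ⟨C₁, n₁, h1⟩ := h.low_poly hk
  obtain ⟨C₂, n₂, h2⟩ := h.up_poly hk
  have hmain : ∀ᶠ j : ℕ in atTop,
        (2 * j : ℝ) ^ N * Sr y sq (2 * j) ≤ (C₁ + C₂ + 1) * Sr y k (2 * j) ∧
        Sr y k (2 * j) ≤ (C₁ + C₂ + 1) * ((2 * j : ℝ) ^ N * Sr y sq (2 * j)) := by
    filter_upwards [hev n₁, hev n₂] with j hj1 hj2
    have g1 := h1 (2 * j) hj1 (even_two_mul j)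
    have g2 := h2 (2 * j) hj2 (even_two_mul j)
    rw [Zp_real hy0 ht, Zp_real hy0 ht, ← Nat.cast_pow] at g1 g2
    rw [show ENNReal.ofReal (Sr y k (2 * j)) = ((1 : ℕ) : ℝ≥0∞) *
      ENNReal.ofReal (Sr y k (2 * j)) by simp, ← mul_assoc, ← Nat.cast_mul] at g2
    have g3 := le_real (Sr_nonneg hy0.le _ _) (Sr_nonneg hy0.le _ _) g1
    have g4 := le_real (Sr_nonneg hy0.le _ _) (Sr_nonneg hy0.le _ _) g2
    push_cast at g3 g4
    have g5 := Sr_nonneg hy0.le sq (2 * j)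
    have g6 := Sr_nonneg hy0.le k (2 * j)
    have g7 : 0 ≤ (2 * j : ℝ) ^ N * Sr y sq (2 * j) := by positivity
    have g8 : (0 : ℝ) ≤ C₁ := Nat.cast_nonneg _
    have g9 : (0 : ℝ) ≤ C₂ := Nat.cast_nonneg _
    constructor
    · nlinarith
    · nlinarith
  refine ⟨?_, (C₁ : ℝ) + C₂ + 1, by positivity, hmain⟩
  refine root_lim hμ (C := (C₁ : ℝ) + C₂ + 1) (by positivity) N hSpos ?_ ?_ hlimU
  · filter_upwards [hmain, eventually_ge_atTop 1] with j hj hj1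
    have g1 : (1 : ℝ) ≤ (2 * j : ℝ) ^ N := by
      apply one_le_pow₀
      have : (1 : ℝ) ≤ j := by exact_mod_cast hj1
      linarith
    have g2 := Sr_nonneg hy0.le sq (2 * j)
    have g3 := Sr_nonneg hy0.le k (2 * j)
    have g4 : (0 : ℝ) < C₁ + C₂ + 1 := by positivity
    calc Sr y sq (2 * j) ≤ (2 * j : ℝ) ^ N * Sr y sq (2 * j) := le_mul_of_one_le_left g2 g1
      _ ≤ (C₁ + C₂ + 1) * Sr y k (2 * j) := hj.1
      _ ≤ _ := mul_le_mul_of_nonneg_left (le_mul_of_one_le_left g3 g1) g4.le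
  · filter_upwards [hmain] with j hj
    exact hj.2

end

end KN.ST
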