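import Pool.Agent.H132.ST.Dom

/-!
# Stretched polygons: one more knotted block costs at most a factor `C n`
-/

set_option autoImplicit false

namespace KN.ST

open KN Finset
open scoped Classical ENNReal

noncomputable section

theorem Zc_odd (t : ℝ≥0∞) (P : Ch → Prop) {n : ℕ} (hn : ¬ Even n) : Zc t P n = 0 := by
  unfold Zc
  rw [ENNReal.tsum_eq_zero]
  intro c
  rw [if_neg]
  rintro ⟨h1, h2, -⟩
  exact hn (h2 ▸ ln_even_vc h1)

/-- the constant of the second ratio inequality -/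
def kap (N : ℕ) : ℝ≥0∞ := ((N + 1 : ℕ) : ℝ≥0∞) / N

theorem kap_ge {N : ℕ} (hN : 0 < N) : 1 ≤ kap N := by
  unfold kap
  rw [ENNReal.le_div_iff_mul_le (Or.inl (by exact_mod_cast hN.ne'))
    (Or.inl (ENNReal.natCast_ne_top _)), one_mul]
  exact_mod_cast Nat.le_succ N

theorem ratio2' {N : ℕ} (hN0 : 0 < N) {t : ℝ≥0∞} (ht : 12 ^ (2 * N + 3) ≤ t) (htt : t ≠ ⊤)
    {P : Ch → Prop} (hP : Cls P) (n : ℕ) (hn : Even n) (hN : (N + 1) * 6 ^ 4 ≤ 2 ^ (n + 2)) :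
    Zc t P (n + 2) ≤ kap N ^ 2 * (t ^ 6 * Zc t P n) := by
  have h := ratio2 ht htt hP n hn hN
  have h0 : (N : ℝ≥0∞) ^ 2 ≠ 0 := pow_ne_zero _ (by exact_mod_cast hN0.ne')
  have h1 : (N : ℝ≥0∞) ^ 2 ≠ ⊤ := ENNReal.pow_ne_top (ENNReal.natCast_ne_top _)
  refine (ENNReal.mul_le_mul_iff_right h0 h1).1 (h.trans (le_of_eq ?_))
  have e : (N : ℝ≥0∞) ^ 2 * kap N ^ 2 = ((N + 1 : ℕ) : ℝ≥0∞) ^ 2 := by
    rw [← mul_pow]
    congr 1
    unfold kap
    exact ENNReal.mul_div_cancel (by exact_mod_cast hN0.ne') (ENNReal.natCast_ne_top _)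
  rw [← mul_assoc ((N : ℝ≥0∞) ^ 2), e]

theorem cmp_up {N : ℕ} (hN0 : 0 < N) {t : ℝ≥0∞} (ht : 12 ^ (2 * N + 3) ≤ t) (htt : t ≠ ⊤)
    {P : Ch → Prop} (hP : Cls P) (n : ℕ) (hn : Even n) (hN : (N + 1) * 6 ^ 4 ≤ 2 ^ (n + 2))
    (j : ℕ) : Zc t P (n + 2 * j) ≤ kap N ^ (2 * j) * (t ^ (6 * j) * Zc t P n) := by
  induction j with
  | zero => simp
  | succ j ih =>
    have h1 := ratio2' hN0 ht htt hP (n + 2 * j) (hn.add (even_two_mul j))
      (hN.trans (Nat.pow_le_pow_right (by norm_num) (by omega)))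
    have e : n + 2 * j + 2 = n + 2 * (j + 1) := by ring
    rw [e] at h1
    refine h1.trans ?_
    calc kap N ^ 2 * (t ^ 6 * Zc t P (n + 2 * j)) ≤
        kap N ^ 2 * (t ^ 6 * (kap N ^ (2 * j) * (t ^ (6 * j) * Zc t P n))) := by gcongr
      _ = _ := by ring

theorem cmp_down (t : ℝ≥0∞) {P : Ch → Prop} (hP : Cls P) (n j : ℕ) :
    Zc t P n * t ^ (6 * j) ≤ Zc t P (n + 2 * j) := by
  induction j with
  | zero => simp
  | succ j ih =>
    have h1 := ratio1 t hP (n + 2 * j)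
    have e : n + 2 * j + 2 = n + 2 * (j + 1) := by ring
    rw [e] at h1
    refine le_trans ?_ h1
    calc Zc t P n * t ^ (6 * (j + 1)) = Zc t P n * t ^ (6 * j) * t ^ 6 := by ring
      _ ≤ _ := by gcongr

theorem cmp {N : ℕ} (hN0 : 0 < N) {t : ℝ≥0∞} (ht : 12 ^ (2 * N + 3) ≤ t) (htt : t ≠ ⊤)
    {P : Ch → Prop} (hP : Cls P) (n : ℕ) (hn : Even n) (hN : (N + 1) * 6 ^ 4 ≤ 2 ^ (n + 2))
    (n' : ℕ) : Zc t P n' * t ^ (3 * n) ≤ Zc t P n * t ^ (3 * n') * kap N ^ (n' - n) := by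
  by_cases hn' : Even n'
  · rcases le_total n n' with h | h
    · obtain ⟨j, hj⟩ : ∃ j, n' = n + 2 * j := by
        obtain ⟨a, ha⟩ := hn
        obtain ⟨b, hb⟩ := hn'
        exact ⟨b - a, by omega⟩
      subst hj
      have h1 := cmp_up hN0 ht htt hP n hn hN j
      calc Zc t P (n + 2 * j) * t ^ (3 * n) ≤
          (kap N ^ (2 * j) * (t ^ (6 * j) * Zc t P n)) * t ^ (3 * n) := by gcongr
        _ = _ := by
          have : n + 2 * j - n = 2 * j := by omega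
          rw [this]
          ring
    · obtain ⟨j, hj⟩ : ∃ j, n = n' + 2 * j := by
        obtain ⟨a, ha⟩ := hn
        obtain ⟨b, hb⟩ := hn'
        exact ⟨a - b, by omega⟩
      have h1 := cmp_down t hP n' j
      rw [← hj] at h1
      have h2 : n' - n = 0 := by omega
      rw [h2, pow_zero, mul_one]
      calc Zc t P n' * t ^ (3 * n) = Zc t P n' * t ^ (6 * j) * t ^ (3 * n') := by
            rw [hj]; ring
        _ ≤ _ := by gcongr
  · rw [Zc_odd t P hn', zero_mul]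
    exact zero_le

theorem term_le {N K : ℕ} (hN0 : 0 < N) {t : ℝ≥0∞} (ht : 12 ^ (2 * N + 3) ≤ t) (htt : t ≠ ⊤)
    (hK : 576 ≤ K) (hκ : kap N ^ (2 * K + 1) ≤ 2) (Q n : ℕ) (hn : Even n)
    (hN : (N + 1) * 6 ^ 4 ≤ 2 ^ (n + 2)) (vs : List Dir) (m : ℕ) (h1 : vs.length ≤ m + 2)
    (h2 : m + 2 ≤ n) :
    12 ^ (m + 2) * 12 ^ vs.length * (t ^ (2 * (m + 2 - vs.length) + 6) *
      Ag t Q (n - (m + 2)) vs) ≤
      ((2 * K + 2 : ℕ) : ℝ≥0∞) * t ^ 6 * (((n + 1 : ℕ) : ℝ≥0∞) * Zc t (PQ Q) n) := by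
  have ht1 : 1 ≤ t := le_trans (by exact one_le_pow₀ (by norm_num)) ht
  have ht0 : t ≠ 0 := (lt_of_lt_of_le zero_lt_one ht1).ne'
  have ht144 : 144 ≤ t := by
    refine le_trans ?_ ht
    calc (144 : ℝ≥0∞) = 12 ^ 2 := by norm_num
      _ ≤ _ := pow_le_pow_right₀ (by norm_num) (by omega)
  set r := vs.length with hr
  obtain ⟨i, hi⟩ : ∃ i, m + 2 = r + i := ⟨m + 2 - r, by omega⟩
  set k := n - (m + 2) with hk
  have hkn : n = k + (m + 2) := by omega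
  set A := Ag t Q k vs with hA
  set x := Zc t (PQ Q) n with hx
  set n' := k + (2 * K + 1) * r with hn'
  have g1 := Ag_all t Q K vs k
  rw [← hr, ← hA, ← hn'] at g1
  have g2 := cmp hN0 ht htt (cls_PQ Q) n hn hN n'
  have g3 : kap N ^ (n' - n) ≤ 2 ^ r := by
    calc kap N ^ (n' - n) ≤ kap N ^ ((2 * K + 1) * r) :=
          pow_le_pow_right₀ (kap_ge hN0) (by omega)
      _ = (kap N ^ (2 * K + 1)) ^ r := pow_mul _ _ _
      _ ≤ 2 ^ r := pow_le_pow_left' hκ _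
  have g4 : ((n' + 1 : ℕ) : ℝ≥0∞) ≤ ((n + 1 : ℕ) : ℝ≥0∞) * ((2 * K + 2 : ℕ) : ℝ≥0∞) * 2 ^ r := by
    have : n' + 1 ≤ (n + 1) * (2 * K + 2) * 2 ^ r := by
      have hr2 : r + 1 ≤ 2 ^ r := Nat.lt_two_pow_self
      have e1 : n' + 1 ≤ (n + 1) + (2 * K + 1) * r := by omega
      have e2 : (n + 1) + (2 * K + 1) * r ≤ (n + 1) * ((2 * K + 2) * (r + 1)) := by
        have a1 : (n + 1) + (2 * K + 1) * r ≤ (n + 1) * (1 + (2 * K + 1) * r) := by
          have : (n + 1) * (1 + (2 * K + 1) * r) =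
              (n + 1) + (2 * K + 1) * r + n * ((2 * K + 1) * r) := by ring
          rw [this]
          exact Nat.le_add_right _ _
        have a2 : 1 + (2 * K + 1) * r ≤ (2 * K + 2) * (r + 1) := by
          have : (2 * K + 2) * (r + 1) = 1 + (2 * K + 1) * r + (r + 2 * K + 1) := by ring
          rw [this]
          exact Nat.le_add_right _ _
        exact a1.trans (Nat.mul_le_mul_left _ a2)
      calc n' + 1 ≤ (n + 1) * ((2 * K + 2) * (r + 1)) := e1.trans e2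
        _ ≤ (n + 1) * ((2 * K + 2) * 2 ^ r) := by gcongr
        _ = _ := by ring
    exact_mod_cast this
  -- combine
  have g5 : (K : ℝ≥0∞) ^ r * (t ^ (6 * K * r) * A) * t ^ (3 * n) ≤
      ((n + 1 : ℕ) : ℝ≥0∞) * ((2 * K + 2 : ℕ) : ℝ≥0∞) * 2 ^ r * (x * t ^ (3 * n') * 2 ^ r) := by
    calc (K : ℝ≥0∞) ^ r * (t ^ (6 * K * r) * A) * t ^ (3 * n) ≤
        (((n' + 1 : ℕ) : ℝ≥0∞) * Zc t (PQ Q) n') * t ^ (3 * n) := by gcongr
      _ = ((n' + 1 : ℕ) : ℝ≥0∞) * (Zc t (PQ Q) n' * t ^ (3 * n)) := by ring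
      _ ≤ (((n + 1 : ℕ) : ℝ≥0∞) * ((2 * K + 2 : ℕ) : ℝ≥0∞) * 2 ^ r) *
          (x * t ^ (3 * n') * kap N ^ (n' - n)) := by gcongr
      _ ≤ _ := by gcongr
  -- cancel powers of `t`
  have e1 : (K : ℝ≥0∞) ^ r * (t ^ (6 * K * r) * A) * t ^ (3 * n) =
      t ^ (6 * K * r + 3 * k + 3 * r) * ((K : ℝ≥0∞) ^ r * t ^ (3 * i) * A) := by
    have : 3 * n = 3 * k + 3 * r + 3 * i := by omega
    rw [this]
    ring
  have e2 : ((n + 1 : ℕ) : ℝ≥0∞) * ((2 * K + 2 : ℕ) : ℝ≥0∞) * 2 ^ r *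
      (x * t ^ (3 * n') * 2 ^ r) = t ^ (6 * K * r + 3 * k + 3 * r) *
        (((n + 1 : ℕ) : ℝ≥0∞) * ((2 * K + 2 : ℕ) : ℝ≥0∞) * 4 ^ r * x) := by
    have h3 : 3 * n' = 6 * K * r + 3 * k + 3 * r := by rw [hn']; ring
    have h4 : (4 : ℝ≥0∞) ^ r = 2 ^ r * 2 ^ r := by rw [← mul_pow]; norm_num
    rw [h3, h4]
    ring
  rw [e1, e2] at g5
  have g6 := (ENNReal.mul_le_mul_iff_right (pow_ne_zero _ ht0) (ENNReal.pow_ne_top htt)).1 g5
  have g7 : (4 : ℝ≥0∞) ^ r * (12 ^ (m + 2) * 12 ^ r * (t ^ (2 * (m + 2 - r)) * A)) ≤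
      (K : ℝ≥0∞) ^ r * t ^ (3 * i) * A := by
    have h5 : m + 2 - r = i := by omega
    have h6 : (12 : ℝ≥0∞) ^ (m + 2) * 12 ^ r ≤ 144 ^ r * 144 ^ i := by
      rw [hi]
      calc (12 : ℝ≥0∞) ^ (r + i) * 12 ^ r ≤ 12 ^ (r + i) * 12 ^ (r + i) := by
            gcongr
            · norm_num
            · omega
        _ = 144 ^ r * 144 ^ i := by
            rw [← mul_pow, ← pow_add]; norm_num
    have h7 : (4 : ℝ≥0∞) ^ r * 144 ^ r ≤ (K : ℝ≥0∞) ^ r := by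
      rw [← mul_pow]
      refine pow_le_pow_left' ?_ _
      calc (4 : ℝ≥0∞) * 144 = ((576 : ℕ) : ℝ≥0∞) := by norm_num
        _ ≤ K := by exact_mod_cast hK
    have h8 : (144 : ℝ≥0∞) ^ i ≤ t ^ i := pow_le_pow_left' ht144 _
    rw [h5]
    calc (4 : ℝ≥0∞) ^ r * (12 ^ (m + 2) * 12 ^ r * (t ^ (2 * i) * A)) ≤
        4 ^ r * ((144 ^ r * 144 ^ i) * (t ^ (2 * i) * A)) := by gcongr
      _ = (4 ^ r * 144 ^ r) * 144 ^ i * (t ^ (2 * i) * A) := by ring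
      _ ≤ (K : ℝ≥0∞) ^ r * t ^ i * (t ^ (2 * i) * A) := by gcongr
      _ = _ := by ring
  have g8 : (4 : ℝ≥0∞) ^ r * (12 ^ (m + 2) * 12 ^ r * (t ^ (2 * (m + 2 - r)) * A)) ≤
      4 ^ r * (((2 * K + 2 : ℕ) : ℝ≥0∞) * (((n + 1 : ℕ) : ℝ≥0∞) * x)) := by
    refine (g7.trans g6).trans (le_of_eq ?_)
    ring
  have g9 := (ENNReal.mul_le_mul_iff_right (pow_ne_zero _ (by norm_num))
    (ENNReal.pow_ne_top (by norm_num))).1 g8
  calc 12 ^ (m + 2) * 12 ^ r * (t ^ (2 * (m + 2 - r) + 6) * A) =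
      12 ^ (m + 2) * 12 ^ r * (t ^ (2 * (m + 2 - r)) * A) * t ^ 6 := by ring
    _ ≤ (((2 * K + 2 : ℕ) : ℝ≥0∞) * (((n + 1 : ℕ) : ℝ≥0∞) * x)) * t ^ 6 := by gcongr
    _ = _ := by ring

/-! ### sums over words -/

theorem tsum_words (a : ℝ≥0∞) : ∑' w : List Dir, a ^ w.length ≤ ∑' n : ℕ, (6 * a) ^ n := by
  have h1 : ∀ w : List Dir, a ^ w.length = ∑' n : ℕ, (if w.length = n then a ^ n else 0) := by
    intro w
    rw [tsum_eq_single w.length]
    · simp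
    · intro n hn
      rw [if_neg (fun h => hn h.symm)]
  rw [tsum_congr h1, ENNReal.tsum_comm]
  refine ENNReal.tsum_le_tsum fun n => ?_
  rw [tsum_eq_sum (s := W n) (fun w hw => if_neg (fun h => hw (mem_W.2 h)))]
  rw [sum_congr rfl (fun w hw => if_pos (mem_W.1 hw))]
  rw [sum_const, nsmul_eq_mul, mul_pow]
  refine mul_le_mul_left ?_ _
  calc ((W n).card : ℝ≥0∞) ≤ ((6 ^ n : ℕ) : ℝ≥0∞) := by exact_mod_cast card_W_le n
    _ = _ := by push_cast; rfl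

theorem tsum_words12 : ∑' w : List Dir, (12 : ℝ≥0∞)⁻¹ ^ w.length ≤ 2 := by
  refine (tsum_words _).trans ?_
  have e : (6 : ℝ≥0∞) * 12⁻¹ = 2⁻¹ := by
    rw [show (12 : ℝ≥0∞) = 6 * 2 by norm_num, ENNReal.mul_inv (by norm_num) (by norm_num),
      ← mul_assoc, ENNReal.mul_inv_cancel (by norm_num) (by norm_num), one_mul]
  rw [e, ENNReal.tsum_geometric, ENNReal.one_sub_inv_two, inv_inv]

theorem tsum_blk12 : ∑' b : Blk, (12 : ℝ≥0∞)⁻¹ ^ bl b ≤ 4 := by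
  have e : ∀ b : Blk, (12 : ℝ≥0∞)⁻¹ ^ bl b =
      (12 : ℝ≥0∞)⁻¹ ^ b.1.length * (12 : ℝ≥0∞)⁻¹ ^ b.2.length := by
    intro b
    rw [← pow_add]
    rfl
  rw [tsum_congr e, ENNReal.tsum_prod']
  simp only [ENNReal.tsum_mul_left, ENNReal.tsum_mul_right]
  calc _ ≤ (2 : ℝ≥0∞) * 2 := by gcongr <;> exact tsum_words12
    _ = 4 := by norm_num

/-! ### the domination -/

/-- a block between a left part and a right part -/
def TB (Q : ℕ) (e : Dir × Dir) (p : List Blk) (B : Blk) (q : List Blk) : Prop :=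
  Lat e.1 ∧ Lat e.2 ∧ ∃ D D' : Z3, VC (vec e.1) p D ∧ Pc D D' B ∧ VC D' q (vec e.2) ∧
    (∀ b ∈ p, Irr b) ∧ Irr B ∧ (∀ b ∈ q, Irr b) ∧ nb (vec e.1) p + nb D' q ≤ Q

theorem find_bad {Q : ℕ} : ∀ (l : List Blk) (D E : Z3), VC D l E → nb D l = Q + 1 →
    ∃ (p : List Blk) (B : Blk) (q : List Blk) (D1 D2 : Z3), l = p ++ B :: q ∧ VC D p D1 ∧
      Pc D1 D2 B ∧ VC D2 q E ∧ nb D p + nb D2 q = Q ∧ ¬ Same (tB D1 D2 B) sq := by
  intro l
  induction l with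
  | nil => intro D E _ h; simp [nb] at h
  | cons b l ih =>
    intro D E h1 h2
    simp only [nb] at h2
    by_cases hb : Same (tB D (nxt D b) b) sq
    · rw [if_pos hb, add_zero] at h2
      obtain ⟨p, B, q, D1, D2, k1, k2, k3, k4, k5, k6⟩ := ih _ _ h1.2 h2
      refine ⟨b :: p, B, q, D1, D2, by rw [k1]; rfl, ⟨h1.1, k2⟩, k3, k4, ?_, k6⟩
      simp only [nb]
      rw [if_pos hb, add_zero]
      exact k5
    · rw [if_neg hb] at h2
      exact ⟨[], b, l, D, nxt D b, rfl, rfl, h1.1, h1.2, by simp only [nb]; omega, hb⟩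

theorem split_le (t : ℝ≥0∞) (Q n : ℕ) (e : Dir × Dir) (l : List Blk) :
    (if Good (e, l) ∧ ln l = n ∧ PQ (Q + 1) (e, l) then t ^ (6 * sp l) else 0) ≤
      (if Good (e, l) ∧ ln l = n ∧ PQ Q (e, l) then t ^ (6 * sp l) else 0) +
      ∑ i ∈ range l.length, (if TB Q e (l.take i) (l.getD i default) (l.drop (i + 1)) ∧
        ln (l.take i) + ln (l.drop (i + 1)) + bl (l.getD i default) + 2 = n then
        t ^ (6 * (sp (l.take i) + sp (l.drop (i + 1)) + wd (l.getD i default) + 1)) else 0) := by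
  by_cases hc : Good (e, l) ∧ ln l = n ∧ PQ (Q + 1) (e, l)
  · rw [if_pos hc]
    by_cases hq : PQ Q (e, l)
    · rw [if_pos ⟨hc.1, hc.2.1, hq⟩]
      exact le_self_add
    · have h1 : nb (vec e.1) l = Q + 1 := by
        have h2 := hc.2.2
        unfold PQ at h2 hq
        simp only at h2 hq
        omega
      obtain ⟨p, B, q, D1, D2, k1, k2, k3, k4, k5, -⟩ := find_bad l _ _ hc.1.vc h1
      have hir := hc.1.ir
      simp only at hir
      have hi : p.length < l.length := by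
        rw [k1]; simp only [List.length_append, List.length_cons]; omega
      have e1 : l.take p.length = p := by rw [k1]; simp
      have e2 : l.getD p.length default = B := by rw [k1]; simp
      have e3 : l.drop (p.length + 1) = q := by rw [k1, ← List.drop_drop]; simp
      refine le_trans ?_ le_add_self
      refine le_trans ?_ (single_le_sum (fun i _ => zero_le) (mem_range.2 hi))
      rw [e1, e2, e3, if_pos]
      · have : sp l = sp p + sp q + wd B + 1 := by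
          rw [k1, sp_append, sp_cons]; omega
        rw [this]
      · refine ⟨⟨hc.1.l0, hc.1.l1, D1, D2, k2, k3, k4, ?_, ?_, ?_, k5.le⟩, ?_⟩
        · intro b hb; exact hir b (by rw [k1]; simp [hb])
        · exact hir B (by rw [k1]; simp)
        · intro b hb; exact hir b (by rw [k1]; simp [hb])
        · have := hc.2.1
          rw [k1, ln_append, ln_cons] at this
          omega
  · rw [if_neg hc]
    exact zero_le

/-- the sum over the chains with a distinguished block -/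
def Mk (t : ℝ≥0∞) (Q n : ℕ) (R : Blk → Prop) : ℝ≥0∞ :=
  ∑' x : (Dir × Dir) × (List Blk × Blk × List Blk),
    (if TB Q x.1 x.2.1 x.2.2.1 x.2.2.2 ∧ ln x.2.1 + ln x.2.2.2 + bl x.2.2.1 + 2 = n ∧ R x.2.2.1 then
      t ^ (6 * (sp x.2.1 + sp x.2.2.2 + wd x.2.2.1 + 1)) else 0)

theorem Zc_split (t : ℝ≥0∞) (Q n : ℕ) :
    Zc t (PQ (Q + 1)) n ≤ Zc t (PQ Q) n + Mk t Q n (fun _ => True) := by
  have h1 : Mk t Q n (fun _ => True) = ∑' e : Dir × Dir, ∑' l : List Blk,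
      ∑ i ∈ range l.length, (if TB Q e (l.take i) (l.getD i default) (l.drop (i + 1)) ∧
        ln (l.take i) + ln (l.drop (i + 1)) + bl (l.getD i default) + 2 = n then
        t ^ (6 * (sp (l.take i) + sp (l.drop (i + 1)) + wd (l.getD i default) + 1)) else 0) := by
    unfold Mk
    rw [ENNReal.tsum_prod']
    refine tsum_congr fun e => ?_
    rw [← tsum_mid (α := Blk) (fun p B q => if TB Q e p B q ∧ ln p + ln q + bl B + 2 = n then
      t ^ (6 * (sp p + sp q + wd B + 1)) else 0)]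
    refine tsum_congr fun x => ?_
    simp only [and_true]
  rw [h1]
  unfold Zc
  rw [ENNReal.tsum_prod']
  refine le_trans ?_ (le_of_eq (congrArg (fun z => z + _) ENNReal.tsum_prod'.symm))
  rw [← ENNReal.tsum_add]
  refine ENNReal.tsum_le_tsum fun e => ?_
  rw [← ENNReal.tsum_add]
  exact ENNReal.tsum_le_tsum fun l => split_le t Q n e l

theorem tb_path {Q : ℕ} {e : Dir × Dir} {p q : List Blk} {B : Blk} (h : TB Q e p B q) :
    ∃ vs, TOK Q e p q vs ∧ vs.length + 3 * wd B ≤ bl B + 2 := by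
  obtain ⟨h1, h2, D, D', h3, h4, h5, h6, h7, h8, h9⟩ := h
  obtain ⟨vs, g1, g2⟩ := pth_exists h4.h1 h4.h0 h4.ne.1 h4.ne.2
  have g3 := irr_len h4 h7
  exact ⟨vs, ⟨h1, h2, D, D', h3, h5, h6, h8, g1, h9⟩, by omega⟩

theorem Mk_le {N K : ℕ} (hN0 : 0 < N) {t : ℝ≥0∞} (ht : 12 ^ (2 * N + 3) ≤ t) (htt : t ≠ ⊤)
    (hK : 576 ≤ K) (hκ : kap N ^ (2 * K + 1) ≤ 2) (Q n : ℕ) (hn : Even n)
    (hN : (N + 1) * 6 ^ 4 ≤ 2 ^ (n + 2)) (R : Blk → Prop) :
    Mk t Q n R ≤ (((2 * K + 2 : ℕ) : ℝ≥0∞) * t ^ 6 * (((n + 1 : ℕ) : ℝ≥0∞) * Zc t (PQ Q) n)) *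
      (2 * ∑' b : Blk, if R b then (12 : ℝ≥0∞)⁻¹ ^ bl b else 0) := by
  have ht1 : 1 ≤ t := le_trans (by exact one_le_pow₀ (by norm_num)) ht
  set C := ((2 * K + 2 : ℕ) : ℝ≥0∞) * t ^ 6 * (((n + 1 : ℕ) : ℝ≥0∞) * Zc t (PQ Q) n) with hC
  have hex : ∀ x : (Dir × Dir) × (List Blk × Blk × List Blk), ∃ vs : List Dir,
      TB Q x.1 x.2.1 x.2.2.1 x.2.2.2 → TOK Q x.1 x.2.1 x.2.2.2 vs ∧
        vs.length + 3 * wd x.2.2.1 ≤ bl x.2.2.1 + 2 := by
    intro x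
    by_cases hx : TB Q x.1 x.2.1 x.2.2.1 x.2.2.2
    · obtain ⟨vs, h⟩ := tb_path hx
      exact ⟨vs, fun _ => h⟩
    · exact ⟨[], fun h => absurd h hx⟩
  choose vf hvf using hex
  -- the comparison sum
  set F : Blk × (List Dir × ((Dir × Dir) × (List Blk × List Blk))) → ℝ≥0∞ := fun y =>
    if R y.1 ∧ y.2.1.length ≤ bl y.1 + 2 ∧ bl y.1 + 2 ≤ n then
      t ^ (2 * (bl y.1 + 2 - y.2.1.length) + 6) *
        (if TOK Q y.2.2.1 y.2.2.2.1 y.2.2.2.2 y.2.1 ∧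
          ln y.2.2.2.1 + ln y.2.2.2.2 = n - (bl y.1 + 2) then
          t ^ (6 * (sp y.2.2.2.1 + sp y.2.2.2.2)) else 0) else 0 with hF
  have h1 : Mk t Q n R ≤ ∑' y, F y := by
    unfold Mk
    refine tsum_le_of_inj _ _ (fun x => (x.2.2.1, (vf x, (x.1, (x.2.1, x.2.2.2))))) ?_ ?_
    · rintro ⟨e, p, B, q⟩ ⟨e', p', B', q'⟩ _ _ h
      simp only [Prod.mk.injEq] at h
      obtain ⟨rfl, -, rfl, rfl, rfl⟩ := h
      rfl
    · rintro ⟨e, p, B, q⟩ h
      by_cases hc : TB Q e p B q ∧ ln p + ln q + bl B + 2 = n ∧ R B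
      · obtain ⟨g1, g2⟩ := hvf (e, p, B, q) hc.1
        simp only at g1 g2
        have g3 := hc.2.1
        simp only [hF]
        rw [if_pos hc, if_pos ⟨hc.2.2, by omega, by omega⟩, if_pos ⟨g1, by omega⟩, ← pow_add]
        exact pow_le_pow_right₀ ht1 (by omega)
      · exact absurd (if_neg hc) h
  refine h1.trans ?_
  rw [ENNReal.tsum_prod', ← ENNReal.tsum_mul_left, ← ENNReal.tsum_mul_left]
  refine ENNReal.tsum_le_tsum fun b => ?_
  rw [ENNReal.tsum_prod']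
  -- bound for fixed `b`, `vs`
  have h2 : ∀ vs : List Dir, ∑' x, F (b, (vs, x)) ≤
      C * (if R b then (12 : ℝ≥0∞)⁻¹ ^ bl b else 0) * (12 : ℝ≥0∞)⁻¹ ^ vs.length := by
    intro vs
    simp only [hF]
    by_cases hc : R b ∧ vs.length ≤ bl b + 2 ∧ bl b + 2 ≤ n
    · rw [if_pos hc.1]
      have e1 : (∑' x : (Dir × Dir) × (List Blk × List Blk),
          if R b ∧ vs.length ≤ bl b + 2 ∧ bl b + 2 ≤ n then
            t ^ (2 * (bl b + 2 - vs.length) + 6) *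
            (if TOK Q x.1 x.2.1 x.2.2 vs ∧ ln x.2.1 + ln x.2.2 = n - (bl b + 2) then
              t ^ (6 * (sp x.2.1 + sp x.2.2)) else 0) else 0) =
          t ^ (2 * (bl b + 2 - vs.length) + 6) * Ag t Q (n - (bl b + 2)) vs := by
        unfold Ag
        rw [← ENNReal.tsum_mul_left]
        refine tsum_congr fun x => ?_
        rw [if_pos hc]
      rw [e1]
      have h3 := term_le hN0 ht htt hK hκ Q n hn hN vs (bl b) hc.2.1 hc.2.2
      rw [← hC] at h3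
      have h4 : (12 : ℝ≥0∞) ^ bl b * 12 ^ vs.length * (t ^ (2 * (bl b + 2 - vs.length) + 6) *
          Ag t Q (n - (bl b + 2)) vs) ≤ C := by
        refine le_trans ?_ h3
        gcongr
        · norm_num
        · omega
      have e2 : C * (12 : ℝ≥0∞)⁻¹ ^ bl b * (12 : ℝ≥0∞)⁻¹ ^ vs.length =
          C / ((12 : ℝ≥0∞) ^ bl b * 12 ^ vs.length) := by
        rw [div_eq_mul_inv, ENNReal.mul_inv (Or.inl (by positivity))
          (Or.inl (ENNReal.pow_ne_top (by norm_num))), ENNReal.inv_pow, ENNReal.inv_pow, mul_assoc]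
      rw [e2, ENNReal.le_div_iff_mul_le (Or.inl (by positivity)) (Or.inl (by
        exact ENNReal.mul_ne_top (ENNReal.pow_ne_top (by norm_num))
          (ENNReal.pow_ne_top (by norm_num))))]
      rw [mul_comm]
      exact h4
    · have : (∑' x : (Dir × Dir) × (List Blk × List Blk),
          if R b ∧ vs.length ≤ bl b + 2 ∧ bl b + 2 ≤ n then
            t ^ (2 * (bl b + 2 - vs.length) + 6) *
            (if TOK Q x.1 x.2.1 x.2.2 vs ∧ ln x.2.1 + ln x.2.2 = n - (bl b + 2) then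
              t ^ (6 * (sp x.2.1 + sp x.2.2)) else 0) else 0) = 0 := by
        rw [ENNReal.tsum_eq_zero]
        intro x
        rw [if_neg hc]
      rw [this]
      exact zero_le
  refine (ENNReal.tsum_le_tsum h2).trans ?_
  rw [ENNReal.tsum_mul_left]
  calc C * (if R b then (12 : ℝ≥0∞)⁻¹ ^ bl b else 0) * ∑' w : List Dir, (12 : ℝ≥0∞)⁻¹ ^ w.length ≤
      C * (if R b then (12 : ℝ≥0∞)⁻¹ ^ bl b else 0) * 2 := by
        gcongr
        exact tsum_words12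
    _ = _ := by ring

end

end KN.ST
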