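import Pool.Graph.R_seed8.H246KN.Basic

/-!
# Stretched polygons: arcs, blocks and chains (combinatorics of words)

Words over the six unit directions, the last letter is the first step.
-/

set_option autoImplicit false

namespace KN.ST

open KN

/-- translation of a list of points -/
def sh (s : Z3) (L : List Z3) : List Z3 := L.map (fun p => p + s)

theorem mem_sh {s p : Z3} {L : List Z3} : p ∈ sh s L ↔ p - s ∈ L := by
  unfold sh
  rw [List.mem_map]
  constructor
  · rintro ⟨q, hq, rfl⟩
    simpa using hq
  · intro h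
    exact ⟨p - s, h, by simp⟩

theorem nodup_sh {s : Z3} {L : List Z3} : (sh s L).Nodup ↔ L.Nodup := by
  unfold sh
  exact List.nodup_map_iff (fun a b h => by simpa using h)

theorem sh_append (s : Z3) (L M : List Z3) : sh s (L ++ M) = sh s L ++ sh s M := by
  simp [sh]

theorem sh_sh (s t : Z3) (L : List Z3) : sh s (sh t L) = sh (t + s) L := by
  simp only [sh, List.map_map]
  congr 1
  funext p
  simp [add_assoc]

theorem sh_zero (L : List Z3) : sh 0 L = L := by
  simp [sh]

theorem path_mid (l1 l2 : List Dir) (a : Dir) :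
    path (l1 ++ a :: l2) = sh (pos l2 + vec a) (path l1) ++ path l2 := by
  induction l1 with
  | nil => simp [path, sh]
  | cons d l ih =>
    simp only [List.cons_append, path, ih, sh, List.map_cons, pos_append, pos]
    congr 1
    abel

theorem zero_ne_nil {r : List Dir} (h : pos r ≠ 0) : r ≠ [] := by
  rintro rfl
  exact h rfl

abbrev Blk := List Dir × List Dir

/-- an arc from `0` to `D` in the half-space `x ≥ 0` -/
structure RA (D : Z3) (r : List Dir) : Prop where
  nd : (path r).Nodup
  ge : ∀ p ∈ path r, 0 ≤ p.1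
  en : pos r = D
  h0 : D.1 = 0
  ne : D ≠ 0

/-- an arc from `0` to `-D` in the half-space `x ≤ 0` -/
structure LA (D : Z3) (l : List Dir) : Prop where
  nd : (path l).Nodup
  le : ∀ p ∈ path l, p.1 ≤ 0
  en : pos l = -D
  h0 : D.1 = 0
  ne : D ≠ 0

/-- the polygon composed of a right arc and a left arc -/
def Poly (l r : List Dir) : List Dir := .xp :: (l ++ .xm :: r)

theorem path_poly {D : Z3} (l : List Dir) {r : List Dir} (hr : pos r = D) :
    path (l ++ .xm :: r) = sh (D + vec .xm) (path l) ++ path r := by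
  rw [path_mid, hr]

theorem sap_poly {D : Z3} {l r : List Dir} (hl : LA D l) (hr : RA D r) : SAP (Poly l r) := by
  have hl1 : l ≠ [] := zero_ne_nil (by rw [hl.en]; exact neg_ne_zero.2 hl.ne)
  have hr1 : r ≠ [] := zero_ne_nil (by rw [hr.en]; exact hr.ne)
  refine ⟨?_, ?_, ?_⟩
  · have := List.length_pos_iff.2 hl1
    have := List.length_pos_iff.2 hr1
    simp only [Poly, List.length_cons, List.length_append]
    omega
  · simp only [Poly, pos, pos_append, hl.en, hr.en]
    simp [vec]
  · simp only [Poly, path, List.tail_cons]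
    rw [path_poly l hr.en, List.nodup_append']
    refine ⟨nodup_sh.2 hl.nd, hr.nd, ?_⟩
    intro p hp hq
    have h1 := hl.le _ (mem_sh.1 hp)
    have h2 := hr.ge _ hq
    have h3 := hr.h0
    simp only [Prod.fst_sub, Prod.fst_add, vec] at h1
    omega

/-- the vertices of a block -/
def pv (b : Blk) (D' : Z3) : List Z3 := sh (pos b.1 + D') (path b.2) ++ path b.1

/-- two disjoint arcs in a slab `0 ≤ x ≤ j`: one from `0` upwards, one from the top down to `D`;
`D'` is the difference of their ends at the top -/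
structure Pc (D D' : Z3) (b : Blk) : Prop where
  nd : (pv b D').Nodup
  rg : ∀ p ∈ pv b D', 0 ≤ p.1 ∧ p.1 ≤ (pos b.1).1
  rel : pos b.2 + (pos b.1 + D') = D
  h0 : D'.1 = 0
  h1 : D.1 = 0

/-- a block followed by an arc -/
def Rw1 (b : Blk) (r : List Dir) : List Dir := b.2 ++ .xm :: (r ++ .xp :: b.1)

/-- blocks followed by an arc -/
def Rw : List Blk → List Dir → List Dir
  | [], e => e
  | b :: bs, e => Rw1 b (Rw bs e)

/-- a left arc continued by a block -/
def ext (l : List Dir) (b : Blk) : List Dir := b.1 ++ .xp :: (l ++ .xm :: b.2)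

theorem Rw_append (bs cs : List Blk) (e : List Dir) : Rw (bs ++ cs) e = Rw bs (Rw cs e) := by
  induction bs with
  | nil => rfl
  | cons b bs ih => simp only [List.cons_append, Rw, ih]

theorem path_Rw1 {b : Blk} {r : List Dir} {D' : Z3} (hr : pos r = D') :
    path (Rw1 b r) = sh (pos b.1 + D') (path b.2) ++
      (sh (pos b.1 + vec .xp) (path r) ++ path b.1) := by
  unfold Rw1
  rw [path_mid, path_mid, pos_append, hr]
  congr 2
  simp only [pos]
  have : vec .xp + vec .xm = 0 := by decide
  calc D' + (pos b.1 + vec .xp) + vec .xm = pos b.1 + D' + (vec .xp + vec .xm) := by abel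
    _ = _ := by rw [this, add_zero]

theorem pos_Rw1 (b : Blk) (r : List Dir) : pos (Rw1 b r) = pos b.2 + (pos b.1 + pos r) := by
  unfold Rw1
  simp only [pos_append, pos]
  have : vec .xp + vec .xm = 0 := by decide
  calc pos b.2 + (pos r + (pos b.1 + vec .xp) + vec .xm) =
      pos b.2 + (pos b.1 + pos r) + (vec .xp + vec .xm) := by abel
    _ = _ := by rw [this, add_zero]

theorem Pc.ne {D D' : Z3} {b : Blk} (h : Pc D D' b) : D ≠ 0 ∧ D' ≠ 0 := by
  have h1 := h.nd
  unfold pv at h1
  rw [List.nodup_append'] at h1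
  constructor
  · intro h0
    have a1 : D ∈ sh (pos b.1 + D') (path b.2) := by
      rw [mem_sh, ← h.rel]
      simpa using pos_mem_path b.2
    have a2 : D ∈ path b.1 := by rw [h0]; exact zero_mem_path _
    exact h1.2.2 a1 a2
  · intro h0
    have a1 : pos b.1 + D' ∈ sh (pos b.1 + D') (path b.2) := by
      rw [mem_sh]
      simpa using zero_mem_path b.2
    have a2 : pos b.1 + D' ∈ path b.1 := by rw [h0, add_zero]; exact pos_mem_path _
    exact h1.2.2 a1 a2

theorem Pc.pos1 {D D' : Z3} {b : Blk} (h : Pc D D' b) : 0 ≤ (pos b.1).1 :=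
  (h.rg _ (List.mem_append_right _ (pos_mem_path _))).1

theorem Pc.ra {D D' : Z3} {b : Blk} {r : List Dir} (h : Pc D D' b) (hr : RA D' r) :
    RA D (Rw1 b r) := by
  have hj := h.pos1
  have h1 := h.nd
  unfold pv at h1
  rw [List.nodup_append'] at h1
  have key : ∀ p ∈ sh (pos b.1 + vec .xp) (path r), (pos b.1).1 + 1 ≤ p.1 := by
    intro p hp
    have := hr.ge _ (mem_sh.1 hp)
    simp only [Prod.fst_sub, Prod.fst_add, vec] at this
    omega
  refine ⟨?_, ?_, ?_, h.h1, h.ne.1⟩
  · rw [path_Rw1 hr.en, List.nodup_append', List.nodup_append']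
    refine ⟨h1.1, ⟨nodup_sh.2 hr.nd, h1.2.1, ?_⟩, ?_⟩
    · intro p hp hq
      have h2 := key p hp
      have h3 := (h.rg p (List.mem_append_right _ hq)).2
      omega
    · intro p hp hq
      rw [List.mem_append] at hq
      rcases hq with hq | hq
      · have h2 := key p hq
        have h3 := (h.rg p (List.mem_append_left _ hp)).2
        omega
      · exact h1.2.2 hp hq
  · intro p hp
    rw [path_Rw1 hr.en, List.mem_append, List.mem_append] at hp
    rcases hp with hp | hp | hp
    · exact (h.rg p (List.mem_append_left _ hp)).1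
    · have := key p hp
      omega
    · exact (h.rg p (List.mem_append_right _ hp)).1
  · rw [pos_Rw1, hr.en, h.rel]

theorem Pc.la {D D' : Z3} {b : Blk} {l : List Dir} (h : Pc D D' b) (hl : LA D l) :
    LA D' (ext l b) := by
  have hj := h.pos1
  have h1 := h.nd
  unfold pv at h1
  rw [List.nodup_append'] at h1
  have hx : vec .xp + vec .xm = 0 := by decide
  have e1 : pos (l ++ .xm :: b.2) + vec .xp = pos b.2 - D := by
    simp only [pos_append, pos, hl.en]
    calc -D + (pos b.2 + vec .xm) + vec .xp = pos b.2 - D + (vec .xp + vec .xm) := by abel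
      _ = _ := by rw [hx, add_zero]
  have hpath : path (ext l b) = sh (pos b.2 - D) (path b.1) ++
      (sh (pos b.2 + vec .xm) (path l) ++ path b.2) := by
    unfold ext
    rw [path_mid, path_mid, e1]
  have e2 : pos b.1 + D' = D - pos b.2 := by
    rw [← h.rel]; abel
  have hD := h.h1
  have hD' := h.h0
  have e3 : (pos b.2).1 = - (pos b.1).1 := by
    have := congrArg Prod.fst e2
    simp only [Prod.fst_add, Prod.fst_sub] at this
    omega
  have r1 : ∀ p ∈ path b.1, 0 ≤ p.1 ∧ p.1 ≤ (pos b.1).1 := fun p hp =>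
    h.rg p (List.mem_append_right _ hp)
  have r2 : ∀ p ∈ path b.2, p.1 ≤ 0 ∧ - (pos b.1).1 ≤ p.1 := by
    intro p hp
    have := h.rg (p + (pos b.1 + D')) (List.mem_append_left _ (mem_sh.2 (by simpa using hp)))
    simp only [Prod.fst_add] at this
    omega
  have r3 : ∀ p ∈ sh (pos b.2 + vec .xm) (path l), p.1 ≤ - (pos b.1).1 - 1 := by
    intro p hp
    have := hl.le _ (mem_sh.1 hp)
    simp only [Prod.fst_sub, Prod.fst_add, vec] at this
    omega
  have r4 : ∀ p ∈ sh (pos b.2 - D) (path b.1), p.1 ≤ 0 ∧ - (pos b.1).1 ≤ p.1 := by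
    intro p hp
    have := r1 _ (mem_sh.1 hp)
    simp only [Prod.fst_sub] at this
    omega
  refine ⟨?_, ?_, ?_, hD', h.ne.2⟩
  · rw [hpath, List.nodup_append', List.nodup_append']
    refine ⟨nodup_sh.2 h1.2.1, ⟨nodup_sh.2 hl.nd, nodup_sh.1 h1.1, ?_⟩, ?_⟩
    · intro p hp hq
      have h2 := r3 p hp
      have h3 := r2 p hq
      omega
    · intro p hp hq
      rw [List.mem_append] at hq
      rcases hq with hq | hq
      · have h2 := r3 p hq
        have h3 := r4 p hp
        omega
      · have a1 : p + (D - pos b.2) ∈ sh (pos b.1 + D') (path b.2) := by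
          rw [mem_sh, e2]; simpa using hq
        have a2 : p + (D - pos b.2) ∈ path b.1 := by
          have := mem_sh.1 hp
          rwa [sub_sub_eq_add_sub, add_sub_assoc] at this
        exact h1.2.2 a1 a2
  · intro p hp
    rw [hpath, List.mem_append, List.mem_append] at hp
    rcases hp with hp | hp | hp
    · exact (r4 p hp).1
    · have := r3 p hp
      omega
    · exact (r2 p hp).1
  · unfold ext
    simp only [pos_append, pos, hl.en]
    calc pos b.1 + (-D + (pos b.2 + vec .xm) + vec .xp) =
        (pos b.2 + (pos b.1 + D')) - D - D' + (vec .xp + vec .xm) := by abel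
      _ = -D' := by rw [h.rel, hx]; abel

/-- the polygon of a left arc and a block followed by an arc, up to rotation -/
theorem poly_rot (l : List Dir) (b : Blk) (r : List Dir) :
    Poly (ext l b) r = (Poly l (Rw1 b r)).rotate
      ((Poly l (Rw1 b r)).length - (b.1.length + 1)) := by
  have h1 : Poly l (Rw1 b r) = (.xp :: (l ++ .xm :: (b.2 ++ .xm :: r))) ++ (.xp :: b.1) := by
    simp [Poly, Rw1]
  rw [h1]
  have h2 : ((.xp :: (l ++ .xm :: (b.2 ++ .xm :: r))) ++ (.xp :: b.1)).length -
      (b.1.length + 1) = (Dir.xp :: (l ++ .xm :: (b.2 ++ .xm :: r))).length := by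
    simp only [List.length_append, List.length_cons]
    omega
  rw [h2, List.rotate_append_length_eq]
  simp [Poly, ext]

end KN.ST
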