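import Mathlib

/-!
# Sums over lists with values in `[0, ∞]`
-/

set_option autoImplicit false

namespace KN.ST

open Finset
open scoped Classical ENNReal

noncomputable section

variable {α : Type}

theorem tsum_ite_fin (Q : ℕ → Prop) [DecidablePred Q] (n : ℕ) (h : ∀ i, Q i → i < n) (f : ℕ → ℝ≥0∞) :
    ∑' i, (if Q i then f i else 0) = ∑ i ∈ range n, if Q i then f i else 0 := by
  refine tsum_eq_sum ?_
  intro i hi
  rw [mem_range] at hi
  rw [if_neg]
  intro hq
  exact hi (h i hq)

/-- cutting a list at a position -/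
def eCut : {x : List α × ℕ // x.2 ≤ x.1.length} ≃ List α × List α where
  toFun x := (x.1.1.take x.1.2, x.1.1.drop x.1.2)
  invFun p := ⟨(p.1 ++ p.2, p.1.length), by simp⟩
  left_inv := by
    rintro ⟨⟨l, i⟩, h⟩
    simp only at h
    apply Subtype.ext
    simp [h]
  right_inv := by
    rintro ⟨p, q⟩
    simp

theorem tsum_cut (g : List α → List α → ℝ≥0∞) :
    ∑' p : List α × List α, g p.1 p.2 =
      ∑' l : List α, ∑ i ∈ range (l.length + 1), g (l.take i) (l.drop i) := by
  rw [← eCut.tsum_eq (fun p : List α × List α => g p.1 p.2)]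
  have h1 : ∑' x : {x : List α × ℕ // x.2 ≤ x.1.length}, g (eCut x).1 (eCut x).2 =
      ∑' x : List α × ℕ, (if x.2 ≤ x.1.length then g (x.1.take x.2) (x.1.drop x.2) else 0) := by
    have := tsum_subtype {x : List α × ℕ | x.2 ≤ x.1.length}
      (fun x => g (x.1.take x.2) (x.1.drop x.2))
    simp only [Set.indicator, Set.mem_ofPred_eq] at this
    exact this
  rw [h1, ENNReal.tsum_prod']
  refine tsum_congr fun l => ?_
  refine (tsum_ite_fin (fun i => i ≤ l.length) (l.length + 1) (fun i h => by omega)
    (fun i => g (l.take i) (l.drop i))).trans ?_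
  refine sum_congr rfl fun i hi => ?_
  rw [mem_range] at hi
  rw [if_pos (by omega)]

theorem tsum_append (f : List α → ℝ≥0∞) :
    ∑' p : List α × List α, f (p.1 ++ p.2) = ∑' l : List α, ((l.length + 1 : ℕ) : ℝ≥0∞) * f l := by
  rw [tsum_cut (fun p q => f (p ++ q))]
  refine tsum_congr fun l => ?_
  simp

/-- choosing an entry of a list -/
def eMid [Inhabited α] : {x : List α × ℕ // x.2 < x.1.length} ≃ List α × α × List α where
  toFun x := (x.1.1.take x.1.2, x.1.1.getD x.1.2 default, x.1.1.drop (x.1.2 + 1))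
  invFun p := ⟨(p.1 ++ p.2.1 :: p.2.2, p.1.length), by simp⟩
  left_inv := by
    rintro ⟨⟨l, i⟩, h⟩
    simp only at h
    apply Subtype.ext
    simp only [List.length_take, Prod.mk.injEq]
    refine ⟨?_, by omega⟩
    rw [List.getD_eq_getElem _ _ h, ← List.drop_eq_getElem_cons h, List.take_append_drop]
  right_inv := by
    rintro ⟨p, a, q⟩
    simp only [Prod.mk.injEq]
    refine ⟨by simp, by simp, ?_⟩
    rw [← List.drop_drop]
    simp

theorem tsum_mid [Inhabited α] (g : List α → α → List α → ℝ≥0∞) :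
    ∑' p : List α × α × List α, g p.1 p.2.1 p.2.2 =
      ∑' l : List α, ∑ i ∈ range l.length, g (l.take i) (l.getD i default) (l.drop (i + 1)) := by
  rw [← eMid.tsum_eq (fun p : List α × α × List α => g p.1 p.2.1 p.2.2)]
  have h1 : ∑' x : {x : List α × ℕ // x.2 < x.1.length},
      g (eMid x).1 (eMid x).2.1 (eMid x).2.2 =
      ∑' x : List α × ℕ, (if x.2 < x.1.length then
        g (x.1.take x.2) (x.1.getD x.2 default) (x.1.drop (x.2 + 1)) else 0) := by
    have := tsum_subtype {x : List α × ℕ | x.2 < x.1.length}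
      (fun x => g (x.1.take x.2) (x.1.getD x.2 default) (x.1.drop (x.2 + 1)))
    simp only [Set.indicator, Set.mem_ofPred_eq] at this
    exact this
  rw [h1, ENNReal.tsum_prod']
  refine tsum_congr fun l => ?_
  refine (tsum_ite_fin (fun i => i < l.length) l.length (fun i h => h)
    (fun i => g (l.take i) (l.getD i default) (l.drop (i + 1)))).trans ?_
  refine sum_congr rfl fun i hi => ?_
  rw [mem_range] at hi
  rw [if_pos hi]

theorem mid_eq [Inhabited α] {l : List α} {i : ℕ} (h : i < l.length) :
    l.take i ++ l.getD i default :: l.drop (i + 1) = l := by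
  rw [List.getD_eq_getElem _ _ h, ← List.drop_eq_getElem_cons h, List.take_append_drop]

/-- the number of entries `s` -/
def cnt (s : α) (l : List α) : ℕ := ((range l.length).filter (fun i => l[i]? = some s)).card

theorem tsum_cnt (s : α) (f : List α → ℝ≥0∞) :
    ∑' p : List α × List α, f (p.1 ++ s :: p.2) = ∑' l : List α, (cnt s l : ℝ≥0∞) * f l := by
  have : Inhabited α := ⟨s⟩
  have h1 := tsum_mid (α := α) (fun p a q => if a = s then f (p ++ a :: q) else 0)
  have h2 : ∑' p : List α × α × List α, (if p.2.1 = s then f (p.1 ++ p.2.1 :: p.2.2) else 0) =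
      ∑' p : List α × List α, f (p.1 ++ s :: p.2) := by
    rw [ENNReal.tsum_prod', ENNReal.tsum_prod']
    refine tsum_congr fun p => ?_
    rw [ENNReal.tsum_prod']
    rw [tsum_eq_single s]
    · simp
    · intro a ha
      simp [ha]
  rw [← h2, h1]
  refine tsum_congr fun l => ?_
  unfold cnt
  rw [card_filter, Nat.cast_sum, sum_mul]
  refine sum_congr rfl fun i hi => ?_
  rw [mem_range] at hi
  rw [mid_eq hi, List.getD_eq_getElem _ _ hi]
  have : (l[i]? = some s) ↔ l[i] = s := by
    rw [List.getElem?_eq_getElem hi, Option.some.injEq]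
  by_cases hs : l[i] = s
  · rw [if_pos hs, if_pos (this.2 hs)]; simp
  · rw [if_neg hs, if_neg (fun h => hs (this.1 h))]; simp

/-- comparison of sums by a map that is injective where the first function is not zero -/
theorem tsum_le_of_inj {β γ : Type} (f : β → ℝ≥0∞) (g : γ → ℝ≥0∞) (φ : β → γ)
    (hφ : ∀ x y, f x ≠ 0 → f y ≠ 0 → φ x = φ y → x = y) (h : ∀ x, f x ≠ 0 → f x ≤ g (φ x)) :
    ∑' x, f x ≤ ∑' y, g y := by
  have h1 : ∑' x, f x = ∑' x : {x // f x ≠ 0}, f x := by
    have := tsum_subtype {x | f x ≠ 0} f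
    have h2 : Set.indicator {x | f x ≠ 0} f = f := by
      funext x
      simp only [Set.indicator, Set.mem_ofPred_eq]
      by_cases hx : f x = 0
      · simp [hx]
      · rw [if_pos hx]
    rw [h2] at this
    exact this.symm
  rw [h1]
  have h2 : Function.Injective (fun x : {x // f x ≠ 0} => φ x.1) := by
    intro x y hxy
    exact Subtype.ext (hφ _ _ x.2 y.2 hxy)
  refine (ENNReal.tsum_le_tsum (fun x : {x // f x ≠ 0} => h x.1 x.2)).trans ?_
  exact ENNReal.tsum_comp_le_tsum_of_injective h2 g

end

end KN.ST
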