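import Pool.Agent.H132.ST.Fact
import Pool.Agent.H132.ST.Tsum

/-!
# Stretched polygons: weighted sums over chains, the two ratio inequalities
-/

set_option autoImplicit false

namespace KN.ST

open KN Finset
open scoped Classical ENNReal

noncomputable section

/-- a chain: the two caps and the blocks -/
abbrev Ch := (Dir × Dir) × List Blk

/-- the straight block -/
def S0 : Blk := ([], [])

structure Good (c : Ch) : Prop where
  l0 : Lat c.1.1
  l1 : Lat c.1.2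
  vc : VC (vec c.1.1) c.2 (vec c.1.2)
  ir : ∀ b ∈ c.2, Irr b

/-- the word of a chain -/
def wrd (c : Ch) : List Dir := word c.1.1 c.2 c.1.2

/-- the weighted sum over the chains of length `n` in the class `P` -/
def Zc (t : ℝ≥0∞) (P : Ch → Prop) (n : ℕ) : ℝ≥0∞ :=
  ∑' c : Ch, if Good c ∧ ln c.2 = n ∧ P c then t ^ (6 * sp c.2) else 0

/-- classes that do not change when straight blocks are inserted -/
structure Cls (P : Ch → Prop) : Prop where
  inv : ∀ e bs cs, Good (e, bs ++ cs) → (P (e, bs ++ S0 :: cs) ↔ P (e, bs ++ cs))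
  st : ∀ m : ℕ, P ((.yp, .yp), List.replicate m S0)

theorem nxt_S0 (D : Z3) : nxt D S0 = D := by simp [nxt, S0, pos]

theorem irr_S0 : Irr S0 := by
  intro c h0 h1
  simp [S0, pos] at h1
  omega

theorem vc_ne {bs : List Blk} {D E : Z3} (h : VC D bs E) (h0 : D.1 = 0) (hD : D ≠ 0) :
    E.1 = 0 ∧ E ≠ 0 := by
  induction bs generalizing D with
  | nil => simp only [VC] at h; subst h; exact ⟨h0, hD⟩
  | cons b bs ih => exact ih h.2 h.1.h0 h.1.ne.2

theorem vec_ne (a : Dir) : vec a ≠ 0 := by cases a <;> decide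

theorem ln_even_vc {c : Ch} (h : Good c) : Even (ln c.2) := by
  have h1 := even_of_closed (word_same h.l0 h.l1 h.vc).1.2.1
  have h2 : (word c.1.1 c.2 c.1.2).length = ln c.2 + 4 := by
    have : ∀ (bs : List Blk) (e : List Dir), (Rw bs e).length = ln bs + e.length := by
      intro bs e
      induction bs with
      | nil => simp [Rw, ln]
      | cons b bs ih =>
        simp only [Rw, Rw1, List.length_append, List.length_cons, ih, ln_cons, bl]
        omega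
    simp only [word, Poly, List.length_append, List.length_cons, List.length_nil, this]
    omega
  rw [h2] at h1
  rw [Nat.even_iff]
  omega

theorem length_Rw (bs : List Blk) (e : List Dir) : (Rw bs e).length = ln bs + e.length := by
  induction bs with
  | nil => simp [Rw, ln]
  | cons b bs ih =>
    simp only [Rw, Rw1, List.length_append, List.length_cons, ih, ln_cons, bl]
    omega

theorem length_wrd (c : Ch) : (wrd c).length = ln c.2 + 4 := by
  simp only [wrd, word, Poly, List.length_append, List.length_cons, List.length_nil, length_Rw]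
  omega

theorem wrd_inj {c c' : Ch} (h : Good c) (h' : Good c') (he : wrd c = wrd c') : c = c' := by
  obtain ⟨⟨a, b⟩, bs⟩ := c
  obtain ⟨⟨a', b'⟩, bs'⟩ := c'
  simp only [wrd, word, Poly, List.cons_append, List.nil_append, List.cons.injEq, true_and] at he
  have h1 := uniq he.2 h.ir h'.ir h.vc h'.vc (pa_one h.l1).ra (pa_one h'.l1).ra
  have h2 : a = a' := by
    have := congrArg neg he.1
    simpa using this
  rw [h2, h1.1, h1.2]

theorem good_S {e : Dir × Dir} {bs cs : List Blk} :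
    Good (e, bs ++ S0 :: cs) ↔ Good (e, bs ++ cs) := by
  constructor
  · intro h
    refine ⟨h.l0, h.l1, ?_, fun b hb => h.ir b ?_⟩
    · obtain ⟨E, h1, h2⟩ := vc_append.1 h.vc
      simp only [VC, nxt_S0] at h2
      exact vc_append.2 ⟨E, h1, h2.2⟩
    · simp only [List.mem_append, List.mem_cons] at hb ⊢
      tauto
  · intro h
    refine ⟨h.l0, h.l1, ?_, fun b hb => ?_⟩
    · obtain ⟨E, h1, h2⟩ := vc_append.1 h.vc
      obtain ⟨h3, h4⟩ := vc_ne h1 h.l0.x (vec_ne _)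
      refine vc_append.2 ⟨E, h1, ?_⟩
      simp only [VC, nxt_S0]
      exact ⟨pc_S h3 h4, h2⟩
    · simp only [List.mem_append, List.mem_cons] at hb
      rcases hb with hb | rfl | hb
      · exact h.ir b (by simp [hb])
      · exact irr_S0
      · exact h.ir b (by simp [hb])

theorem ln_S (bs cs : List Blk) : ln (bs ++ S0 :: cs) = ln (bs ++ cs) + 2 := by
  simp only [ln_append, ln_cons, S0, bl, List.length_nil]
  omega

theorem sp_S (bs cs : List Blk) : sp (bs ++ S0 :: cs) = sp (bs ++ cs) + 1 := by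
  simp only [sp_append, sp_cons, S0, wd, pos, Prod.fst_zero, Int.toNat_zero]
  omega

/-- the first ratio inequality -/
theorem ratio1 (t : ℝ≥0∞) {P : Ch → Prop} (hP : Cls P) (n : ℕ) :
    Zc t P n * t ^ 6 ≤ Zc t P (n + 2) := by
  unfold Zc
  rw [← ENNReal.tsum_mul_right]
  refine tsum_le_of_inj _ _ (fun c => (c.1, S0 :: c.2)) ?_ ?_
  · rintro ⟨e, bs⟩ ⟨e', bs'⟩ _ _ h
    simp only [Prod.mk.injEq, List.cons.injEq, true_and] at h
    rw [h.1, h.2]
  · rintro ⟨e, bs⟩ h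
    by_cases hc : Good (e, bs) ∧ ln bs = n ∧ P (e, bs)
    · have g1 : Good (e, S0 :: bs) := (good_S (bs := [])).2 hc.1
      have g2 : P (e, S0 :: bs) := (hP.inv e [] bs hc.1).2 hc.2.2
      have g3 := ln_S [] bs
      have g4 := sp_S [] bs
      simp only [List.nil_append] at g3 g4
      rw [if_pos hc, if_pos ⟨g1, by simp only; omega, g2⟩]
      simp only [g4]
      rw [← pow_add]
      exact le_of_eq (by congr 1)
    · exact absurd (by rw [if_neg hc, zero_mul]) h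

theorem card_W_le (n : ℕ) : (W n).card ≤ 6 ^ n := by
  unfold W
  refine card_image_le.trans ?_
  rw [card_univ, Fintype.card_fun, Fintype.card_fin]
  exact le_of_eq (by congr 1)

/-- the number of chains -/
theorem count_le (n : ℕ) : ∑' c : Ch, (if Good c ∧ ln c.2 = n then (1 : ℝ≥0∞) else 0) ≤
    6 ^ (n + 4) := by
  have h1 : ∑' c : Ch, (if Good c ∧ ln c.2 = n then (1 : ℝ≥0∞) else 0) ≤
      ∑' w : List Dir, (if w ∈ W (n + 4) then 1 else 0) := by
    refine tsum_le_of_inj _ _ wrd ?_ ?_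
    · intro c c' h h' he
      have g : Good c := by by_contra hn; exact h (if_neg (fun hh => hn hh.1))
      have g' : Good c' := by by_contra hn; exact h' (if_neg (fun hh => hn hh.1))
      exact wrd_inj g g' he
    · intro c h
      have g : Good c ∧ ln c.2 = n := by by_contra hn; exact h (if_neg hn)
      rw [if_pos g, if_pos (mem_W.2 (by rw [length_wrd, g.2]))]
  refine h1.trans ?_
  rw [tsum_eq_sum (s := W (n + 4)) (fun w hw => if_neg hw)]
  rw [sum_congr rfl (fun w hw => if_pos hw)]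
  simp only [sum_const, nsmul_eq_mul, mul_one]
  calc ((W (n + 4)).card : ℝ≥0∞) ≤ ((6 ^ (n + 4) : ℕ) : ℝ≥0∞) := by exact_mod_cast card_W_le _
    _ = _ := by push_cast; rfl

/-- total length of the arcs -/
def bsm (bs : List Blk) : ℕ := (bs.map bl).sum

theorem ln_eq (bs : List Blk) : ln bs = bsm bs + 2 * bs.length := by
  induction bs with
  | nil => rfl
  | cons b bs ih =>
    rw [ln_cons, ih]
    simp only [bsm, List.map_cons, List.sum_cons, List.length_cons]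
    omega

theorem sp_le {bs : List Blk} {D E : Z3} (h : VC D bs E) (hI : ∀ b ∈ bs, Irr b) :
    6 * sp bs + bsm bs ≤ 3 * ln bs := by
  induction bs generalizing D with
  | nil => simp [sp, bsm, ln]
  | cons b bs ih =>
    have h1 := ih h.2 (fun c hc => hI c (List.mem_cons_of_mem _ hc))
    have h2 := irr_len h.1 (hI b List.mem_cons_self)
    rw [sp_cons, ln_cons]
    simp only [bsm, List.map_cons, List.sum_cons] at h1 ⊢
    omega

theorem cnt_cons {α : Type} (s a : α) (l : List α) :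
    cnt s (a :: l) = cnt s l + (if a = s then 1 else 0) := by
  unfold cnt
  rw [card_filter, card_filter, List.length_cons, sum_range_succ']
  simp

theorem cnt_S0 (bs : List Blk) : bs.length ≤ cnt S0 bs + bsm bs := by
  induction bs with
  | nil => simp
  | cons b bs ih =>
    rw [cnt_cons]
    simp only [bsm, List.map_cons, List.sum_cons, List.length_cons] at ih ⊢
    by_cases hb : b = S0
    · rw [if_pos hb]; omega
    · have : 1 ≤ bl b := by
        by_contra hn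
        apply hb
        unfold bl at hn
        have h1 : b.1 = [] := List.length_eq_zero_iff.1 (by omega)
        have h2 : b.2 = [] := List.length_eq_zero_iff.1 (by omega)
        exact Prod.ext h1 h2
      omega

/-- chains with few straight blocks -/
def Bad (N : ℕ) (bs : List Blk) : Prop := (N + 1) * cnt S0 bs < N * bs.length

theorem bad_bsm {N : ℕ} {bs : List Blk} (h : Bad N bs) : ln bs ≤ (2 * N + 3) * bsm bs := by
  unfold Bad at h
  have h1 := cnt_S0 bs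
  have h2 := ln_eq bs
  nlinarith

theorem bad_sum {N : ℕ} {t : ℝ≥0∞} (ht : 12 ^ (2 * N + 3) ≤ t) (P : Ch → Prop)
    (n : ℕ) : 2 ^ n * ∑' c : Ch, (if (Good c ∧ ln c.2 = n ∧ P c) ∧ Bad N c.2 then
      t ^ (6 * sp c.2) else 0) ≤ 6 ^ 4 * t ^ (3 * n) := by
  have ht1 : 1 ≤ t := le_trans (by exact one_le_pow₀ (by norm_num)) ht
  have key : ∀ c : Ch, (12 : ℝ≥0∞) ^ n * (if (Good c ∧ ln c.2 = n ∧ P c) ∧ Bad N c.2 then
      t ^ (6 * sp c.2) else 0) ≤ t ^ (3 * n) * (if Good c ∧ ln c.2 = n then 1 else 0) := by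
    intro c
    by_cases hc : (Good c ∧ ln c.2 = n ∧ P c) ∧ Bad N c.2
    · rw [if_pos hc, if_pos ⟨hc.1.1, hc.1.2.1⟩, mul_one]
      have h1 := bad_bsm hc.2
      have h2 := sp_le hc.1.1.vc hc.1.1.ir
      rw [hc.1.2.1] at h1 h2
      have h3 : (12 : ℝ≥0∞) ^ n ≤ t ^ bsm c.2 := by
        calc (12 : ℝ≥0∞) ^ n ≤ 12 ^ ((2 * N + 3) * bsm c.2) :=
              pow_le_pow_right₀ (by norm_num) h1
          _ = (12 ^ (2 * N + 3)) ^ bsm c.2 := by rw [pow_mul]
          _ ≤ t ^ bsm c.2 := pow_le_pow_left' ht _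
      calc (12 : ℝ≥0∞) ^ n * t ^ (6 * sp c.2) ≤ t ^ bsm c.2 * t ^ (6 * sp c.2) :=
            mul_le_mul_left h3 _
        _ = t ^ (bsm c.2 + 6 * sp c.2) := (pow_add _ _ _).symm
        _ ≤ t ^ (3 * n) := pow_le_pow_right₀ ht1 (by omega)
    · rw [if_neg hc, mul_zero]
      exact zero_le
  have h1 : (12 : ℝ≥0∞) ^ n * ∑' c : Ch, (if (Good c ∧ ln c.2 = n ∧ P c) ∧ Bad N c.2 then
      t ^ (6 * sp c.2) else 0) ≤ t ^ (3 * n) * 6 ^ (n + 4) := by
    rw [← ENNReal.tsum_mul_left]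
    refine (ENNReal.tsum_le_tsum key).trans ?_
    rw [ENNReal.tsum_mul_left]
    exact mul_le_mul_right (count_le n) _
  have h2 : (12 : ℝ≥0∞) ^ n = 6 ^ n * 2 ^ n := by
    rw [← mul_pow]; norm_num
  have h3 : (6 : ℝ≥0∞) ^ n * (2 ^ n * ∑' c : Ch, (if (Good c ∧ ln c.2 = n ∧ P c) ∧ Bad N c.2 then
      t ^ (6 * sp c.2) else 0)) ≤ 6 ^ n * (6 ^ 4 * t ^ (3 * n)) := by
    rw [← mul_assoc, ← h2]
    refine h1.trans (le_of_eq ?_)
    rw [pow_add]
    ring
  exact (ENNReal.mul_le_mul_iff_right (by positivity) (ENNReal.pow_ne_top (by norm_num))).1 h3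

theorem good_sum (N : ℕ) (t : ℝ≥0∞) {P : Ch → Prop} (hP : Cls P) (n : ℕ) :
    (N : ℝ≥0∞) * ∑' c : Ch, (if (Good c ∧ ln c.2 = n + 2 ∧ P c) ∧ ¬ Bad N c.2 then
      t ^ (6 * sp c.2) else 0) ≤ ((N + 1 : ℕ) : ℝ≥0∞) * (t ^ 6 * Zc t P n) := by
  have key : ∀ c : Ch, (N : ℝ≥0∞) * (if (Good c ∧ ln c.2 = n + 2 ∧ P c) ∧ ¬ Bad N c.2 then
      t ^ (6 * sp c.2) else 0) ≤ ((N + 1 : ℕ) : ℝ≥0∞) * ((cnt S0 c.2 : ℝ≥0∞) *
        ((c.2.length : ℝ≥0∞)⁻¹ * (if Good c ∧ ln c.2 = n + 2 ∧ P c then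
          t ^ (6 * sp c.2) else 0))) := by
    intro c
    by_cases hc : (Good c ∧ ln c.2 = n + 2 ∧ P c) ∧ ¬ Bad N c.2
    · rw [if_pos hc, if_pos hc.1]
      have h0 : c.2.length ≠ 0 := by
        intro h
        have := List.length_eq_zero_iff.1 h
        have h2 := hc.1.2.1
        rw [this] at h2
        simp [ln] at h2
      have h1 := hc.2
      unfold Bad at h1
      push Not at h1
      have h2 : ((N * c.2.length : ℕ) : ℝ≥0∞) ≤ (((N + 1) * cnt S0 c.2 : ℕ) : ℝ≥0∞) := by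
        exact_mod_cast h1
      have h3 : (N : ℝ≥0∞) ≤ ((N + 1 : ℕ) : ℝ≥0∞) * (cnt S0 c.2 : ℝ≥0∞) *
          (c.2.length : ℝ≥0∞)⁻¹ := by
        rw [← div_eq_mul_inv, ENNReal.le_div_iff_mul_le (Or.inl (by exact_mod_cast h0))
          (Or.inl (ENNReal.natCast_ne_top _))]
        push_cast at h2 ⊢
        exact h2
      calc (N : ℝ≥0∞) * t ^ (6 * sp c.2) ≤ (((N + 1 : ℕ) : ℝ≥0∞) * (cnt S0 c.2 : ℝ≥0∞) *
          (c.2.length : ℝ≥0∞)⁻¹) * t ^ (6 * sp c.2) := mul_le_mul_left h3 _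
        _ = _ := by ring
    · rw [if_neg hc, mul_zero]
      exact zero_le
  rw [← ENNReal.tsum_mul_left]
  refine (ENNReal.tsum_le_tsum key).trans ?_
  rw [ENNReal.tsum_mul_left]
  refine mul_le_mul_right ?_ _
  refine (le_of_eq ENNReal.tsum_prod').trans ?_
  unfold Zc
  rw [← ENNReal.tsum_mul_left]
  refine le_trans ?_ (le_of_eq ENNReal.tsum_prod'.symm)
  refine ENNReal.tsum_le_tsum fun e => ?_
  rw [ENNReal.tsum_mul_left]
  simp only
  rw [← tsum_cnt S0 (fun l : List Blk => ((l.length : ℝ≥0∞)⁻¹ *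
    (if Good (e, l) ∧ ln l = n + 2 ∧ P (e, l) then t ^ (6 * sp l) else 0)))]
  have h1 : ∀ p : List Blk × List Blk, (((p.1 ++ S0 :: p.2).length : ℝ≥0∞)⁻¹ *
      (if Good (e, p.1 ++ S0 :: p.2) ∧ ln (p.1 ++ S0 :: p.2) = n + 2 ∧ P (e, p.1 ++ S0 :: p.2) then
        t ^ (6 * sp (p.1 ++ S0 :: p.2)) else 0)) =
      t ^ 6 * ((((p.1 ++ p.2).length + 1 : ℕ) : ℝ≥0∞)⁻¹ *
      (if Good (e, p.1 ++ p.2) ∧ ln (p.1 ++ p.2) = n ∧ P (e, p.1 ++ p.2) then
        t ^ (6 * sp (p.1 ++ p.2)) else 0)) := by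
    rintro ⟨p, q⟩
    simp only
    have e1 : (p ++ S0 :: q).length = (p ++ q).length + 1 := by
      simp only [List.length_append, List.length_cons]; omega
    rw [e1, ln_S, sp_S]
    by_cases hg : Good (e, p ++ q)
    · have hi := hP.inv e p q hg
      by_cases hc : ln (p ++ q) = n ∧ P (e, p ++ q)
      · rw [if_pos ⟨good_S.2 hg, by omega, hi.2 hc.2⟩, if_pos ⟨hg, hc⟩, mul_add, pow_add]
        ring
      · rw [if_neg, if_neg]
        · simp
        · rintro ⟨-, h⟩; exact hc h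
        · rintro ⟨-, h, h'⟩; exact hc ⟨by omega, hi.1 h'⟩
    · rw [if_neg, if_neg]
      · simp
      · rintro ⟨h, -⟩; exact hg h
      · rintro ⟨h, -⟩; exact hg (good_S.1 h)
  rw [tsum_congr h1, ENNReal.tsum_mul_left]
  refine mul_le_mul_right ?_ _
  rw [tsum_append (fun l : List Blk => (((l.length + 1 : ℕ) : ℝ≥0∞)⁻¹ *
    (if Good (e, l) ∧ ln l = n ∧ P (e, l) then t ^ (6 * sp l) else 0)))]
  refine ENNReal.tsum_le_tsum fun l => ?_
  have h0 : ((l.length + 1 : ℕ) : ℝ≥0∞) ≠ 0 := by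
    rw [Nat.cast_ne_zero]
    exact Nat.succ_ne_zero _
  rw [← mul_assoc, ENNReal.mul_inv_cancel h0 (ENNReal.natCast_ne_top _), one_mul]

theorem Zc_le {t : ℝ≥0∞} (ht : 1 ≤ t) (P : Ch → Prop) (n : ℕ) :
    Zc t P n ≤ 6 ^ (n + 4) * t ^ (3 * n) := by
  have key : ∀ c : Ch, (if Good c ∧ ln c.2 = n ∧ P c then t ^ (6 * sp c.2) else 0) ≤
      t ^ (3 * n) * (if Good c ∧ ln c.2 = n then 1 else 0) := by
    intro c
    by_cases hc : Good c ∧ ln c.2 = n ∧ P c
    · rw [if_pos hc, if_pos ⟨hc.1, hc.2.1⟩, mul_one]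
      have h2 := sp_le hc.1.vc hc.1.ir
      rw [hc.2.1] at h2
      exact pow_le_pow_right₀ ht (by omega)
    · rw [if_neg hc]
      exact zero_le
  unfold Zc
  refine (ENNReal.tsum_le_tsum key).trans ?_
  rw [ENNReal.tsum_mul_left, mul_comm]
  exact mul_le_mul_left (count_le n) _

theorem Zc_ne_top {t : ℝ≥0∞} (ht : 1 ≤ t) (htt : t ≠ ⊤) (P : Ch → Prop) (n : ℕ) :
    Zc t P n ≠ ⊤ :=
  ne_top_of_le_ne_top (ENNReal.mul_ne_top (ENNReal.pow_ne_top (by norm_num))
    (ENNReal.pow_ne_top htt)) (Zc_le ht P n)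

theorem good_straight (m : ℕ) : Good ((.yp, .yp), List.replicate m S0) := by
  induction m with
  | zero => exact ⟨by simp [Lat], by simp [Lat], rfl, fun b hb => by simp at hb⟩
  | succ m ih => exact (good_S (bs := [])).2 ih

theorem Zc_ge (t : ℝ≥0∞) {P : Ch → Prop} (hP : Cls P) (m : ℕ) :
    t ^ (3 * (2 * m)) ≤ Zc t P (2 * m) := by
  unfold Zc
  refine le_trans ?_ (ENNReal.le_tsum ((.yp, .yp), List.replicate m S0))
  have h1 : ln (List.replicate m S0) = 2 * m := by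
    simp [ln, S0, bl]
    ring
  have h2 : sp (List.replicate m S0) = m := by
    simp [sp, S0, wd, pos]
  rw [if_pos ⟨good_straight m, h1, hP.st m⟩, h2]
  exact le_of_eq (by congr 1; ring)

/-- the second ratio inequality -/
theorem ratio2 {N : ℕ} {t : ℝ≥0∞} (ht : 12 ^ (2 * N + 3) ≤ t) (htt : t ≠ ⊤) {P : Ch → Prop}
    (hP : Cls P) (n : ℕ) (hn : Even n) (hN : (N + 1) * 6 ^ 4 ≤ 2 ^ (n + 2)) :
    (N : ℝ≥0∞) ^ 2 * Zc t P (n + 2) ≤ ((N + 1 : ℕ) : ℝ≥0∞) ^ 2 * (t ^ 6 * Zc t P n) := by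
  have ht1 : 1 ≤ t := le_trans (by exact one_le_pow₀ (by norm_num)) ht
  set x := Zc t P (n + 2) with hx
  set g := ∑' c : Ch, (if (Good c ∧ ln c.2 = n + 2 ∧ P c) ∧ ¬ Bad N c.2 then
      t ^ (6 * sp c.2) else 0) with hg
  set b := ∑' c : Ch, (if (Good c ∧ ln c.2 = n + 2 ∧ P c) ∧ Bad N c.2 then
      t ^ (6 * sp c.2) else 0) with hb
  have hxx : x ≠ ⊤ := Zc_ne_top ht1 htt _ _
  have h1 : x ≤ g + b := by
    rw [hx, hg, hb, Zc, ← ENNReal.tsum_add]
    refine ENNReal.tsum_le_tsum fun c => ?_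
    by_cases hc : Good c ∧ ln c.2 = n + 2 ∧ P c
    · by_cases hB : Bad N c.2
      · rw [if_pos hc, if_neg (fun h => h.2 hB), if_pos ⟨hc, hB⟩, zero_add]
      · rw [if_pos hc, if_pos ⟨hc, hB⟩, if_neg (fun h => hB h.2), add_zero]
    · rw [if_neg hc]
      exact zero_le
  have h2 : (2 : ℝ≥0∞) ^ (n + 2) * b ≤ 6 ^ 4 * x := by
    refine (bad_sum ht P (n + 2)).trans (mul_le_mul_right ?_ _)
    obtain ⟨m, hm⟩ := hn
    have := Zc_ge t hP (m + 1)
    have e : 2 * (m + 1) = n + 2 := by omega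
    rw [e] at this
    exact this
  have h3 : ((N + 1 : ℕ) : ℝ≥0∞) * b ≤ x := by
    have h4 : (((N + 1) * 6 ^ 4 : ℕ) : ℝ≥0∞) ≤ ((2 ^ (n + 2) : ℕ) : ℝ≥0∞) := by
      exact_mod_cast hN
    have h5 : (6 : ℝ≥0∞) ^ 4 * (((N + 1 : ℕ) : ℝ≥0∞) * b) ≤ 6 ^ 4 * x := by
      calc (6 : ℝ≥0∞) ^ 4 * (((N + 1 : ℕ) : ℝ≥0∞) * b) = (((N + 1) * 6 ^ 4 : ℕ) : ℝ≥0∞) * b := by
            push_cast; ring
        _ ≤ ((2 ^ (n + 2) : ℕ) : ℝ≥0∞) * b := mul_le_mul_left h4 _
        _ = 2 ^ (n + 2) * b := by push_cast; rfl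
        _ ≤ _ := h2
    exact (ENNReal.mul_le_mul_iff_right (by norm_num) (by norm_num)).1 h5
  have h4 : (N : ℝ≥0∞) * x ≤ ((N + 1 : ℕ) : ℝ≥0∞) * g := by
    have h5 : (N : ℝ≥0∞) * x + x ≤ ((N + 1 : ℕ) : ℝ≥0∞) * g + x := by
      calc (N : ℝ≥0∞) * x + x = ((N + 1 : ℕ) : ℝ≥0∞) * x := by push_cast; ring
        _ ≤ ((N + 1 : ℕ) : ℝ≥0∞) * (g + b) := mul_le_mul_right h1 _
        _ = ((N + 1 : ℕ) : ℝ≥0∞) * g + ((N + 1 : ℕ) : ℝ≥0∞) * b := mul_add _ _ _
        _ ≤ _ := by gcongr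
    exact (ENNReal.add_le_add_iff_right hxx).1 h5
  have h5 := good_sum N t hP n
  rw [← hg] at h5
  calc (N : ℝ≥0∞) ^ 2 * x = N * (N * x) := by ring
    _ ≤ N * (((N + 1 : ℕ) : ℝ≥0∞) * g) := mul_le_mul_right h4 _
    _ = ((N + 1 : ℕ) : ℝ≥0∞) * (N * g) := by ring
    _ ≤ ((N + 1 : ℕ) : ℝ≥0∞) * (((N + 1 : ℕ) : ℝ≥0∞) * (t ^ 6 * Zc t P n)) :=
      mul_le_mul_right h5 _
    _ = _ := by ring

end

end KN.ST
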