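import Pool.Agent.H132.ST.Layer

/-!
# Stretched polygons: cutting a polygon along a plane which it crosses twice
-/

set_option autoImplicit false

namespace KN.ST

open KN KN.KQ

noncomputable section

/-- lateral letters -/
def Lat (a : Dir) : Prop := a ≠ .xp ∧ a ≠ .xm

theorem Lat.x {a : Dir} (h : Lat a) : (vec a).1 = 0 := by
  cases a <;> simp [Lat, vec] at h ⊢

theorem lat_of_x {a : Dir} (h : (vec a).1 = 0) : Lat a := by
  cases a <;> simp [Lat, vec] at h ⊢

theorem Lat.neg {a : Dir} (h : Lat a) : Lat (neg a) := by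
  cases a <;> simp [Lat, KN.neg] at h ⊢

theorem back_append (u v : List Dir) : back (u ++ v) = back v ++ back u := by
  simp [back]

theorem back_cons (a : Dir) (v : List Dir) : back (a :: v) = back v ++ [neg a] := by
  simp [back]

theorem back_snoc (v : List Dir) (a : Dir) : back (v ++ [a]) = neg a :: back v := by
  simp [back]

theorem back_back' (w : List Dir) : back (back w) = w := by
  unfold back
  rw [List.map_reverse, List.reverse_reverse, List.map_map]
  have : neg ∘ neg = id := by funext d; simp
  rw [this, List.map_id]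

/-- planar walks -/
def Pla (w : List Dir) : Prop := ∀ a ∈ w, Lat a

theorem Pla.back {w : List Dir} (h : Pla w) : Pla (back w) := by
  intro a ha
  unfold KN.back at ha
  rw [List.mem_reverse, List.mem_map] at ha
  obtain ⟨b, hb, rfl⟩ := ha
  exact (h b hb).neg

theorem Pla.path {w : List Dir} (h : Pla w) : ∀ p ∈ path w, p.1 = 0 := by
  induction w with
  | nil => intro p hp; simp [KN.path] at hp; subst hp; rfl
  | cons a w ih =>
    have h1 := ih (fun b hb => h b (List.mem_cons_of_mem _ hb))
    intro p hp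
    rcases List.mem_cons.1 hp with rfl | hp
    · have h2 := h1 _ (pos_mem_path w)
      have h3 := (h a List.mem_cons_self).x
      simp only [Prod.fst_add]
      omega
    · exact h1 p hp

theorem Pla.pos {w : List Dir} (h : Pla w) : (pos w).1 = 0 := h.path _ (pos_mem_path w)

theorem unbump (A B : List Dir) (x y : Dir) (hxy : perp x y) (h : SAP (A ++ x :: y :: neg x :: B))
    (h4 : 4 ≤ (A ++ y :: B).length) : SAP (A ++ y :: B) ∧
      Same (vl (A ++ x :: y :: neg x :: B)) (vl (A ++ y :: B)) := by
  set w := A ++ x :: y :: neg x :: B with hw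
  have hlen : w.length = (A ++ y :: B).length + 2 := by
    rw [hw]; simp only [List.length_append, List.length_cons]; omega
  have g0 : w.getD A.length .xp = x := by rw [hw]; simp
  have g1 : w.getD (A.length + 1) .xp = y := by
    have : w = (A ++ [x]) ++ y :: neg x :: B := by rw [hw]; simp
    rw [this]
    have h2 : A.length + 1 = (A ++ [x]).length := by simp
    rw [h2]; simp
  have g2 : w.getD (A.length + 2) .xp = neg x := by
    have : w = (A ++ [x, y]) ++ neg x :: B := by rw [hw]; simp
    rw [this]
    have h2 : A.length + 2 = (A ++ [x, y]).length := by simp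
    rw [h2]; simp
  have hb : bump w A.length := by
    refine ⟨?_, ?_, ?_⟩
    · rw [hlen]; simp only [List.length_append, List.length_cons]; omega
    · rw [g0, g2, neg_neg_dir]
    · rw [g0, g1]; exact hxy
  obtain ⟨h1, -, h3, h5⟩ := S_rem_proof w A.length h (by omega) hb
  have hrem : rem w A.length = A ++ y :: B := by
    unfold rem
    rw [g1]
    have e1 : w.take A.length = A := by rw [hw]; simp
    have e2 : w.drop (A.length + 3) = B := by
      have : w = (A ++ [x, y, neg x]) ++ B := by rw [hw]; simp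
      rw [this]
      have h2 : A.length + 3 = (A ++ [x, y, neg x]).length := by simp
      rw [h2]; simp
    rw [e1, e2]; simp
  rw [hrem] at h1 h3 h5
  refine ⟨h1, ?_⟩
  have := c_local _ _ _ h1 h3
  rw [h5] at this
  exact this.symm

/-- a thin ribbon is removed -/
theorem ribbon (U V q : List Dir) (hq : Pla q) (h : SAP (U ++ (q ++ .xm :: back q) ++ V))
    (h4 : 4 ≤ (U ++ .xm :: V).length) : SAP (U ++ .xm :: V) ∧
      Same (vl (U ++ (q ++ .xm :: back q) ++ V)) (vl (U ++ .xm :: V)) := by
  induction q using List.reverseRecOn with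
  | nil =>
    have e : U ++ ([] ++ .xm :: back []) ++ V = U ++ .xm :: V := by simp [back]
    rw [e] at h ⊢
    exact ⟨h, Same.refl _⟩
  | append_singleton q x ih =>
    have hx : Lat x := hq x (by simp)
    have e : U ++ ((q ++ [x]) ++ .xm :: back (q ++ [x])) ++ V =
        (U ++ q) ++ x :: .xm :: neg x :: (back q ++ V) := by
      rw [back_snoc]; simp
    have e2 : (U ++ q) ++ .xm :: (back q ++ V) = U ++ (q ++ .xm :: back q) ++ V := by simp
    rw [e] at h ⊢
    have hp : perp x .xm := by
      unfold Lat at hx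
      unfold perp
      cases x <;> simp_all [ax]
    obtain ⟨h1, h2⟩ := unbump (U ++ q) (back q ++ V) x .xm hp h (by
      simp only [List.length_append, List.length_cons] at h4 ⊢
      omega)
    rw [e2] at h1 h2
    obtain ⟨h3, h5⟩ := ih (fun a ha => hq a (by simp [ha])) h1
    exact ⟨h3, h2.trans h5⟩

theorem isSum_congr {k l s k' l' s' : List V} (h : IsSum k l s) (hk : Same k k') (hl : Same l l')
    (hs : Same s s') : IsSum k' l' s' := by
  obtain ⟨l1, v, l2, hF, h1, h2, h3⟩ := h
  exact ⟨l1, v, l2, hF, h1.trans hk, h2.trans hl, hs.symm.trans h3⟩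

theorem pc_S {D : Z3} (h0 : D.1 = 0) (hD : D ≠ 0) : Pc D D ([], []) := by
  refine ⟨?_, ?_, ?_, h0, h0⟩
  · simp [pv, sh, path, pos, hD]
  · intro p hp
    simp only [pv, sh, path, pos, List.map_cons, List.map_nil, List.cons_append, List.nil_append,
      List.mem_cons, List.not_mem_nil, or_false, zero_add] at hp
    rcases hp with rfl | rfl
    · simp [pos, h0]
    · simp [pos]
  · simp [pos]

/-- a planar arc from `0` to `D` -/
structure PA (D : Z3) (q : List Dir) : Prop where
  pla : Pla q
  nd : (path q).Nodup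
  en : pos q = D
  ne : D ≠ 0

theorem PA.h0 {D : Z3} {q : List Dir} (h : PA D q) : D.1 = 0 := by
  rw [← h.en]; exact h.pla.pos

theorem PA.ra {D : Z3} {q : List Dir} (h : PA D q) : RA D q :=
  ⟨h.nd, fun p hp => (h.pla.path p hp).ge, h.en, h.h0, h.ne⟩

theorem PA.la {D : Z3} {q : List Dir} (h : PA D q) : LA D (back q) := by
  refine ⟨?_, fun p hp => (h.pla.back.path p hp).le, ?_, h.h0, h.ne⟩
  · rw [LAYU.path_back]
    exact (List.nodup_reverse.2 h.nd).map (fun a b hab => by simpa using hab)
  · rw [LAYU.pos_back, h.en]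

/-- the first letter of the planar arc is `zp` -/
theorem cut_zp {D : Z3} {l r q : List Dir} (hl : LA D l) (hr : RA D r)
    (hq : PA D (q ++ [.zp])) :
    IsSum (vl (Poly l (q ++ [.zp]))) (vl (Poly (back (q ++ [.zp])) r)) (vl (Poly l r)) := by
  have hPl := sap_poly hl hq.ra
  have hPr := sap_poly hq.la hr
  have hS : RA D (Rw1 ([], []) r) := (pc_S hr.h0 hr.ne).ra hr
  have hSS := sap_poly hl ((pc_S hr.h0 hr.ne).ra hS)
  have qp : Pla q := fun a ha => hq.pla a (by simp [ha])
  set l1 : List Dir := .xp :: (l ++ .xm :: q) with hl1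
  set v : List Dir := back q ++ .xm :: (r ++ [.xp]) with hv
  have e1 : Poly l (q ++ [.zp]) = l1 ++ .zp :: [] := by simp [Poly, hl1]
  have e2 : (Poly (back (q ++ [.zp])) r).rotate 1 = .zm :: v := by
    simp [Poly, hv, back_snoc, neg]
  obtain ⟨hz, hzs⟩ := (c_words _ hPr).2.2 1
  rw [e2] at hz hzs
  have hF : Facing l1 v [] := by
    refine ⟨by rw [← e1]; exact hPl, ?_, hz, ?_⟩
    · rw [← e1]
      intro p hp
      have h2 : path (Poly l (q ++ [.zp])) = 0 :: (sh (D + vec .xm) (path l) ++
          path (q ++ [.zp])) := by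
        rw [← path_poly l hq.en]
        have := hPl.2.1
        unfold Poly at this ⊢
        rw [path]
        rw [pos] at this
        rw [this]
      rw [h2, List.mem_cons, List.mem_append] at hp
      rcases hp with rfl | hp | hp
      · simp [pos]
      · have h3 := hl.le _ (mem_sh.1 hp)
        have h4 := hr.h0
        simp only [Prod.fst_sub, Prod.fst_add, vec] at h3
        simp only [pos, Prod.fst_zero]
        omega
      · have := hq.pla.path p hp
        simp [pos, this]
    · intro p hp
      rw [hv, path_mid, List.mem_append] at hp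
      have h5 : path (r ++ [.xp]) = sh (vec .xp) (path r) ++ [0] := by
        rw [path_mid]; simp [pos, path]
      have h6 : pos (r ++ [.xp]) + vec .xm = D := by
        rw [pos_append, hr.en]
        simp only [pos]
        have : vec .xp + vec .xm = 0 := by decide
        rw [zero_add, add_assoc, this, add_zero]
      rw [h5, h6] at hp
      rcases hp with hp | hp
      · have h7 := qp.back.path _ (mem_sh.1 hp)
        have h4 := hr.h0
        simp only [Prod.fst_sub] at h7
        omega
      · rw [List.mem_append] at hp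
        rcases hp with hp | hp
        · have h7 := hr.ge _ (mem_sh.1 hp)
          simp only [Prod.fst_sub, vec] at h7
          omega
        · rw [List.mem_singleton.1 hp]; simp
  have hj : join l1 v [] = (.xp :: (l ++ [.xm])) ++ (q ++ .xm :: back q) ++
      (.xm :: (r ++ [.xp, .xp])) := by
    simp [join, hl1, hv]
  have hjs : SAP (join l1 v []) := S_glueSAP_proof _ _ _ hF
  rw [hj] at hjs
  have hlr := ribbon _ _ q qp hjs (by simp; omega)
  have e3 : (Dir.xp :: (l ++ [.xm])) ++ .xm :: (.xm :: (r ++ [.xp, .xp])) =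
      Poly l (Rw1 ([], []) (Rw1 ([], []) r)) := by
    simp [Poly, Rw1]
  rw [e3] at hlr
  refine ⟨l1, v, [], hF, ?_, hzs.symm, ?_⟩
  · rw [← e1]; exact Same.refl _
  · rw [hj]
    exact ((layer hl hr).trans (layer hl hS)).trans hlr.2.symm

/-! ### rotations around the first axis -/

theorem pos_rx (w : List Dir) : pos (w.map rx) = WRD.RX (pos w) :=
  (WRD.path_map rx WRD.RX WRD.vec_rx rfl WRD.RX_add w).1

theorem path_rx (w : List Dir) : path (w.map rx) = (path w).map WRD.RX :=
  (WRD.path_map rx WRD.RX WRD.vec_rx rfl WRD.RX_add w).2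

theorem RX_neg (p : Z3) : WRD.RX (-p) = - WRD.RX p := by
  simp [WRD.RX]

theorem RX_ne {p : Z3} (h : p ≠ 0) : WRD.RX p ≠ 0 := by
  intro h0
  exact h (WRD.RX_inj (h0.trans (by rfl)))

theorem rx_neg (a : Dir) : rx (neg a) = neg (rx a) := by cases a <;> rfl

theorem back_rx (w : List Dir) : back (w.map rx) = (back w).map rx := by
  unfold back
  rw [List.map_reverse, List.map_map, List.map_map]
  congr 2
  funext a
  exact (rx_neg a).symm

theorem Lat.rx {a : Dir} (h : Lat a) : Lat (rx a) := by
  cases a <;> simp [Lat, KN.rx] at h ⊢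

theorem LA.rx {D : Z3} {l : List Dir} (h : LA D l) : LA (WRD.RX D) (l.map rx) := by
  refine ⟨?_, ?_, ?_, ?_, RX_ne h.ne⟩
  · rw [path_rx]; exact h.nd.map WRD.RX_inj
  · intro p hp
    rw [path_rx, List.mem_map] at hp
    obtain ⟨q, hq, rfl⟩ := hp
    exact h.le q hq
  · rw [pos_rx, h.en, RX_neg]
  · exact h.h0

theorem RA.rx {D : Z3} {l : List Dir} (h : RA D l) : RA (WRD.RX D) (l.map rx) := by
  refine ⟨?_, ?_, ?_, ?_, RX_ne h.ne⟩
  · rw [path_rx]; exact h.nd.map WRD.RX_inj
  · intro p hp
    rw [path_rx, List.mem_map] at hp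
    obtain ⟨q, hq, rfl⟩ := hp
    exact h.ge q hq
  · rw [pos_rx, h.en]
  · exact h.h0

theorem PA.rx {D : Z3} {l : List Dir} (h : PA D l) : PA (WRD.RX D) (l.map rx) := by
  refine ⟨?_, ?_, ?_, RX_ne h.ne⟩
  · intro a ha
    rw [List.mem_map] at ha
    obtain ⟨b, hb, rfl⟩ := ha
    exact (h.pla b hb).rx
  · rw [path_rx]; exact h.nd.map WRD.RX_inj
  · rw [pos_rx, h.en]

theorem poly_rx (l r : List Dir) : Poly (l.map rx) (r.map rx) = (Poly l r).map rx := by
  simp [Poly, rx]

theorem cut_step {D : Z3} {l r q : List Dir} (hl : LA D l) (hr : RA D r) (hq : PA D q)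
    (h : IsSum (vl (Poly (l.map rx) (q.map rx))) (vl (Poly (back (q.map rx)) (r.map rx)))
      (vl (Poly (l.map rx) (r.map rx)))) :
    IsSum (vl (Poly l q)) (vl (Poly (back q) r)) (vl (Poly l r)) := by
  rw [back_rx, poly_rx, poly_rx, poly_rx] at h
  exact isSum_congr h (c_words _ (sap_poly hl hq.ra)).1.2.symm
    (c_words _ (sap_poly hq.la hr)).1.2.symm (c_words _ (sap_poly hl hr)).1.2.symm

/-- cutting a polygon along a plane that it crosses twice: the two parts are closed by a planar
arc -/
theorem cut {D : Z3} {l r q : List Dir} (hl : LA D l) (hr : RA D r) (hq : PA D q) :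
    IsSum (vl (Poly l q)) (vl (Poly (back q) r)) (vl (Poly l r)) := by
  have hne : q ≠ [] := zero_ne_nil (by rw [hq.en]; exact hq.ne)
  obtain ⟨q', x, rfl⟩ : ∃ q' x, q = q' ++ [x] := ⟨q.dropLast, q.getLast hne,
    (List.dropLast_append_getLast hne).symm⟩
  have hx : Lat x := hq.pla x (by simp)
  have z : ∀ (D : Z3) (l r q : List Dir), LA D l → RA D r → PA D (q ++ [.zp]) →
      IsSum (vl (Poly l (q ++ [.zp]))) (vl (Poly (back (q ++ [.zp])) r)) (vl (Poly l r)) :=
    fun D l r q hl hr hq => cut_zp hl hr hq
  have y : ∀ (D : Z3) (l r q : List Dir), LA D l → RA D r → PA D (q ++ [.yp]) →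
      IsSum (vl (Poly l (q ++ [.yp]))) (vl (Poly (back (q ++ [.yp])) r)) (vl (Poly l r)) := by
    intro D l r q hl hr hq
    refine cut_step hl hr hq ?_
    have := hq.rx
    rw [List.map_append] at this ⊢
    exact z _ _ _ _ hl.rx hr.rx this
  have zm : ∀ (D : Z3) (l r q : List Dir), LA D l → RA D r → PA D (q ++ [.zm]) →
      IsSum (vl (Poly l (q ++ [.zm]))) (vl (Poly (back (q ++ [.zm])) r)) (vl (Poly l r)) := by
    intro D l r q hl hr hq
    refine cut_step hl hr hq ?_
    have := hq.rx
    rw [List.map_append] at this ⊢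
    exact y _ _ _ _ hl.rx hr.rx this
  have ym : ∀ (D : Z3) (l r q : List Dir), LA D l → RA D r → PA D (q ++ [.ym]) →
      IsSum (vl (Poly l (q ++ [.ym]))) (vl (Poly (back (q ++ [.ym])) r)) (vl (Poly l r)) := by
    intro D l r q hl hr hq
    refine cut_step hl hr hq ?_
    have := hq.rx
    rw [List.map_append] at this ⊢
    exact zm _ _ _ _ hl.rx hr.rx this
  cases x with
  | xp => exact absurd rfl hx.1
  | xm => exact absurd rfl hx.2
  | yp => exact y _ _ _ _ hl hr hq
  | ym => exact ym _ _ _ _ hl hr hq
  | zp => exact z _ _ _ _ hl hr hq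
  | zm => exact zm _ _ _ _ hl hr hq

end

end KN.ST
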