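import Pool.Agent.H132.ST.Chain

/-!
# Stretched polygons: a knotted block can be replaced by a weave of single steps
-/

set_option autoImplicit false

namespace KN.ST

open KN Finset
open scoped Classical ENNReal

noncomputable section

/-! ### lateral paths avoiding the origin -/

def PthOK : Z3 → List Dir → Z3 → Prop
  | D, [], D' => D = D'
  | D, v :: vs, D' => Lat v ∧ D - vec v ≠ 0 ∧ PthOK (D - vec v) vs D'

theorem pth_append {vs ws : List Dir} {D E D' : Z3} (h : PthOK D vs E) (h' : PthOK E ws D') :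
    PthOK D (vs ++ ws) D' := by
  induction vs generalizing D with
  | nil => simp only [PthOK] at h; subst h; exact h'
  | cons v vs ih => exact ⟨h.1, h.2.1, ih h.2.2⟩

theorem pth_rep {v : Dir} (hv : Lat v) (n : ℕ) : ∀ D : Z3, (∀ i : ℕ, D - (i : ℤ) • vec v ≠ 0) →
    PthOK D (List.replicate n v) (D - (n : ℤ) • vec v) := by
  induction n with
  | zero => intro D _; simp [PthOK]
  | succ n ih =>
    intro D hD
    rw [List.replicate_succ]
    refine ⟨hv, by simpa using hD 1, ?_⟩
    have e : ∀ i : ℕ, D - vec v - (i : ℤ) • vec v = D - ((i + 1 : ℕ) : ℤ) • vec v := by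
      intro i
      push_cast
      rw [add_smul, one_smul]
      abel
    have := ih (D - vec v) (fun i => by rw [e]; exact hD _)
    rwa [e] at this

theorem hor (a a' b : ℤ) (hb : b ≠ 0) : ∃ vs, PthOK (0, a, b) vs (0, a', b) ∧
    vs.length = (a - a').natAbs := by
  rcases le_total a' a with h | h
  · refine ⟨List.replicate (a - a').natAbs .yp, ?_, by simp⟩
    have := pth_rep (v := .yp) (by simp [Lat]) (a - a').natAbs (0, a, b) (fun i hi => by
      have := congrArg (fun x : Z3 => x.2.2) hi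
      simp [vec] at this
      exact hb this)
    have e : ((0, a, b) : Z3) - (((a - a').natAbs : ℕ) : ℤ) • vec .yp = (0, a', b) := by
      have : (((a - a').natAbs : ℕ) : ℤ) = a - a' := by omega
      rw [this]
      simp [vec]
    rwa [e] at this
  · refine ⟨List.replicate (a - a').natAbs .ym, ?_, by simp⟩
    have := pth_rep (v := .ym) (by simp [Lat]) (a - a').natAbs (0, a, b) (fun i hi => by
      have := congrArg (fun x : Z3 => x.2.2) hi
      simp [vec] at this
      exact hb this)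
    have e : ((0, a, b) : Z3) - (((a - a').natAbs : ℕ) : ℤ) • vec .ym = (0, a', b) := by
      have : (((a - a').natAbs : ℕ) : ℤ) = a' - a := by omega
      rw [this]
      simp [vec]
    rwa [e] at this

theorem ver (a b b' : ℤ) (ha : a ≠ 0) : ∃ vs, PthOK (0, a, b) vs (0, a, b') ∧
    vs.length = (b - b').natAbs := by
  rcases le_total b' b with h | h
  · refine ⟨List.replicate (b - b').natAbs .zp, ?_, by simp⟩
    have := pth_rep (v := .zp) (by simp [Lat]) (b - b').natAbs (0, a, b) (fun i hi => by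
      have := congrArg (fun x : Z3 => x.2.1) hi
      simp [vec] at this
      exact ha this)
    have e : ((0, a, b) : Z3) - (((b - b').natAbs : ℕ) : ℤ) • vec .zp = (0, a, b') := by
      have : (((b - b').natAbs : ℕ) : ℤ) = b - b' := by omega
      rw [this]
      simp [vec]
    rwa [e] at this
  · refine ⟨List.replicate (b - b').natAbs .zm, ?_, by simp⟩
    have := pth_rep (v := .zm) (by simp [Lat]) (b - b').natAbs (0, a, b) (fun i hi => by
      have := congrArg (fun x : Z3 => x.2.1) hi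
      simp [vec] at this
      exact ha this)
    have e : ((0, a, b) : Z3) - (((b - b').natAbs : ℕ) : ℤ) • vec .zm = (0, a, b') := by
      have : (((b - b').natAbs : ℕ) : ℤ) = b' - b := by omega
      rw [this]
      simp [vec]
    rwa [e] at this

theorem pth_exists {D D' : Z3} (h0 : D.1 = 0) (h0' : D'.1 = 0) (hD : D ≠ 0) (hD' : D' ≠ 0) :
    ∃ vs, PthOK D vs D' ∧ vs.length ≤ nl (D - D') + 2 := by
  obtain ⟨x, a, b⟩ := D
  obtain ⟨x', a', b'⟩ := D'
  simp only at h0 h0'
  subst h0
  subst h0'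
  have hn : nl (((0 : ℤ), a, b) - (0, a', b')) = (a - a').natAbs + (b - b').natAbs := by
    simp [nl]
  rw [hn]
  have hab : ¬ (a = 0 ∧ b = 0) := by
    rintro ⟨rfl, rfl⟩; exact hD rfl
  have hab' : ¬ (a' = 0 ∧ b' = 0) := by
    rintro ⟨rfl, rfl⟩; exact hD' rfl
  by_cases c1 : b ≠ 0 ∧ a' ≠ 0
  · obtain ⟨vs, h1, h2⟩ := hor a a' b c1.1
    obtain ⟨ws, h3, h4⟩ := ver a' b b' c1.2
    exact ⟨vs ++ ws, pth_append h1 h3, by rw [List.length_append, h2, h4]; omega⟩
  by_cases c2 : a ≠ 0 ∧ b' ≠ 0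
  · obtain ⟨vs, h1, h2⟩ := ver a b b' c2.1
    obtain ⟨ws, h3, h4⟩ := hor a a' b' c2.2
    exact ⟨vs ++ ws, pth_append h1 h3, by rw [List.length_append, h2, h4]; omega⟩
  by_cases c3 : b = 0
  · -- both on the first axis
    have ha : a ≠ 0 := fun h => hab ⟨h, c3⟩
    have hb' : b' = 0 := by
      by_contra h
      exact c2 ⟨ha, h⟩
    have ha' : a' ≠ 0 := fun h => hab' ⟨h, hb'⟩
    subst c3
    subst hb'
    obtain ⟨v1, h1, h2⟩ := ver a 0 1 ha
    obtain ⟨v2, h3, h4⟩ := hor a a' 1 one_ne_zero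
    obtain ⟨v3, h5, h6⟩ := ver a' 1 0 ha'
    refine ⟨v1 ++ (v2 ++ v3), pth_append h1 (pth_append h3 h5), ?_⟩
    rw [List.length_append, List.length_append, h2, h4, h6]
    omega
  · have ha' : a' = 0 := by
      by_contra h
      exact c1 ⟨c3, h⟩
    have hb' : b' ≠ 0 := fun h => hab' ⟨ha', h⟩
    have ha : a = 0 := by
      by_contra h
      exact c2 ⟨h, hb'⟩
    subst ha
    subst ha'
    obtain ⟨v1, h1, h2⟩ := hor 0 1 b c3
    obtain ⟨v2, h3, h4⟩ := ver 1 b b' one_ne_zero
    obtain ⟨v3, h5, h6⟩ := hor 1 0 b' hb'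
    refine ⟨v1 ++ (v2 ++ v3), pth_append h1 (pth_append h3 h5), ?_⟩
    rw [List.length_append, List.length_append, h2, h4, h6]
    omega

/-! ### chains with a gap -/

/-- the class of the chains with at most `Q` knotted blocks -/
def PQ (Q : ℕ) (c : Ch) : Prop := nb (vec c.1.1) c.2 ≤ Q

theorem nb_ins {D E D' : Z3} {bs cs : List Blk} (h : VC D bs E) (h' : VC E cs D') (h0 : D.1 = 0)
    (hD : D ≠ 0) : nb D (bs ++ S0 :: cs) = nb D (bs ++ cs) := by
  rw [nb_append h, nb_append h]
  obtain ⟨h3, h4⟩ := vc_ne h h0 hD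
  rw [show (S0 :: cs : List Blk) = ([], []) :: cs from rfl, nb_S h3 h4]

theorem cls_PQ (Q : ℕ) : Cls (PQ Q) := by
  constructor
  · intro e bs cs hg
    obtain ⟨E, h1, h2⟩ := vc_append.1 hg.vc
    unfold PQ
    rw [nb_ins h1 h2 hg.l0.x (vec_ne _)]
  · intro m
    unfold PQ
    have : nb (vec .yp) (List.replicate m S0) = 0 := by
      induction m with
      | zero => rfl
      | succ m ih =>
        rw [List.replicate_succ]
        exact (nb_S (by decide) (by decide) _).trans ih
    simp [this]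

/-- the steps `vs` lead from the end of the left part `p` to the beginning of the right part `q` -/
def TOK (Q : ℕ) (e : Dir × Dir) (p q : List Blk) (vs : List Dir) : Prop :=
  Lat e.1 ∧ Lat e.2 ∧ ∃ D D' : Z3, VC (vec e.1) p D ∧ VC D' q (vec e.2) ∧ (∀ b ∈ p, Irr b) ∧
    (∀ b ∈ q, Irr b) ∧ PthOK D vs D' ∧ nb (vec e.1) p + nb D' q ≤ Q

def Ag (t : ℝ≥0∞) (Q k : ℕ) (vs : List Dir) : ℝ≥0∞ :=
  ∑' x : (Dir × Dir) × (List Blk × List Blk), if TOK Q x.1 x.2.1 x.2.2 vs ∧
    ln x.2.1 + ln x.2.2 = k then t ^ (6 * (sp x.2.1 + sp x.2.2)) else 0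

theorem Ag_nil (t : ℝ≥0∞) (Q k : ℕ) : Ag t Q k [] ≤ ((k + 1 : ℕ) : ℝ≥0∞) * Zc t (PQ Q) k := by
  have key : ∀ x : (Dir × Dir) × (List Blk × List Blk), (if TOK Q x.1 x.2.1 x.2.2 [] ∧
      ln x.2.1 + ln x.2.2 = k then t ^ (6 * (sp x.2.1 + sp x.2.2)) else 0) ≤
      (if Good (x.1, x.2.1 ++ x.2.2) ∧ ln (x.2.1 ++ x.2.2) = k ∧ PQ Q (x.1, x.2.1 ++ x.2.2) then
        t ^ (6 * sp (x.2.1 ++ x.2.2)) else 0) := by
    rintro ⟨e, p, q⟩
    by_cases hc : TOK Q e p q [] ∧ ln p + ln q = k
    · obtain ⟨h1, h2, D, D', h3, h4, h5, h6, h7, h8⟩ := hc.1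
      simp only [PthOK] at h7
      subst h7
      have g : Good (e, p ++ q) := by
        refine ⟨h1, h2, vc_append.2 ⟨D, h3, h4⟩, fun b hb => ?_⟩
        rcases List.mem_append.1 hb with hb | hb
        · exact h5 b hb
        · exact h6 b hb
      have g2 : PQ Q (e, p ++ q) := by
        unfold PQ
        simp only
        rw [nb_append h3]
        exact h8
      rw [if_pos hc, if_pos ⟨g, by rw [ln_append]; exact hc.2, g2⟩, sp_append]
    · simp only
      rw [if_neg hc]
      exact zero_le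
  unfold Ag
  refine (ENNReal.tsum_le_tsum key).trans ?_
  refine (le_of_eq ENNReal.tsum_prod').trans ?_
  unfold Zc
  rw [← ENNReal.tsum_mul_left]
  refine le_trans ?_ (le_of_eq ENNReal.tsum_prod'.symm)
  refine ENNReal.tsum_le_tsum fun e => ?_
  simp only
  rw [tsum_append (fun l : List Blk => if Good (e, l) ∧ ln l = k ∧ PQ Q (e, l) then
    t ^ (6 * sp l) else 0)]
  refine ENNReal.tsum_le_tsum fun l => ?_
  by_cases hc : Good (e, l) ∧ ln l = k ∧ PQ Q (e, l)
  · refine mul_le_mul_left ?_ _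
    have h1 := ln_eq l
    have h2 := hc.2.1
    exact_mod_cast (by omega : l.length + 1 ≤ k + 1)
  · rw [if_neg hc, mul_zero, mul_zero]

/-- a group of blocks with one step `v` -/
def grp (K : ℕ) (v : Dir) (i : ℕ) : List Blk :=
  List.replicate i S0 ++ ([], [v]) :: List.replicate (K - 1 - i) S0

theorem vc_rep {D : Z3} (h0 : D.1 = 0) (hD : D ≠ 0) (n : ℕ) : VC D (List.replicate n S0) D ∧
    nb D (List.replicate n S0) = 0 := by
  induction n with
  | zero => exact ⟨rfl, rfl⟩
  | succ n ih =>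
    rw [List.replicate_succ]
    refine ⟨?_, (nb_S h0 hD _).trans ih.2⟩
    simp only [VC, nxt_S0]
    exact ⟨pc_S h0 hD, ih.1⟩

theorem vc_grp {K : ℕ} {v : Dir} {i : ℕ} {D : Z3} (h0 : D.1 = 0) (hD : D ≠ 0) (hv : Lat v)
    (hv' : D - vec v ≠ 0) : VC D (grp K v i) (D - vec v) ∧ nb D (grp K v i) = 0 := by
  have h0' : (D - vec v).1 = 0 := by rw [Prod.fst_sub, h0, hv.x]; rfl
  have e : D - vec v + vec v = D := by abel
  have h1 := vc_rep h0 hD i
  have h2 := vc_rep h0' hv' (K - 1 - i)
  have h3 := pc_E h0' hv' hv (by rw [e]; exact hD)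
  rw [e] at h3
  have h4 : VC D (([], [v]) :: List.replicate (K - 1 - i) S0) (D - vec v) := by
    simp only [VC]
    rw [h3.nxt]
    exact ⟨h3, h2.1⟩
  have h5 := nb_E h0' hv' hv (by rw [e]; exact hD) (List.replicate (K - 1 - i) S0)
  rw [e, h2.2] at h5
  refine ⟨vc_append.2 ⟨D, h1.1, h4⟩, ?_⟩
  unfold grp
  rw [nb_append h1.1, h1.2, h5]

theorem grp_data {K : ℕ} {v : Dir} (hv : Lat v) {i : ℕ} (hi : i < K) :
    ln (grp K v i) = 2 * K + 1 ∧ sp (grp K v i) = K ∧ (grp K v i).length = K ∧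
      ∀ b ∈ grp K v i, Irr b := by
  have h1 : ∀ n, ln (List.replicate n S0) = 2 * n := by
    intro n; simp [ln, S0, bl]; ring
  have h2 : ∀ n, sp (List.replicate n S0) = n := by
    intro n; simp [sp, S0, wd, pos]
  refine ⟨?_, ?_, ?_, ?_⟩
  · unfold grp
    rw [ln_append, ln_cons, h1, h1]
    simp only [bl, List.length_nil, List.length_cons]
    omega
  · unfold grp
    rw [sp_append, sp_cons, h2, h2]
    simp only [wd, pos, Prod.fst_zero, Int.toNat_zero]
    omega
  · unfold grp
    simp only [List.length_append, List.length_cons, List.length_replicate]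
    omega
  · intro b hb
    unfold grp at hb
    simp only [List.mem_append, List.mem_cons, List.mem_replicate] at hb
    rcases hb with ⟨-, rfl⟩ | rfl | ⟨-, rfl⟩
    · exact irr_S0
    · intro c h0 h1
      simp [pos] at h1
      omega
    · exact irr_S0

theorem rep_inj {α : Type} {a b : α} (hab : b ≠ a) : ∀ (i j : ℕ) (X Y : List α),
    List.replicate i a ++ b :: X = List.replicate j a ++ b :: Y → i = j := by
  intro i
  induction i with
  | zero =>
    intro j X Y h
    cases j with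
    | zero => rfl
    | succ j =>
      rw [List.replicate_succ] at h
      simp only [List.replicate_zero, List.nil_append, List.cons_append, List.cons.injEq] at h
      exact absurd h.1 hab
  | succ i ih =>
    intro j X Y h
    cases j with
    | zero =>
      rw [List.replicate_succ] at h
      simp only [List.replicate_zero, List.nil_append, List.cons_append, List.cons.injEq] at h
      exact absurd h.1.symm hab
    | succ j =>
      rw [List.replicate_succ, List.replicate_succ] at h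
      simp only [List.cons_append, List.cons.injEq, true_and] at h
      rw [ih j X Y h]

theorem Ag_cons (t : ℝ≥0∞) (Q k K : ℕ) (v : Dir) (vs : List Dir) :
    (K : ℝ≥0∞) * (t ^ (6 * K) * Ag t Q k (v :: vs)) ≤ Ag t Q (k + (2 * K + 1)) vs := by
  have h1 : (K : ℝ≥0∞) * (t ^ (6 * K) * Ag t Q k (v :: vs)) =
      ∑' y : ((Dir × Dir) × (List Blk × List Blk)) × Fin K,
        (t ^ (6 * K) * (if TOK Q y.1.1 y.1.2.1 y.1.2.2 (v :: vs) ∧
          ln y.1.2.1 + ln y.1.2.2 = k then t ^ (6 * (sp y.1.2.1 + sp y.1.2.2)) else 0)) := by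
    rw [ENNReal.tsum_prod']
    unfold Ag
    rw [← ENNReal.tsum_mul_left, ← ENNReal.tsum_mul_left]
    refine tsum_congr fun x => ?_
    simp only [tsum_fintype, sum_const, card_univ, Fintype.card_fin, nsmul_eq_mul]
  rw [h1]
  unfold Ag
  refine tsum_le_of_inj _ _ (fun y => (y.1.1, (y.1.2.1 ++ grp K v y.2.1, y.1.2.2))) ?_ ?_
  · rintro ⟨⟨e, p, q⟩, i⟩ ⟨⟨e', p', q'⟩, i'⟩ hy hy' he
    have hv : Lat v := by
      by_contra hn
      apply hy
      rw [if_neg, mul_zero]
      rintro ⟨⟨-, -, D, D', -, -, -, -, h7, -⟩, -⟩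
      exact hn h7.1
    simp only [Prod.mk.injEq] at he
    obtain ⟨rfl, h2, rfl⟩ := he
    have h3 := List.append_inj' h2 (by rw [(grp_data hv i.2).2.2.1, (grp_data hv i'.2).2.2.1])
    have h4 : i.1 = i'.1 := rep_inj (by simp [S0]) _ _ _ _ h3.2
    have h5 : i = i' := Fin.ext h4
    rw [h3.1, h5]
  · rintro ⟨⟨e, p, q⟩, i⟩ hy
    by_cases hc : TOK Q e p q (v :: vs) ∧ ln p + ln q = k
    · obtain ⟨g1, g2, D, D', g3, g4, g5, g6, g7, g8⟩ := hc.1
      simp only [PthOK] at g7
      have hv := g7.1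
      obtain ⟨hD0, hD⟩ := vc_ne g3 g1.x (vec_ne _)
      obtain ⟨k1, k2, k3, k4⟩ := grp_data hv i.2
      obtain ⟨m1, m2⟩ := vc_grp (K := K) (i := i.1) hD0 hD hv g7.2.1
      have hT : TOK Q e (p ++ grp K v i.1) q vs := by
        refine ⟨g1, g2, D - vec v, D', vc_append.2 ⟨D, g3, m1⟩, g4, ?_, g6, g7.2.2, ?_⟩
        · intro b hb
          rcases List.mem_append.1 hb with hb | hb
          · exact g5 b hb
          · exact k4 b hb
        · rw [nb_append g3, m2]
          exact g8
      simp only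
      rw [if_pos hc, if_pos ⟨hT, by rw [ln_append, k1]; omega⟩, sp_append, k2, ← pow_add]
      exact le_of_eq (by congr 1; ring)
    · exact absurd (by simp only; rw [if_neg hc, mul_zero]) hy

theorem Ag_all (t : ℝ≥0∞) (Q K : ℕ) (vs : List Dir) : ∀ k : ℕ,
    (K : ℝ≥0∞) ^ vs.length * (t ^ (6 * K * vs.length) * Ag t Q k vs) ≤
      ((k + (2 * K + 1) * vs.length + 1 : ℕ) : ℝ≥0∞) *
        Zc t (PQ Q) (k + (2 * K + 1) * vs.length) := by
  induction vs with
  | nil =>
    intro k
    simpa using Ag_nil t Q k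
  | cons v vs ih =>
    intro k
    have h1 := Ag_cons t Q k K v vs
    have h2 := ih (k + (2 * K + 1))
    have e : k + (2 * K + 1) + (2 * K + 1) * vs.length =
        k + (2 * K + 1) * (v :: vs).length := by
      simp only [List.length_cons]; ring
    rw [e] at h2
    refine le_trans ?_ h2
    calc (K : ℝ≥0∞) ^ (v :: vs).length * (t ^ (6 * K * (v :: vs).length) * Ag t Q k (v :: vs)) =
        (K : ℝ≥0∞) ^ vs.length * (t ^ (6 * K * vs.length) *
          ((K : ℝ≥0∞) * (t ^ (6 * K) * Ag t Q k (v :: vs)))) := by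
          rw [List.length_cons, pow_succ, mul_add (6 * K), mul_one, pow_add]
          ring
      _ ≤ _ := by gcongr

end

end KN.ST
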