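import Pool.Agent.H132.ST.Sum

/-!
# Stretched polygons: irreducible blocks, existence and uniqueness of the factorisation
-/

set_option autoImplicit false

namespace KN.ST

open KN
open scoped Classical

/-- does a step `a` from a point with first coordinate `x` cross the gap between `c` and `c + 1`? -/
def cx (a : Dir) (x c : ℤ) : ℕ := if (a = .xp ∧ x = c) ∨ (a = .xm ∧ x = c + 1) then 1 else 0

/-- the number of crossings of the gap between `c` and `c + 1` -/
def X : List Dir → ℤ → ℕ
  | [], _ => 0
  | a :: w, c => X w c + cx a (pos w).1 c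

theorem X_append (u w : List Dir) (c : ℤ) : X (u ++ w) c = X u (c - (pos w).1) + X w c := by
  induction u with
  | nil => simp [X]
  | cons a u ih =>
    simp only [List.cons_append, X, ih, pos_append, Prod.fst_add]
    have : cx a ((pos u).1 + (pos w).1) c = cx a (pos u).1 (c - (pos w).1) := by
      unfold cx
      congr 1
      apply propext
      constructor
      · rintro (⟨h1, h2⟩ | ⟨h1, h2⟩)
        · left; exact ⟨h1, by omega⟩
        · right; exact ⟨h1, by omega⟩
      · rintro (⟨h1, h2⟩ | ⟨h1, h2⟩)
        · left; exact ⟨h1, by omega⟩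
        · right; exact ⟨h1, by omega⟩
    rw [this]
    ring

theorem X_low {w : List Dir} {c : ℤ} (h : ∀ p ∈ path w, p.1 ≤ c) : X w c = 0 := by
  induction w with
  | nil => rfl
  | cons a w ih =>
    have h1 := ih (fun p hp => h p (List.mem_cons_of_mem _ hp))
    have h2 := h (pos w + vec a) List.mem_cons_self
    have h3 := h (pos w) (List.mem_cons_of_mem _ (pos_mem_path w))
    simp only [X, h1, cx, zero_add]
    rw [if_neg]
    rintro (⟨rfl, h4⟩ | ⟨rfl, h4⟩)
    · simp [vec] at h2; omega
    · omega

theorem X_high {w : List Dir} {c : ℤ} (h : ∀ p ∈ path w, c + 1 ≤ p.1) : X w c = 0 := by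
  induction w with
  | nil => rfl
  | cons a w ih =>
    have h1 := ih (fun p hp => h p (List.mem_cons_of_mem _ hp))
    have h2 := h (pos w + vec a) List.mem_cons_self
    have h3 := h (pos w) (List.mem_cons_of_mem _ (pos_mem_path w))
    simp only [X, h1, cx, zero_add]
    rw [if_neg]
    rintro (⟨rfl, h4⟩ | ⟨rfl, h4⟩)
    · omega
    · simp [vec] at h2; omega

theorem stay_low {w : List Dir} {c : ℤ} (hc : 0 ≤ c) (h : X w c = 0) :
    ∀ p ∈ path w, p.1 ≤ c := by
  induction w with
  | nil => intro p hp; simp [path] at hp; subst hp; simpa using hc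
  | cons a w ih =>
    simp only [X, Nat.add_eq_zero_iff] at h
    have h1 := ih h.1
    intro p hp
    rcases List.mem_cons.1 hp with rfl | hp
    · have h2 := h1 _ (pos_mem_path w)
      have h3 := h.2
      unfold cx at h3
      rw [ite_eq_right_iff] at h3
      simp only [Prod.fst_add]
      cases a <;> simp [vec] at h3 ⊢ <;> omega
    · exact h1 p hp

theorem stay_high {w : List Dir} {c : ℤ} (hc : c < 0) (h : X w c = 0) :
    ∀ p ∈ path w, c + 1 ≤ p.1 := by
  induction w with
  | nil => intro p hp; simp [path] at hp; subst hp; simpa using hc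
  | cons a w ih =>
    simp only [X, Nat.add_eq_zero_iff] at h
    have h1 := ih h.1
    intro p hp
    rcases List.mem_cons.1 hp with rfl | hp
    · have h2 := h1 _ (pos_mem_path w)
      have h3 := h.2
      unfold cx at h3
      rw [ite_eq_right_iff] at h3
      simp only [Prod.fst_add]
      cases a <;> simp [vec] at h3 ⊢ <;> omega
    · exact h1 p hp

theorem firstUp {w : List Dir} {c : ℤ} (hc : 0 ≤ c) (h : ∃ p ∈ path w, c < p.1) :
    ∃ w2 w1, w = w2 ++ .xp :: w1 ∧ (∀ p ∈ path w1, p.1 ≤ c) ∧ (pos w1).1 = c := by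
  induction w with
  | nil =>
    obtain ⟨p, hp, h⟩ := h
    simp [path] at hp
    subst hp
    simp at h
    omega
  | cons a w ih =>
    by_cases hw : ∃ p ∈ path w, c < p.1
    · obtain ⟨w2, w1, h1, h2, h3⟩ := ih hw
      exact ⟨a :: w2, w1, by rw [h1]; rfl, h2, h3⟩
    · push Not at hw
      obtain ⟨p, hp, h⟩ := h
      rcases List.mem_cons.1 hp with rfl | hp
      · have h1 := hw _ (pos_mem_path w)
        simp only [Prod.fst_add] at h
        have ha : a = .xp := by cases a <;> simp [vec] at h ⊢ <;> omega
        subst ha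
        simp [vec] at h
        exact ⟨[], w, rfl, hw, by omega⟩
      · exact absurd (hw p hp) (by omega)

theorem firstDown {w : List Dir} {c : ℤ} (hc : c < 0) (h : ∃ p ∈ path w, p.1 ≤ c) :
    ∃ w2 w1, w = w2 ++ .xm :: w1 ∧ (∀ p ∈ path w1, c + 1 ≤ p.1) ∧ (pos w1).1 = c + 1 := by
  induction w with
  | nil =>
    obtain ⟨p, hp, h⟩ := h
    simp [path] at hp
    subst hp
    simp at h
    omega
  | cons a w ih =>
    by_cases hw : ∃ p ∈ path w, p.1 ≤ c
    · obtain ⟨w2, w1, h1, h2, h3⟩ := ih hw
      exact ⟨a :: w2, w1, by rw [h1]; rfl, h2, h3⟩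
    · push Not at hw
      obtain ⟨p, hp, h⟩ := h
      rcases List.mem_cons.1 hp with rfl | hp
      · have h1 := hw _ (pos_mem_path w)
        simp only [Prod.fst_add] at h
        have ha : a = .xm := by cases a <;> simp [vec] at h ⊢ <;> omega
        subst ha
        simp [vec] at h
        exact ⟨[], w, rfl, fun p hp => by have := hw p hp; omega, by omega⟩
      · exact absurd (hw p hp) (by omega)

/-- irreducible blocks: no gap inside is crossed exactly twice -/
def Irr (b : Blk) : Prop :=
  ∀ c : ℤ, 0 ≤ c → c < (pos b.1).1 → X b.1 c + X b.2 (c - (pos b.1).1) ≠ 2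

/-- length and extent of a sequence of blocks -/
def bl (b : Blk) : ℕ := b.1.length + b.2.length
def wd (b : Blk) : ℕ := (pos b.1).1.toNat
def ln (bs : List Blk) : ℕ := (bs.map (fun b => bl b + 2)).sum
def sp (bs : List Blk) : ℕ := (bs.map (fun b => wd b + 1)).sum

theorem ln_append (bs cs : List Blk) : ln (bs ++ cs) = ln bs + ln cs := by simp [ln]
theorem sp_append (bs cs : List Blk) : sp (bs ++ cs) = sp bs + sp cs := by simp [sp]
theorem ln_cons (b : Blk) (bs : List Blk) : ln (b :: bs) = bl b + 2 + ln bs := by simp [ln]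
theorem sp_cons (b : Blk) (bs : List Blk) : sp (b :: bs) = wd b + 1 + sp bs := by simp [sp]
theorem ln_nil : ln [] = 0 := rfl
theorem sp_nil : sp [] = 0 := rfl

theorem X_pos_up {w : List Dir} {c : ℤ} (hc : 0 ≤ c) (h : ∃ p ∈ path w, c < p.1) : 1 ≤ X w c := by
  by_contra hn
  have h0 : X w c = 0 := by omega
  obtain ⟨p, hp, h1⟩ := h
  have := stay_low hc h0 p hp
  omega

theorem X_pos_down {w : List Dir} {c : ℤ} (hc : c < 0) (h : ∃ p ∈ path w, p.1 ≤ c) :
    1 ≤ X w c := by
  by_contra hn
  have h0 : X w c = 0 := by omega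
  obtain ⟨p, hp, h1⟩ := h
  have := stay_high hc h0 p hp
  omega

theorem Pc.pos2 {D D' : Z3} {b : Blk} (h : Pc D D' b) : (pos b.2).1 = - (pos b.1).1 := by
  have h1 := congrArg Prod.fst h.rel
  simp only [Prod.fst_add] at h1
  have := h.h0
  have := h.h1
  omega

theorem Pc.cross {D D' : Z3} {b : Blk} (h : Pc D D' b) {c : ℤ} (h0 : 0 ≤ c)
    (h1 : c < (pos b.1).1) : 1 ≤ X b.1 c ∧ 1 ≤ X b.2 (c - (pos b.1).1) := by
  refine ⟨X_pos_up h0 ⟨_, pos_mem_path _, h1⟩, X_pos_down (by omega) ⟨_, pos_mem_path _, ?_⟩⟩
  rw [h.pos2]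
  omega

theorem pc_split {D D' : Z3} {b : Blk} (h : Pc D D' b) {c : ℤ} (h0 : 0 ≤ c)
    (h1 : c < (pos b.1).1) (h2 : X b.1 c + X b.2 (c - (pos b.1).1) = 2) :
    ∃ (p q : Blk) (E : Z3), Pc D E p ∧ Pc E D' q ∧ (∀ e, Rw1 p (Rw1 q e) = Rw1 b e) ∧
      bl b = bl p + bl q + 2 ∧ wd b = wd p + wd q + 1 := by
  obtain ⟨b1, b2⟩ := b
  simp only at h1 h2
  obtain ⟨hx1, hx2⟩ := h.cross h0 h1
  simp only at hx1 hx2
  obtain ⟨u2, u1, hu, hu1, hu2⟩ := firstUp (w := b1) h0 ⟨_, pos_mem_path _, h1⟩
  have hp2 := h.pos2
  simp only at hp2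
  obtain ⟨d1, d2, hd, hd1, hd2⟩ := firstDown (w := b2) (c := c - (pos b1).1) (by omega)
    ⟨_, pos_mem_path _, by rw [hp2]; omega⟩
  have hXu : X u2 (-1) = 0 := by
    have : X b1 c = 1 := by omega
    rw [hu, X_append] at this
    simp only [X, pos, Prod.fst_add, hu2, vec] at this
    have e : c - (c + 1) = -1 := by ring
    rw [e] at this
    have h5 : cx .xp c c = 1 := by simp [cx]
    omega
  have hXd : X d1 0 = 0 := by
    have : X b2 (c - (pos b1).1) = 1 := by omega
    rw [hd, X_append] at this
    simp only [X, pos, Prod.fst_add, hd2, vec] at this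
    have e : c - (pos b1).1 - (c - (pos b1).1 + 1 + -1) = 0 := by ring
    rw [e] at this
    have h5 : cx .xm (c - (pos b1).1 + 1) (c - (pos b1).1) = 1 := by simp [cx]
    omega
  have hu3 := stay_high (by norm_num) hXu
  have hd3 := stay_low (le_refl _) hXd
  set s : Z3 := pos u1 + vec .xp with hs
  set E : Z3 := pos d2 + (pos u2 + D') with hE
  have hxx : vec .xp + vec .xm = 0 := by decide
  have hb1 : pos b1 = pos u2 + s := by
    rw [hu, pos_append]
    rfl
  have hb2 : pos b2 = pos d1 + (pos d2 + vec .xm) := by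
    rw [hd, pos_append]
    rfl
  have e1 : pos b1 + D' = (pos u2 + D') + s := by rw [hb1]; abel
  have e2 : (pos d2 + vec .xm) + (pos b1 + D') = pos u1 + E := by
    rw [e1, hs, hE]
    calc pos d2 + vec .xm + (pos u2 + D' + (pos u1 + vec .xp)) =
        pos u1 + (pos d2 + (pos u2 + D')) + (vec .xp + vec .xm) := by abel
      _ = _ := by rw [hxx, add_zero]
  have hpv : pv (b1, b2) D' = sh (pos u1 + E) (path d1) ++ (sh s (sh (pos u2 + D') (path d2)) ++
      (sh s (path u2) ++ path u1)) := by
    unfold pv
    simp only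
    have hpb2 : path b2 = sh (pos d2 + vec .xm) (path d1) ++ path d2 := by rw [hd, path_mid]
    have hpb1 : path b1 = sh s (path u2) ++ path u1 := by rw [hu, path_mid]
    have h9 : sh (pos u2 + D' + s) (path d2) = sh s (sh (pos u2 + D') (path d2)) :=
      (sh_sh _ _ _).symm
    rw [hpb2, hpb1, sh_append, sh_sh, e2, e1, h9, List.append_assoc]
  have hnd := h.nd
  rw [hpv] at hnd
  have hrg := h.rg
  rw [hpv] at hrg
  simp only at hrg
  have hj : (pos b1).1 = (pos u2).1 + c + 1 := by
    rw [hb1, Prod.fst_add, hs, Prod.fst_add, hu2]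
    simp [vec]
    ring
  have hD0 := h.h0
  have hD1 := h.h1
  have hE0 : E.1 = 0 := by
    rw [hE]
    simp only [Prod.fst_add, hd2]
    omega
  refine ⟨(u1, d1), (u2, d2), E, ⟨?_, ?_, ?_, hE0, hD1⟩, ⟨?_, ?_, rfl, hD0, hE0⟩, ?_, ?_, ?_⟩
  · unfold pv
    simp only
    refine hnd.sublist (List.Sublist.append (List.Sublist.refl _) ?_)
    rw [← List.append_assoc]
    exact List.sublist_append_right _ _
  · intro p hp
    unfold pv at hp
    simp only [List.mem_append] at hp
    rcases hp with hp | hp
    · have h6 := (hrg p (List.mem_append_left _ hp)).1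
      have h7 := hd3 _ (mem_sh.1 hp)
      simp only [Prod.fst_sub, Prod.fst_add, hE0] at h7
      exact ⟨h6, by simp only; omega⟩
    · have h6 := (hrg p (by simp [hp])).1
      have h7 := hu1 _ hp
      exact ⟨h6, by simp only; omega⟩
  · simp only
    rw [← h.rel]
    simp only
    rw [hb2]
    calc pos d1 + (pos u1 + E) = pos d1 + ((pos d2 + vec .xm) + (pos b1 + D')) := by rw [e2]
      _ = _ := by abel
  · unfold pv
    simp only
    have h8 : (sh s (sh (pos u2 + D') (path d2)) ++ sh s (path u2)).Nodup := by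
      refine hnd.sublist ?_
      rw [← List.append_assoc (sh s (sh (pos u2 + D') (path d2)))]
      exact (List.sublist_append_left _ _).trans (List.sublist_append_right _ _)
    rw [← sh_append, nodup_sh] at h8
    exact h8
  · have hs1 : s.1 = c + 1 := by rw [hs, Prod.fst_add, hu2]; simp [vec]
    intro p hp
    unfold pv at hp
    simp only [List.mem_append] at hp
    have hm : p + s ∈ sh s (sh (pos u2 + D') (path d2)) ∨ p + s ∈ sh s (path u2) := by
      rcases hp with hp | hp
      · left; rw [mem_sh]; simpa using hp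
      · right; rw [mem_sh]; simpa using hp
    have h6 : (p + s).1 ≤ (pos b1).1 := by
      rcases hm with hm | hm
      · exact (hrg _ (by simp [hm])).2
      · exact (hrg _ (by simp [hm])).2
    rw [Prod.fst_add, hs1] at h6
    refine ⟨?_, by simp only; omega⟩
    rcases hp with hp | hp
    · have h7 := hd1 _ (mem_sh.1 hp)
      simp only [Prod.fst_sub, Prod.fst_add] at h7
      omega
    · have := hu3 _ hp
      omega
  · intro e
    rw [hu, hd]
    simp [Rw1]
  · simp only [bl]
    rw [hu, hd]
    simp only [List.length_append, List.length_cons]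
    omega
  · have h9 : 0 ≤ (pos u2).1 := by
      have := hu3 _ (pos_mem_path u2)
      omega
    simp only [wd]
    rw [hj, hu2]
    omega

/-- every block is a composition of irreducible ones -/
theorem pfact (n : ℕ) : ∀ (D D' : Z3) (b : Blk), bl b ≤ n → Pc D D' b →
    ∃ bs : List Blk, (∀ c ∈ bs, Irr c) ∧ VC D bs D' ∧ (∀ e, Rw bs e = Rw1 b e) ∧
      ln bs = bl b + 2 ∧ sp bs = wd b + 1 := by
  induction n with
  | zero =>
    intro D D' b hb h
    refine ⟨[b], ?_, ?_, fun e => rfl, by simp [ln], by simp [sp]⟩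
    · intro c hc
      rw [List.mem_singleton.1 hc]
      intro c h0 h1
      have : b.1 = [] := by
        unfold bl at hb
        exact List.length_eq_zero_iff.1 (by omega)
      rw [this] at h1
      simp [pos] at h1
      omega
    · simp only [VC]
      rw [h.nxt]
      exact ⟨h, rfl⟩
  | succ n ih =>
    intro D D' b hb h
    by_cases hI : Irr b
    · refine ⟨[b], ?_, ?_, fun e => rfl, by simp [ln], by simp [sp]⟩
      · intro c hc
        rw [List.mem_singleton.1 hc]
        exact hI
      · simp only [VC]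
        rw [h.nxt]
        exact ⟨h, rfl⟩
    · unfold Irr at hI
      push Not at hI
      obtain ⟨c, h0, h1, h2⟩ := hI
      obtain ⟨p, q, E, hp, hq, hR, hbl, hwd⟩ := pc_split h h0 h1 h2
      obtain ⟨bs, g1, g2, g3, g4, g5⟩ := ih D E p (by omega) hp
      obtain ⟨cs, k1, k2, k3, k4, k5⟩ := ih E D' q (by omega) hq
      refine ⟨bs ++ cs, ?_, vc_append.2 ⟨E, g2, k2⟩, ?_, ?_, ?_⟩
      · intro c hc
        rcases List.mem_append.1 hc with hc | hc
        · exact g1 c hc
        · exact k1 c hc
      · intro e
        rw [Rw_append, k3, g3, hR]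
      · rw [ln_append, g4, k4]; omega
      · rw [sp_append, g5, k5]; omega

/-! ### uniqueness -/

theorem X_Rw1 {D D' : Z3} {b : Blk} {r : List Dir} (h : Pc D D' b) (hr : RA D' r) {c : ℤ}
    (h0 : 0 ≤ c) : (c < (pos b.1).1 → X (Rw1 b r) c = X b.1 c + X b.2 (c - (pos b.1).1)) ∧
      (c = (pos b.1).1 → X (Rw1 b r) c = 2) := by
  have hD := h.h0
  have hp : (pos (r ++ .xp :: b.1)).1 = (pos b.1).1 + 1 := by
    rw [pos_append, hr.en]
    simp [pos, vec, hD]
  have e : X (Rw1 b r) c = X b.2 (c - (pos b.1).1) + (X r (c - ((pos b.1).1 + 1)) +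
      (X b.1 c + cx .xp (pos b.1).1 c) + cx .xm ((pos b.1).1 + 1) c) := by
    unfold Rw1
    rw [X_append]
    simp only [X, pos, Prod.fst_add, hp, vec]
    rw [X_append]
    simp only [X, pos, Prod.fst_add, vec]
    congr 2
    ring
  have hb1 : ∀ p ∈ path b.1, p.1 ≤ (pos b.1).1 := fun p hp =>
    (h.rg p (List.mem_append_right _ hp)).2
  have hb2 : ∀ p ∈ path b.2, p.1 ≤ 0 := by
    intro p hp
    have := (h.rg (p + (pos b.1 + D')) (List.mem_append_left _ (mem_sh.2 (by simpa using hp)))).2
    simp only [Prod.fst_add] at this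
    omega
  constructor
  · intro h1
    have h2 : X r (c - ((pos b.1).1 + 1)) = 0 := by
      apply X_high
      intro p hp
      have := hr.ge p hp
      omega
    rw [e, h2]
    have h3 : cx .xp (pos b.1).1 c = 0 := by
      unfold cx
      rw [if_neg]
      rintro (⟨-, h⟩ | ⟨h, -⟩)
      · omega
      · simp at h
    have h4 : cx .xm ((pos b.1).1 + 1) c = 0 := by
      unfold cx
      rw [if_neg]
      rintro (⟨h, -⟩ | ⟨-, h⟩)
      · simp at h
      · omega
    rw [h3, h4]
    ring
  · intro h1
    have h2 : X r (c - ((pos b.1).1 + 1)) = 0 := by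
      apply X_high
      intro p hp
      have := hr.ge p hp
      omega
    have h3 : X b.2 (c - (pos b.1).1) = 0 := by
      apply X_low
      intro p hp
      have := hb2 p hp
      omega
    have h4 : X b.1 c = 0 := by
      apply X_low
      intro p hp
      have := hb1 p hp
      omega
    rw [e, h2, h3, h4, h1]
    simp [cx]

theorem suffix_le {w b1 b1' r r' : List Dir} {j : ℤ} (h : w = r ++ .xp :: b1)
    (h' : w = r' ++ .xp :: b1') (hj : (pos b1).1 = j) (hb' : ∀ p ∈ path b1', p.1 ≤ j) :
    b1'.length ≤ b1.length := by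
  by_contra hn
  push Not at hn
  have h1 : (Dir.xp :: b1) <:+ b1' := by
    have s1 : (Dir.xp :: b1) <:+ w := ⟨r, h.symm⟩
    have s2 : b1' <:+ w := ⟨r' ++ [.xp], by rw [h']; simp⟩
    exact List.suffix_of_suffix_length_le s1 s2 (by simpa using hn)
  obtain ⟨t, ht⟩ := h1
  have h2 := hb' (pos (.xp :: b1)) (by
    rw [← ht]
    rw [path_append]
    exact List.mem_append_right _ (pos_mem_path _))
  simp [pos, vec, hj] at h2

theorem uniq {bs : List Blk} : ∀ {bs' : List Blk} {a a' : Dir} {D E D' E' : Z3},
    Rw bs [a] = Rw bs' [a'] → (∀ b ∈ bs, Irr b) → (∀ b ∈ bs', Irr b) → VC D bs E → VC D' bs' E' →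
    RA E [a] → RA E' [a'] → bs = bs' ∧ a = a' := by
  induction bs with
  | nil =>
    intro bs' a a' D E D' E' h _ _ _ _ _ _
    cases bs' with
    | nil => simp only [Rw] at h; exact ⟨rfl, by simpa using h⟩
    | cons b' bs' =>
      exfalso
      have := congrArg List.length h
      simp only [Rw, Rw1, List.length_append, List.length_cons, List.length_nil] at this
      omega
  | cons b bs ih =>
    intro bs' a a' D E D' E' h hI hI' hV hV' ha ha'
    cases bs' with
    | nil =>
      exfalso
      have := congrArg List.length h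
      simp only [Rw, Rw1, List.length_append, List.length_cons, List.length_nil] at this
      omega
    | cons b' bs' =>
      have hr := hV.2.ra ha
      have hr' := hV'.2.ra ha'
      have hIb := hI b List.mem_cons_self
      have hIb' := hI' b' List.mem_cons_self
      simp only [Rw] at h
      have hj : (pos b.1).1 = (pos b'.1).1 := by
        rcases lt_trichotomy (pos b.1).1 (pos b'.1).1 with h1 | h1 | h1
        · exfalso
          have h2 := (X_Rw1 hV.1 hr hV.1.pos1).2 rfl
          rw [h, (X_Rw1 hV'.1 hr' hV.1.pos1).1 h1] at h2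
          exact hIb' _ hV.1.pos1 h1 h2
        · exact h1
        · exfalso
          have h2 := (X_Rw1 hV'.1 hr' hV'.1.pos1).2 rfl
          rw [← h, (X_Rw1 hV.1 hr hV'.1.pos1).1 h1] at h2
          exact hIb _ hV'.1.pos1 h1 h2
      have e1 : Rw1 b (Rw bs [a]) = (b.2 ++ .xm :: Rw bs [a]) ++ .xp :: b.1 := by simp [Rw1]
      have e2 : Rw1 b (Rw bs [a]) = (b'.2 ++ .xm :: Rw bs' [a']) ++ .xp :: b'.1 := by
        rw [h]; simp [Rw1]
      have l1 := suffix_le e1 e2 rfl (fun p hp => by
        rw [hj]; exact (hV'.1.rg p (List.mem_append_right _ hp)).2)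
      have l2 := suffix_le e2 e1 rfl (fun p hp => by
        rw [← hj]; exact (hV.1.rg p (List.mem_append_right _ hp)).2)
      have hl : b.1.length = b'.1.length := le_antisymm l2 l1
      rw [e1] at e2
      have h3 := List.append_inj' e2 (by simp [hl])
      have hb1 : b.1 = b'.1 := by
        have := h3.2
        simpa using this
      have h4 := h3.1
      -- the second components
      have key : ∀ {u u' t t' : List Dir} {F : Z3}, u ++ .xm :: t = u' ++ .xm :: t' →
          (∀ p ∈ path t, 0 ≤ p.1) → (pos t').1 = 0 → u'.length ≤ u.length := by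
        intro u u' t t' F h5 h6 h7
        by_contra hn
        push Not at hn
        have s1 : (Dir.xm :: t') <:+ (u ++ .xm :: t) := ⟨u', h5.symm⟩
        have s2 : t <:+ (u ++ .xm :: t) := ⟨u ++ [.xm], by simp⟩
        have hlen := congrArg List.length h5
        simp only [List.length_append, List.length_cons] at hlen
        have h8 := List.suffix_of_suffix_length_le s1 s2 (by simp only [List.length_cons]; omega)
        obtain ⟨z, hz⟩ := h8
        have h9 := h6 (pos (.xm :: t')) (by
          rw [← hz, path_append]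
          exact List.mem_append_right _ (pos_mem_path _))
        simp [pos, vec, h7] at h9
      have m1 := key (F := D) h4 hr.ge (by rw [hr'.en]; exact hr'.h0)
      have m2 := key (F := D) h4.symm hr'.ge (by rw [hr.en]; exact hr.h0)
      have h5 := List.append_inj h4 (le_antisymm m2 m1)
      have hb2 := h5.1
      have h6 : Rw bs [a] = Rw bs' [a'] := by simpa using h5.2
      obtain ⟨h7, h8⟩ := ih h6 (fun c hc => hI c (List.mem_cons_of_mem _ hc))
        (fun c hc => hI' c (List.mem_cons_of_mem _ hc)) hV.2 hV'.2 ha ha'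
      refine ⟨?_, h8⟩
      rw [h7]
      congr 1
      exact Prod.ext hb1 hb2

/-! ### the length of irreducible blocks -/

/-- lateral norm -/
def nl (p : Z3) : ℕ := p.2.1.natAbs + p.2.2.natAbs

/-- number of letters `xp`, `xm` -/
noncomputable def xc : List Dir → ℕ
  | [] => 0
  | a :: w => xc w + (if Lat a then 0 else 1)

theorem nl_xc (w : List Dir) : nl (pos w) + xc w ≤ w.length := by
  induction w with
  | nil => simp [nl, pos, xc]
  | cons a w ih =>
    simp only [pos, xc, List.length_cons, nl, Prod.snd_add, Prod.fst_add] at ih ⊢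
    cases a <;> simp [Lat, vec] <;> omega

theorem sum_X_le (w : List Dir) (t : ℤ) (S : Finset ℤ) : ∑ c ∈ S, X w (c - t) ≤ xc w := by
  induction w with
  | nil => simp [X]
  | cons a w ih =>
    simp only [X, xc, Finset.sum_add_distrib]
    refine add_le_add ih ?_
    by_cases ha : Lat a
    · rw [if_pos ha]
      refine (Finset.sum_eq_zero fun c _ => ?_).le
      unfold cx
      rw [if_neg]
      rintro (⟨h, -⟩ | ⟨h, -⟩)
      · exact ha.1 h
      · exact ha.2 h
    · rw [if_neg ha]
      have hle : ∀ c ∈ S, cx a (pos w).1 (c - t) ≤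
          if c = (if a = .xp then (pos w).1 + t else (pos w).1 - 1 + t) then 1 else 0 := by
        intro c _
        cases a with
        | xp =>
          simp only [cx, if_true, true_and, reduceCtorEq, false_and, or_false]
          split_ifs with h1 h2
          · exact le_rfl
          · exact absurd (by omega) h2
          · exact zero_le_one
          · exact le_rfl
        | xm =>
          simp only [cx, reduceCtorEq, false_and, true_and, false_or, if_false]
          split_ifs with h1 h2
          · exact le_rfl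
          · exact absurd (by omega) h2
          · exact zero_le_one
          · exact le_rfl
        | yp => exact absurd ⟨by decide, by decide⟩ ha
        | ym => exact absurd ⟨by decide, by decide⟩ ha
        | zp => exact absurd ⟨by decide, by decide⟩ ha
        | zm => exact absurd ⟨by decide, by decide⟩ ha
      refine (Finset.sum_le_sum hle).trans ?_
      rw [Finset.sum_ite_eq']
      split_ifs <;> simp

theorem irr_len {D D' : Z3} {b : Blk} (h : Pc D D' b) (hI : Irr b) :
    3 * wd b + nl (D - D') ≤ bl b := by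
  have hj := h.pos1
  have h1 : 3 * wd b ≤ xc b.1 + xc b.2 := by
    have h2 : ∑ _c ∈ Finset.Ico 0 (pos b.1).1, 3 ≤ ∑ c ∈ Finset.Ico 0 (pos b.1).1,
        (X b.1 c + X b.2 (c - (pos b.1).1)) := by
      refine Finset.sum_le_sum fun c hc => ?_
      rw [Finset.mem_Ico] at hc
      have h3 := h.cross hc.1 hc.2
      have h4 := hI c hc.1 hc.2
      omega
    rw [Finset.sum_add_distrib, Finset.sum_const, smul_eq_mul, Int.card_Ico] at h2
    have h5 := sum_X_le b.1 0 (Finset.Ico 0 (pos b.1).1)
    have h6 := sum_X_le b.2 (pos b.1).1 (Finset.Ico 0 (pos b.1).1)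
    simp only [sub_zero] at h5 h2
    unfold wd
    omega
  have h2 := nl_xc b.1
  have h3 := nl_xc b.2
  have h4 : nl (D - D') ≤ nl (pos b.1) + nl (pos b.2) := by
    have : D - D' = pos b.2 + pos b.1 := by rw [← h.rel]; abel
    rw [this]
    unfold nl
    simp only [Prod.snd_add, Prod.fst_add]
    omega
  unfold bl
  omega

end KN.ST
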