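import Pool.Agent.H132.ST.Lim

/-!
# Stretched polygons: the comparison of the weighted sums over polygons
-/

set_option autoImplicit false

namespace KN.ST

open KN KN.KQ Finset Filter Topology
open scoped Classical ENNReal

noncomputable section

/-- the constants are admissible -/
structure Adm (M K : ℕ) (t : ℝ≥0∞) : Prop where
  hM : 0 < M
  ht : 12 ^ (2 * M + 3) ≤ t
  htt : t ≠ ⊤
  hK : 576 ≤ K
  hκ : kap M ^ (2 * K + 1) ≤ 2

theorem Adm.one {M K : ℕ} {t : ℝ≥0∞} (h : Adm M K t) : 1 ≤ t :=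
  le_trans (by exact one_le_pow₀ (by norm_num)) h.ht

theorem Adm.kap2 {M K : ℕ} {t : ℝ≥0∞} (h : Adm M K t) : kap M ≤ 2 := by
  have hM0 := h.hM
  unfold kap
  rw [ENNReal.div_le_iff_le_mul (Or.inl (by exact_mod_cast hM0.ne'))
    (Or.inl (ENNReal.natCast_ne_top _))]
  have : M + 1 ≤ 2 * M := by omega
  exact_mod_cast this

theorem Adm.nat {M K : ℕ} {t : ℝ≥0∞} (h : Adm M K t) : ∃ T : ℕ, t ≤ T := by
  obtain ⟨T, hT⟩ := ENNReal.exists_nat_gt h.htt
  exact ⟨T, hT.le⟩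

theorem pow_ok {M n : ℕ} (hn : (M + 1) * 6 ^ 4 ≤ n) : (M + 1) * 6 ^ 4 ≤ 2 ^ (n + 2) :=
  calc (M + 1) * 6 ^ 4 ≤ n := hn
    _ ≤ 2 ^ n := two_pow_ge n
    _ ≤ _ := Nat.pow_le_pow_right (by norm_num) (by omega)

/-- a shift by four -/
theorem Adm.shift {M K : ℕ} {t : ℝ≥0∞} (h : Adm M K t) {T : ℕ} (hT : t ≤ T) {P : Ch → Prop}
    (hP : Cls P) {m : ℕ} (hm : (M + 1) * 6 ^ 4 ≤ m) (hme : Even m) :
    Zc t P (m + 4) ≤ ((16 * T ^ 12 : ℕ) : ℝ≥0∞) * Zc t P m := by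
  have h1 := cmp_up h.hM h.ht h.htt hP m hme (pow_ok hm) 2
  refine h1.trans ?_
  have hk := h.kap2
  calc kap M ^ (2 * 2) * (t ^ (6 * 2) * Zc t P m) ≤ 2 ^ (2 * 2) * ((T : ℝ≥0∞) ^ (6 * 2) *
        Zc t P m) := by gcongr
    _ = _ := by push_cast; ring

/-- upper bound of the sum over polygons -/
theorem Adm.up1 {M K : ℕ} {t : ℝ≥0∞} (h : Adm M K t) (k : List V) (n : ℕ) :
    Zp t (KT k) n ≤ ((2 * n : ℕ) : ℝ≥0∞) * Zc t (PK k) n := by
  calc Zp t (KT k) n ≤ 2 * Zp t (KO k) n := Zp_half t k n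
    _ ≤ 2 * (t ^ 6 * Zp t (KO k) n) := by
      refine mul_le_mul_right ?_ _
      calc Zp t (KO k) n = 1 * Zp t (KO k) n := (one_mul _).symm
        _ ≤ _ := mul_le_mul_left (one_le_pow₀ h.one) _
    _ ≤ 2 * ((n : ℝ≥0∞) * Zc t (PK k) n) := mul_le_mul_right (link1 t k n) _
    _ = _ := by push_cast; ring

/-- lower bound of the sum over polygons -/
theorem Adm.low1 {M K : ℕ} {t : ℝ≥0∞} (h : Adm M K t) (k : List V) (m : ℕ) :
    ((m + 4 : ℕ) : ℝ≥0∞) * Zc t (PK k) m ≤ Zp t (KT k) (m + 4) := by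
  calc ((m + 4 : ℕ) : ℝ≥0∞) * Zc t (PK k) m ≤ ((m + 4 : ℕ) : ℝ≥0∞) *
        (t ^ 6 * Zc t (PK k) m) := by
        refine mul_le_mul_right ?_ _
        calc Zc t (PK k) m = 1 * Zc t (PK k) m := (one_mul _).symm
          _ ≤ _ := mul_le_mul_left (one_le_pow₀ h.one) _
    _ ≤ Zp t (KO k) (m + 4) := link2 t k m
    _ ≤ _ := Zp_kt t k _

theorem split4 {q n : ℕ} (hn : q + 4 ≤ n) (hne : Even n) :
    ∃ m, n = m + 4 ∧ q ≤ m ∧ Even m := by
  obtain ⟨r, hr⟩ := hne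
  exact ⟨n - 4, by omega, by omega, r - 2, by omega⟩

/-- the lower bound -/
theorem Adm.low_poly {M K : ℕ} {t : ℝ≥0∞} (h : Adm M K t) {k : List V} {N : ℕ}
    (hk : MaxN k N) : ∃ C n₀ : ℕ, ∀ n : ℕ, n₀ ≤ n → Even n →
      (n : ℝ≥0∞) ^ N * Zp t (KT sq) n ≤ C * Zp t (KT k) n := by
  obtain ⟨T, hT⟩ := h.nat
  obtain ⟨C, n₁, hC⟩ := lower h.hM h.ht h.htt N k hk
  refine ⟨5 ^ N * (32 * T ^ 12 * C), (M + 1) * 6 ^ 4 + 4 + n₁, fun n hn hne => ?_⟩
  obtain ⟨m, rfl, hm, hme⟩ := split4 (q := (M + 1) * 6 ^ 4 + n₁) (n := n)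
    (le_trans (le_of_eq (by ring)) hn) hne
  have h1 := h.up1 sq (m + 4)
  have h2 := h.shift hT cls_PK (le_trans (Nat.le_add_right _ _) hm) hme
  have h3 := hC m (le_trans (Nat.le_add_left _ _) hm) hme
  have h4 := h.low1 k m
  have h5 : ((m + 4 : ℕ) : ℝ≥0∞) ≤ 5 * (m : ℝ≥0∞) := by
    have h6 : 1 ≤ m := by
      have : 0 < (M + 1) * 6 ^ 4 + n₁ := by positivity
      omega
    have : m + 4 ≤ 5 * m := by omega
    exact_mod_cast this
  calc ((m + 4 : ℕ) : ℝ≥0∞) ^ N * Zp t (KT sq) (m + 4) ≤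
        (5 * (m : ℝ≥0∞)) ^ N * (((2 * (m + 4) : ℕ) : ℝ≥0∞) *
          (((16 * T ^ 12 : ℕ) : ℝ≥0∞) * Zc t (PK sq) m)) := by
        gcongr
        exact h1.trans (mul_le_mul_right h2 _)
    _ = ((5 ^ N * (32 * T ^ 12) : ℕ) : ℝ≥0∞) * (((m + 4 : ℕ) : ℝ≥0∞) *
          ((m : ℝ≥0∞) ^ N * Zc t (PK sq) m)) := by push_cast; ring
    _ ≤ ((5 ^ N * (32 * T ^ 12) : ℕ) : ℝ≥0∞) * (((m + 4 : ℕ) : ℝ≥0∞) *
          (C * Zc t (PK k) m)) := by gcongr
    _ = ((5 ^ N * (32 * T ^ 12 * C) : ℕ) : ℝ≥0∞) * (((m + 4 : ℕ) : ℝ≥0∞) *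
          Zc t (PK k) m) := by push_cast; ring
    _ ≤ _ := mul_le_mul_right h4 _

/-- the upper bound -/
theorem Adm.up_poly {M K : ℕ} {t : ℝ≥0∞} (h : Adm M K t) {k : List V} {N : ℕ}
    (hk : MaxN k N) : ∃ C n₀ : ℕ, ∀ n : ℕ, n₀ ≤ n → Even n →
      Zp t (KT k) n ≤ C * ((n : ℝ≥0∞) ^ N * Zp t (KT sq) n) := by
  obtain ⟨T, hT⟩ := h.nat
  refine ⟨32 * T ^ 12 * ((16 * K + 17) * T ^ 6 * 2) ^ N, (M + 1) * 6 ^ 4 + 4,
    fun n hn hne => ?_⟩
  obtain ⟨m, rfl, hm, hme⟩ := split4 hn hne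
  have hnn : (M + 1) * 6 ^ 4 ≤ m + 4 := hm.trans (Nat.le_add_right _ _)
  have h1 := h.up1 k (m + 4)
  have h2 : Zc t (PK k) (m + 4) ≤ Zc t (PQ N) (m + 4) :=
    Zc_mono t (fun c hc hc' => pk_le hk c hc hc') _
  have h3 := upper h.hM h.ht h.htt h.hK h.hκ (m + 4) hne (pow_ok hnn) N
  have h4 : Zc t (PQ 0) (m + 4) ≤ Zc t (PK sq) (m + 4) :=
    Zc_mono t (fun c hc hc' => pq0 c hc hc') _
  have h5 := h.shift hT cls_PK hm hme
  have h6 := h.low1 sq m
  have h7 : ((m + 4 + 1 : ℕ) : ℝ≥0∞) ≤ 2 * ((m + 4 : ℕ) : ℝ≥0∞) := by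
    have : m + 4 + 1 ≤ 2 * (m + 4) := by omega
    exact_mod_cast this
  calc Zp t (KT k) (m + 4) ≤ ((2 * (m + 4) : ℕ) : ℝ≥0∞) *
        ((((16 * K + 17 : ℕ) : ℝ≥0∞) * (T : ℝ≥0∞) ^ 6 * (2 * ((m + 4 : ℕ) : ℝ≥0∞))) ^ N *
        (((16 * T ^ 12 : ℕ) : ℝ≥0∞) * Zc t (PK sq) m)) := by
        refine h1.trans (mul_le_mul_right ((h2.trans h3).trans ?_) _)
        gcongr
        exact h4.trans h5
    _ = ((32 * T ^ 12 * ((16 * K + 17) * T ^ 6 * 2) ^ N : ℕ) : ℝ≥0∞) *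
        (((m + 4 : ℕ) : ℝ≥0∞) ^ N * (((m + 4 : ℕ) : ℝ≥0∞) * Zc t (PK sq) m)) := by
        have e : ((16 * K + 17 : ℕ) : ℝ≥0∞) * (T : ℝ≥0∞) ^ 6 * (2 * ((m + 4 : ℕ) : ℝ≥0∞)) =
          (((16 * K + 17) * T ^ 6 * 2 : ℕ) : ℝ≥0∞) * ((m + 4 : ℕ) : ℝ≥0∞) := by
          push_cast; ring
        rw [e, mul_pow]
        push_cast
        ring
    _ ≤ _ := by gcongr

/-- the unknot and the chains with fixed caps -/
theorem Adm.unknot {M K : ℕ} {t : ℝ≥0∞} (h : Adm M K t) : ∃ C n₀ : ℕ, ∀ n : ℕ, n₀ ≤ n →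
    Even n → Zc t PY n ≤ C * Zp t (KT sq) n ∧ Zp t (KT sq) n ≤ C * (n * Zc t PY n) := by
  obtain ⟨T, hT⟩ := h.nat
  obtain ⟨C, n₁, hC⟩ := caps h.hM h.ht h.htt
  refine ⟨16 * T ^ 12 + 2 * C, (M + 1) * 6 ^ 4 + 4 + n₁, fun n hn hne => ⟨?_, ?_⟩⟩
  · obtain ⟨m, rfl, hm, hme⟩ := split4 (q := (M + 1) * 6 ^ 4) (n := n)
      (le_trans (Nat.le_add_right _ _) hn) hne
    have h1 : Zc t PY (m + 4) ≤ Zc t (PK sq) (m + 4) := Zc_mono t (fun c _ hc => hc.2) _
    have h2 := h.shift hT cls_PK hm hme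
    have h3 := h.low1 sq m
    calc Zc t PY (m + 4) ≤ ((16 * T ^ 12 : ℕ) : ℝ≥0∞) * Zc t (PK sq) m := h1.trans h2
      _ = ((16 * T ^ 12 : ℕ) : ℝ≥0∞) * (1 * Zc t (PK sq) m) := by rw [one_mul]
      _ ≤ ((16 * T ^ 12 + 2 * C : ℕ) : ℝ≥0∞) * (((m + 4 : ℕ) : ℝ≥0∞) * Zc t (PK sq) m) := by
        gcongr
        · omega
        · exact_mod_cast (by omega : 1 ≤ m + 4)
      _ ≤ _ := mul_le_mul_right h3 _
  · have h1 := h.up1 sq n
    have h2 := hC n (le_trans (Nat.le_add_left _ _) hn) hne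
    calc Zp t (KT sq) n ≤ ((2 * n : ℕ) : ℝ≥0∞) * (C * Zc t PY n) :=
          h1.trans (mul_le_mul_right h2 _)
      _ = ((2 * C : ℕ) : ℝ≥0∞) * (n * Zc t PY n) := by push_cast; ring
      _ ≤ _ := by
        gcongr
        omega

/-! ### real sums -/

/-- the weighted sum over closed words with real weights -/
def Sr (y : ℝ) (k : List V) (n : ℕ) : ℝ := ∑ w ∈ K (KT k) n, y ^ xt w

theorem Sr_nonneg {y : ℝ} (hy : 0 ≤ y) (k : List V) (n : ℕ) : 0 ≤ Sr y k n :=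
  sum_nonneg fun _ _ => pow_nonneg hy _

theorem Zp_real {y : ℝ} (hy : 0 < y) {t : ℝ≥0∞} (ht : t ^ 6 = ENNReal.ofReal y) (k : List V)
    (n : ℕ) : Zp t (KT k) n = ENNReal.ofReal (Sr y k n) := by
  unfold Zp Sr
  rw [ENNReal.ofReal_sum_of_nonneg (fun _ _ => pow_nonneg hy.le _)]
  refine sum_congr rfl fun w _ => ?_
  rw [pow_mul, ht, ENNReal.ofReal_pow hy.le]

theorem le_real {a b : ℝ} (ha : 0 ≤ a) (hb : 0 ≤ b) {C D : ℕ}
    (h : (D : ℝ≥0∞) * ENNReal.ofReal a ≤ (C : ℝ≥0∞) * ENNReal.ofReal b) : D * a ≤ C * b := by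
  rw [← ENNReal.ofReal_natCast, ← ENNReal.ofReal_natCast, ← ENNReal.ofReal_mul (by positivity),
    ← ENNReal.ofReal_mul (by positivity)] at h
  exact (ENNReal.ofReal_le_ofReal_iff (by positivity)).1 h

/-- roots and polynomial factors -/
theorem root_lim {a b : ℕ → ℝ} {μ : ℝ} (hμ : 0 < μ) {C : ℝ} (hC : 0 < C) (p : ℕ)
    (ha : ∀ᶠ j in atTop, 0 < a j)
    (h1 : ∀ᶠ j : ℕ in atTop, a j ≤ C * ((2 * j : ℝ) ^ p * b j))
    (h2 : ∀ᶠ j : ℕ in atTop, b j ≤ C * ((2 * j : ℝ) ^ p * a j))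
    (h : Tendsto (fun j : ℕ => a j ^ ((1 : ℝ) / (2 * j))) atTop (𝓝 μ)) :
    Tendsto (fun j : ℕ => b j ^ ((1 : ℝ) / (2 * j))) atTop (𝓝 μ) := by
  have hj2 : Tendsto (fun j : ℕ => (2 * j : ℝ)) atTop atTop :=
    tendsto_natCast_atTop_atTop.const_mul_atTop (by norm_num)
  have hlog : Tendsto (fun j : ℕ => Real.log (a j) / (2 * j)) atTop (𝓝 (Real.log μ)) := by
    refine ((Real.continuousAt_log hμ.ne').tendsto.comp h).congr' ?_
    filter_upwards [ha] with j hj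
    simp only [Function.comp_apply]
    rw [Real.log_rpow hj]
    ring
  have herr : Tendsto (fun j : ℕ => Real.log C / (2 * j : ℝ) +
      p * (Real.log (2 * j) / (2 * j))) atTop (𝓝 0) := by
    have e1 : Tendsto (fun x : ℝ => Real.log x / x) atTop (𝓝 0) :=
      Real.isLittleO_log_id_atTop.tendsto_div_nhds_zero
    have e2 := (e1.comp hj2).const_mul (p : ℝ)
    have e3 : Tendsto (fun j : ℕ => Real.log C / (2 * j : ℝ)) atTop (𝓝 0) :=
      hj2.const_div_atTop _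
    have := e3.add e2
    simpa using this
  have hb : ∀ᶠ j in atTop, 0 < b j := by
    filter_upwards [ha, h1, eventually_gt_atTop 0] with j hj hj1 hj0
    by_contra hn
    push Not at hn
    have h0 : (0 : ℝ) < (2 * j : ℝ) ^ p := by positivity
    have : C * ((2 * j : ℝ) ^ p * b j) ≤ 0 :=
      mul_nonpos_of_nonneg_of_nonpos hC.le (mul_nonpos_of_nonneg_of_nonpos h0.le hn)
    linarith
  have hlogb : Tendsto (fun j : ℕ => Real.log (b j) / (2 * j)) atTop (𝓝 (Real.log μ)) := by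
    have hl := hlog.sub herr
    have hu := hlog.add herr
    rw [sub_zero] at hl
    rw [add_zero] at hu
    refine tendsto_of_tendsto_of_tendsto_of_le_of_le' hl hu ?_ ?_
    · filter_upwards [ha, hb, h1, eventually_gt_atTop 0] with j hj hjb hj1 hj0
      have hj0' : (0 : ℝ) < 2 * j := by positivity
      have h3 := Real.log_le_log hj hj1
      rw [Real.log_mul hC.ne' (by positivity), Real.log_mul (by positivity) hjb.ne',
        Real.log_pow] at h3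
      have h4 : Real.log (a j) - (Real.log C + p * Real.log (2 * j)) ≤ Real.log (b j) := by
        linarith
      have h5 := div_le_div_of_nonneg_right h4 hj0'.le
      refine le_trans (le_of_eq ?_) h5
      ring
    · filter_upwards [ha, hb, h2, eventually_gt_atTop 0] with j hj hjb hj1 hj0
      have hj0' : (0 : ℝ) < 2 * j := by positivity
      have h3 := Real.log_le_log hjb hj1
      rw [Real.log_mul hC.ne' (by positivity), Real.log_mul (by positivity) hj.ne',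
        Real.log_pow] at h3
      have h4 : Real.log (b j) ≤ Real.log (a j) + (Real.log C + p * Real.log (2 * j)) := by
        linarith
      have h5 := div_le_div_of_nonneg_right h4 hj0'.le
      refine h5.trans (le_of_eq ?_)
      ring
  have hexp := (Real.continuous_exp.tendsto (Real.log μ)).comp hlogb
  rw [Real.exp_log hμ] at hexp
  refine hexp.congr' ?_
  filter_upwards [hb] with j hj
  simp only [Function.comp_apply]
  rw [Real.rpow_def_of_pos hj]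
  congr 1
  ring

/-- the growth rate of the chains with fixed caps -/
theorem Adm.growth {M K : ℕ} {t : ℝ≥0∞} (h : Adm M K t) : ∃ μ : ℝ, 0 < μ ∧
    (∀ j : ℕ, 0 < (Zc t PY (2 * j)).toReal) ∧
    Tendsto (fun j : ℕ => (Zc t PY (2 * j)).toReal ^ ((1 : ℝ) / (2 * j))) atTop (𝓝 μ) := by
  have ht1 := h.one
  have hfin : ∀ n, Zc t PY n ≠ ⊤ := fun n => Zc_ne_top ht1 h.htt _ n
  set A : ℕ → ℝ := fun j => (Zc t PY (2 * j)).toReal with hA
  have hA1 : ∀ j, 1 ≤ A j := by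
    intro j
    have h1 : (1 : ℝ≥0∞) ≤ Zc t PY (2 * j) := (one_le_pow₀ ht1).trans (Zc_ge t cls_PY j)
    have := ENNReal.toReal_mono (hfin _) h1
    simpa [hA] using this
  have hApos : ∀ j, 0 < A j := fun j => lt_of_lt_of_le one_pos (hA1 j)
  have hsup : ∀ i j, A i * A j ≤ A (i + j) := by
    intro i j
    have h1 := super t (2 * i) (2 * j)
    rw [← mul_add] at h1
    have h2 := ENNReal.toReal_mono (hfin _) h1
    rw [ENNReal.toReal_mul] at h2
    exact h2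
  have hub : ∀ j, A j ≤ 6 ^ (2 * j + 4) * t.toReal ^ (3 * (2 * j)) := by
    intro j
    have h1 := Zc_le ht1 PY (2 * j)
    have h2 := ENNReal.toReal_mono (ENNReal.mul_ne_top (ENNReal.pow_ne_top (by norm_num))
      (ENNReal.pow_ne_top h.htt)) h1
    rw [ENNReal.toReal_mul, ENNReal.toReal_pow, ENNReal.toReal_pow] at h2
    simpa using h2
  have htr : 1 ≤ t.toReal := by
    have := ENNReal.toReal_mono h.htt ht1
    simpa using this
  have hsub : Subadditive (fun j => - Real.log (A j)) := by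
    intro i j
    have h1 := Real.log_le_log (mul_pos (hApos i) (hApos j)) (hsup i j)
    rw [Real.log_mul (hApos i).ne' (hApos j).ne'] at h1
    linarith
  have hbdd : BddBelow (Set.range fun j : ℕ => - Real.log (A j) / j) := by
    refine ⟨-(6 * Real.log 6 + 6 * Real.log t.toReal), ?_⟩
    rintro x ⟨j, rfl⟩
    simp only
    rcases Nat.eq_zero_or_pos j with rfl | hj
    · have : 0 ≤ Real.log 6 := Real.log_nonneg (by norm_num)
      have : 0 ≤ Real.log t.toReal := Real.log_nonneg htr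
      simp only [Nat.cast_zero, div_zero]
      linarith
    · have hj0 : (0 : ℝ) < j := by exact_mod_cast hj
      have hj1 : (1 : ℝ) ≤ j := by exact_mod_cast hj
      rw [le_div_iff₀ hj0]
      have h1 := Real.log_le_log (hApos j) (hub j)
      rw [Real.log_mul (by positivity) (by positivity), Real.log_pow, Real.log_pow] at h1
      push_cast at h1
      have h6 : 0 ≤ Real.log 6 := Real.log_nonneg (by norm_num)
      have ht0 : 0 ≤ Real.log t.toReal := Real.log_nonneg htr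
      nlinarith
  have hlim := hsub.tendsto_lim hbdd
  refine ⟨Real.exp (-hsub.lim / 2), Real.exp_pos _, hApos, ?_⟩
  have h1 : Tendsto (fun j : ℕ => Real.log (A j) / (2 * j)) atTop (𝓝 (-hsub.lim / 2)) := by
    have h2 := (hlim.neg).div_const 2
    refine h2.congr fun j => ?_
    field_simp
  have h2 := (Real.continuous_exp.tendsto _).comp h1
  refine h2.congr fun j => ?_
  simp only [Function.comp_apply]
  rw [Real.rpow_def_of_pos (hApos j)]
  congr 1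
  ring

end

end KN.ST
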