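import Pool.Agent.H132.ST.Basic
import Pool.Graph.R_seed8.TH296.KQ.Main

/-!
# Stretched polygons: adding a straight layer does not change the knot type
-/

set_option autoImplicit false

namespace KN.ST

open KN

noncomputable section

theorem edge_form (w : List Dir) (hw : SAP w) : ∀ e ∈ edges (vl w), ∃ (p : Z3) (u : Dir),
    e = (emb p, emb (p + vec u)) := by
  obtain ⟨hlen, hpos, hnd⟩ := hw
  cases w with
  | nil => simp at hlen
  | cons d w =>
    simp only [pos] at hpos
    have hvl : vl (d :: w) = (path w).map emb := rfl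
    rw [hvl]
    set n := w.length + 1 with hn
    have hL : (path w).length = n := path_length w
    intro e he
    obtain ⟨i, hi, rfl⟩ := List.getElem_of_mem he
    have hi2 : i < n := by
      rw [edges_length, List.length_map, hL] at hi
      exact hi
    have hg : ∀ j, ((path w).map emb).getD j 0 = emb (pos (w.drop j)) := by
      intro j
      rw [← SIM.emb_zero, List.getD_map, SIM.path_getD]
    rw [SIM.edges_getD, List.length_map, hL, hg, hg]
    rcases Nat.lt_or_ge (i + 1) n with h | h
    · refine ⟨pos (w.drop i), neg (w.getD i .xp), ?_⟩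
      rw [Nat.mod_eq_of_lt h]
      have := pos_drop w i (by omega)
      rw [this, vec_neg, add_neg_cancel_right]
    · have h2 : i = w.length := by omega
      refine ⟨pos (w.drop i), neg d, ?_⟩
      have : i + 1 = n := by omega
      rw [this, Nat.mod_self, h2]
      simp only [List.drop_zero, List.drop_length, pos, vec_neg, zero_add]
      rw [eq_neg_of_add_eq_zero_left hpos]

theorem simple_map (F : V → V) (hF : Function.Injective F) (l : List V) (hl : Simple l)
    (h : ∀ e ∈ edges l, ∀ u : ℝ, 0 ≤ u → u < 1 → lerp (F e.1) (F e.2) u = F (lerp e.1 e.2 u)) :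
    Simple (l.map F) := by
  obtain ⟨h1, h2, h3⟩ := hl
  refine ⟨by simpa using h1, ?_, ?_⟩
  · rw [edges_map, List.pairwise_map]
    refine h2.imp_of_mem ?_
    intro e e' he he' hd u v hu hu' hv hv' heq
    simp only at heq
    rw [h e he u hu hu', h e' he' v hv hv'] at heq
    exact hd u v hu hu' hv hv' (hF heq)
  · intro e he
    rw [edges_map, List.mem_map] at he
    obtain ⟨e', he', rfl⟩ := he
    intro heq
    exact h3 e' he' (hF heq)

/-- the stretching of the slab `-1 ≤ x ≤ 0` -/
def ph (t x : ℝ) : ℝ := x + t * max 0 (min 1 (x + 1))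

theorem ph_low {t x : ℝ} (h : x ≤ -1) : ph t x = x := by
  unfold ph
  rw [min_eq_right (by linarith), max_eq_left (by linarith)]
  ring

theorem ph_mid {t x : ℝ} (h : -1 ≤ x) (h' : x ≤ 0) : ph t x = x + t * (x + 1) := by
  unfold ph
  rw [min_eq_right (by linarith), max_eq_right (by linarith)]

theorem ph_high {t x : ℝ} (h : 0 ≤ x) : ph t x = x + t := by
  unfold ph
  rw [min_eq_left (by linarith), max_eq_right (by linarith)]
  ring

theorem ph_strictMono {t : ℝ} (ht : 0 ≤ t) : StrictMono (ph t) := by
  intro x y hxy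
  unfold ph
  have : max 0 (min 1 (x + 1)) ≤ max 0 (min 1 (y + 1)) :=
    max_le_max le_rfl (min_le_min le_rfl (by linarith))
  have := mul_le_mul_of_nonneg_left this ht
  linarith

def Fs (t : ℝ) (p : V) : V := (ph t p.1, p.2)

theorem Fs_inj {t : ℝ} (ht : 0 ≤ t) : Function.Injective (Fs t) := by
  intro p q h
  unfold Fs at h
  simp only [Prod.mk.injEq] at h
  exact Prod.ext ((ph_strictMono ht).injective h.1) h.2

theorem Fs_lerp (t : ℝ) (p : Z3) (u : Dir) (s : ℝ) (hs : 0 ≤ s) (hs' : s < 1) :
    lerp (Fs t (emb p)) (Fs t (emb (p + vec u))) s = Fs t (lerp (emb p) (emb (p + vec u)) s) := by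
  have key : (1 - s) * ph t (p.1 : ℝ) + s * ph t ((p.1 + (vec u).1 : ℤ) : ℝ) =
      ph t ((1 - s) * (p.1 : ℝ) + s * ((p.1 + (vec u).1 : ℤ) : ℝ)) := by
    rcases (SIM.vec_cases u).1 with h | h | h
    · rw [h]
      rcases lt_trichotomy p.1 0 with h1 | h1 | h1
      · have h2 : (p.1 : ℝ) ≤ -1 := by exact_mod_cast (by omega : p.1 ≤ -1)
        push_cast
        rw [ph_low h2, ph_low (by linarith), ph_low (by nlinarith)]
      · rw [h1]
        push_cast
        rw [ph_high le_rfl, ph_mid (x := (-1 : ℝ)) (by norm_num) (by norm_num),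
          ph_mid (x := (1 - s) * 0 + s * (-1)) (by nlinarith) (by nlinarith)]
        ring
      · have h2 : (1 : ℝ) ≤ (p.1 : ℝ) := by exact_mod_cast (by omega : 1 ≤ p.1)
        push_cast
        rw [ph_high (by linarith : (0 : ℝ) ≤ (p.1 : ℝ)), ph_high (by linarith),
          ph_high (by nlinarith)]
        ring
    · rw [h]
      simp only [add_zero]
      have e1 : (1 - s) * (p.1 : ℝ) + s * (p.1 : ℝ) = p.1 := by ring
      rw [e1]
      ring
    · rw [h]
      rcases lt_trichotomy p.1 (-1) with h1 | h1 | h1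
      · have h2 : (p.1 : ℝ) ≤ -2 := by exact_mod_cast (by omega : p.1 ≤ -2)
        push_cast
        rw [ph_low (by linarith : (p.1 : ℝ) ≤ -1), ph_low (by linarith), ph_low (by nlinarith)]
      · rw [h1]
        push_cast
        rw [ph_low le_rfl, ph_mid (x := (0 : ℝ)) (by norm_num) (by norm_num),
          ph_mid (x := (1 - s) * (-1) + s * 0) (by nlinarith) (by nlinarith)]
        ring
      · have h2 : (0 : ℝ) ≤ (p.1 : ℝ) := by exact_mod_cast (by omega : 0 ≤ p.1)
        push_cast
        rw [ph_high h2, ph_high (by linarith), ph_high (by nlinarith)]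
        ring
  unfold Fs lerp emb
  ext
  · simpa using key
  · simp
  · simp

theorem stretch (w : List Dir) (hw : SAP w) : Simple ((vl w).map (Fs 1)) ∧
    Same (vl w) ((vl w).map (Fs 1)) := by
  have h0 := S_simple_proof w hw
  have hS : ∀ t : ℝ, 0 ≤ t → Simple ((vl w).map (Fs t)) := by
    intro t ht
    refine simple_map _ (Fs_inj ht) _ h0 ?_
    intro e he s hs hs'
    obtain ⟨p, u, rfl⟩ := edge_form w hw e he
    exact Fs_lerp t p u s hs hs'
  refine ⟨hS 1 zero_le_one, S_lin_proof _ _ (by simp) ?_⟩
  intro t ht _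
  have : List.zipWith (fun p q => lerp p q t) (vl w) ((vl w).map (Fs 1)) =
      (vl w).map (Fs t) := by
    rw [List.zipWith_map_right]
    have h2 : ∀ L : List V, List.zipWith (fun a b => lerp a (Fs 1 b) t) L L = L.map (Fs t) := by
      intro L
      induction L with
      | nil => rfl
      | cons a L ih =>
        simp only [List.zipWith_cons_cons, List.map_cons, ih]
        congr 1
        unfold lerp Fs ph
        ext
        · simp; ring
        · simp; ring
        · simp; ring
    exact h2 _
  rw [this]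
  exact hS t ht

theorem vl_poly {D : Z3} (l : List Dir) {r : List Dir} (hr : pos r = D) :
    vl (Poly l r) = (sh (D + vec .xm) (path l)).map emb ++ (path r).map emb := by
  unfold vl Poly
  rw [List.tail_cons, path_poly l hr, List.map_append]

theorem path_cons (r : List Dir) : ∃ t, path r = pos r :: t := by
  cases r with
  | nil => exact ⟨[], rfl⟩
  | cons a r => exact ⟨path r, rfl⟩

theorem path_snoc (r : List Dir) : ∃ t, path r = t ++ [0] := by
  refine ⟨(path r).dropLast, ?_⟩
  have h := List.dropLast_append_getLast (path_ne_nil r)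
  rw [path_getLast] at h
  exact h.symm

theorem emb_add (p q : Z3) : emb (p + q) = emb p + emb q := GL1.emb_add p q

/-- adding a straight layer -/
theorem layer {D : Z3} {l r : List Dir} (hl : LA D l) (hr : RA D r) :
    Same (vl (Poly l r)) (vl (Poly l (Rw1 ([], []) r))) := by
  have hP := sap_poly hl hr
  obtain ⟨hS, h1⟩ := stretch _ hP
  refine h1.trans ?_
  have hpr : pos (Rw1 ([], []) r) = D := by
    rw [pos_Rw1, hr.en]; simp [pos]
  have e2 : path (Rw1 ([], []) r) = [D] ++ (sh (vec .xp) (path r) ++ [0]) := by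
    rw [path_Rw1 hr.en]
    simp [pos, path, sh]
  have e0 : (vl (Poly l r)).map (Fs 1) = (sh (D + vec .xm) (path l)).map emb ++
      (sh (vec .xp) (path r)).map emb := by
    rw [vl_poly l hr.en, List.map_append]
    congr 1
    · rw [List.map_map]
      apply List.map_congr_left
      intro p hp
      have := hl.le _ (mem_sh.1 hp)
      have h0 := hr.h0
      simp only [Prod.fst_sub, Prod.fst_add, vec] at this
      have h3 : (p.1 : ℝ) ≤ -1 := by exact_mod_cast (by omega : p.1 ≤ -1)
      simp only [Function.comp, Fs, emb]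
      rw [ph_low h3]
    · unfold sh
      rw [List.map_map, List.map_map]
      apply List.map_congr_left
      intro p hp
      have := hr.ge _ hp
      have h3 : (0 : ℝ) ≤ (p.1 : ℝ) := by exact_mod_cast this
      simp only [Function.comp, Fs, emb]
      rw [ph_high h3]
      simp [vec]
  rw [vl_poly l hpr, e2]
  rw [e0] at hS ⊢
  obtain ⟨a1, ha1⟩ := path_snoc l
  obtain ⟨b1, hb1⟩ := path_cons r
  obtain ⟨a2, ha2⟩ := path_cons l
  obtain ⟨b2, hb2⟩ := path_snoc r
  set A := (sh (D + vec .xm) (path l)).map emb with hA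
  set B := (sh (vec .xp) (path r)).map emb with hB
  have hA1 : A = (sh (D + vec .xm) a1).map emb ++ [emb (D + vec .xm)] := by
    rw [hA, ha1, sh_append]
    simp [sh]
  have hB1 : B = emb (D + vec .xp) :: (sh (vec .xp) b1).map emb := by
    rw [hB, hb1, hr.en]
    simp [sh]
  have hA2 : A = emb (vec .xm) :: (sh (D + vec .xm) a2).map emb := by
    rw [hA, ha2, hl.en]
    simp [sh]
  have hB2 : B = (sh (vec .xp) b2).map emb ++ [emb (vec .xp)] := by
    rw [hB, hb2, sh_append]
    simp [sh]
  have hss : ([1 / 2] : List ℝ).Pairwise (fun s t => s < t) := by simp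
  have hss' : ∀ s ∈ ([1 / 2] : List ℝ), 0 < s ∧ s < 1 := by
    intro s hs
    rw [List.mem_singleton] at hs
    subst hs
    norm_num
  -- first subdivision
  have s1 := c_sub ((sh (D + vec .xm) a1).map emb) ((sh (vec .xp) b1).map emb)
    (emb (D + vec .xm)) (emb (D + vec .xp)) [1 / 2] hss hss'
  have l1 : lerp (emb (D + vec .xm)) (emb (D + vec .xp)) (1 / 2) = emb D := by
    unfold lerp emb
    ext
    · simp [vec]; ring
    · simp [vec]; ring
    · simp [vec]; ring
  rw [List.map_singleton, l1] at s1
  have f1 : (sh (D + vec .xm) a1).map emb ++ emb (D + vec .xm) :: emb (D + vec .xp) ::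
      (sh (vec .xp) b1).map emb = A ++ B := by
    rw [hA1, hB1]; simp
  have f2 : (sh (D + vec .xm) a1).map emb ++ emb (D + vec .xm) :: [emb D] ++
      emb (D + vec .xp) :: (sh (vec .xp) b1).map emb = A ++ ([emb D] ++ B) := by
    rw [hA1, hB1]; simp
  rw [f1, f2] at s1
  refine (s1.2 hS).trans ?_
  have hS2 := s1.1.1 hS
  obtain ⟨hS3, g3⟩ := S_rot_proof _ _ hS2
  refine g3.trans ?_
  -- second subdivision
  have s2 := c_sub ([emb D] ++ (sh (vec .xp) b2).map emb) ((sh (D + vec .xm) a2).map emb)
    (emb (vec .xp)) (emb (vec .xm)) [1 / 2] hss hss'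
  have l2 : lerp (emb (vec .xp)) (emb (vec .xm)) (1 / 2) = emb 0 := by
    unfold lerp emb
    ext
    · simp [vec]; ring
    · simp [vec]
    · simp [vec]
  rw [List.map_singleton, l2] at s2
  have f3 : ([emb D] ++ (sh (vec .xp) b2).map emb) ++ emb (vec .xp) :: emb (vec .xm) ::
      (sh (D + vec .xm) a2).map emb = ([emb D] ++ B) ++ A := by
    rw [hA2, hB2]; simp
  have f4 : ([emb D] ++ (sh (vec .xp) b2).map emb) ++ emb (vec .xp) :: [emb 0] ++
      emb (vec .xm) :: (sh (D + vec .xm) a2).map emb = ([emb D] ++ B ++ [emb 0]) ++ A := by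
    rw [hA2, hB2]; simp
  rw [f3, f4] at s2
  refine (s2.2 hS3).trans ?_
  obtain ⟨-, g4⟩ := S_rot_proof _ _ (s2.1.1 hS3)
  refine g4.trans ?_
  rw [hB]
  simp only [List.map_append, List.map_cons, List.map_nil, List.append_assoc]
  exact Same.refl _

end

end KN.ST
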