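import Pool.Agent.H132.ST.Link2

/-!
# Stretched polygons: chains with fixed caps and their growth rate
-/

set_option autoImplicit false

namespace KN.ST

open KN KN.KQ Finset Filter Topology
open scoped Classical ENNReal

noncomputable section

/-- unknotted chains with the caps `yp, yp` -/
def PY (c : Ch) : Prop := c.1 = (.yp, .yp) ∧ PK sq c

theorem cls_PY : Cls PY :=
  ⟨fun e bs cs hg => ⟨fun h => ⟨h.1, (cls_PK.inv e bs cs hg).1 h.2⟩,
    fun h => ⟨h.1, (cls_PK.inv e bs cs hg).2 h.2⟩⟩, fun m => ⟨rfl, cls_PK.st m⟩⟩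

theorem ln_eq_zero {l : List Blk} (h : ln l = 0) : l = [] := by
  have := ln_eq l
  exact List.length_eq_zero_iff.1 (by omega)

theorem cut_unique {p q p' q' : List Blk} (h : p ++ q = p' ++ q') (hl : ln p = ln p') :
    p = p' ∧ q = q' := by
  rcases List.append_eq_append_iff.1 h with ⟨r, h1, h2⟩ | ⟨r, h1, h2⟩
  · rw [h1, ln_append] at hl
    have := ln_eq_zero (l := r) (by omega)
    subst this
    simp only [List.append_nil] at h1
    exact ⟨h1.symm, by simpa using h2⟩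
  · rw [h1, ln_append] at hl
    have := ln_eq_zero (l := r) (by omega)
    subst this
    simp only [List.append_nil] at h1
    exact ⟨h1, by simpa using h2.symm⟩

theorem good_append {e1 e e2 : Dir} {bs cs : List Blk} (h : Good ((e1, e), bs))
    (h' : Good ((e, e2), cs)) : Good ((e1, e2), bs ++ cs) := by
  refine ⟨h.l0, h'.l1, vc_append.2 ⟨_, h.vc, h'.vc⟩, ?_⟩
  intro b hb
  rcases List.mem_append.1 hb with hb | hb
  · exact h.ir b hb
  · exact h'.ir b hb

/-- the type of a composed chain -/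
theorem isSum_append {e1 e e2 : Dir} {bs cs : List Blk} (h : Good ((e1, e), bs))
    (h' : Good ((e, e2), cs)) : IsSum (vl (wrd ((e1, e), bs))) (vl (wrd ((e, e2), cs)))
      (vl (wrd ((e1, e2), bs ++ cs))) := by
  have hl : LA (vec e) (extL [neg e1] bs) := h.vc.la (la_one h.l0)
  have hr : RA (vec e) (Rw cs [e2]) := h'.vc.ra (pa_one h'.l1).ra
  have h1 := cut hl hr (pa_one h.l1)
  have h2 := wrd_ext (c := ((e1, e2), bs ++ cs)) rfl h.l0 h'.l1 h.vc h'.vc
  have h3 := extL_same (la_one h.l0) h.vc (pa_one h.l1).ra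
  exact isSum_congr h1 h3.symm (Same.refl _) h2.symm

theorem pk_append {e1 e e2 : Dir} {bs cs : List Blk} (h : Good ((e1, e), bs))
    (h' : Good ((e, e2), cs)) {k : List V} (hk : PK k ((e1, e), bs)) (hk' : PK sq ((e, e2), cs)) :
    PK k ((e1, e2), bs ++ cs) :=
  (right_unit (isSum_append h h') hk').trans hk

theorem pk_append' {e1 e e2 : Dir} {bs cs : List Blk} (h : Good ((e1, e), bs))
    (h' : Good ((e, e2), cs)) {k : List V} (hk : PK sq ((e1, e), bs)) (hk' : PK k ((e, e2), cs)) :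
    PK k ((e1, e2), bs ++ cs) :=
  (left_unit (isSum_append h h') hk).trans hk'

/-- supermultiplicativity -/
theorem super (t : ℝ≥0∞) (n m : ℕ) : Zc t PY n * Zc t PY m ≤ Zc t PY (n + m) := by
  have h1 : Zc t PY n * Zc t PY m = ∑' x : Ch × Ch,
      ((if Good x.1 ∧ ln x.1.2 = n ∧ PY x.1 then t ^ (6 * sp x.1.2) else 0) *
        (if Good x.2 ∧ ln x.2.2 = m ∧ PY x.2 then t ^ (6 * sp x.2.2) else 0)) := by
    have h0 := ENNReal.tsum_prod (f := fun (a b : Ch) =>
      (if Good a ∧ ln a.2 = n ∧ PY a then t ^ (6 * sp a.2) else 0) *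
        (if Good b ∧ ln b.2 = m ∧ PY b then t ^ (6 * sp b.2) else 0))
    refine Eq.trans ?_ h0.symm
    unfold Zc
    refine ENNReal.tsum_mul_right.symm.trans (tsum_congr fun c => ?_)
    exact ENNReal.tsum_mul_left.symm
  rw [h1]
  have sp1 : ∀ {x : Ch × Ch}, ((if Good x.1 ∧ ln x.1.2 = n ∧ PY x.1 then
      t ^ (6 * sp x.1.2) else 0) * (if Good x.2 ∧ ln x.2.2 = m ∧ PY x.2 then
      t ^ (6 * sp x.2.2) else 0) : ℝ≥0∞) ≠ 0 → (Good x.1 ∧ ln x.1.2 = n ∧ PY x.1) ∧
      (Good x.2 ∧ ln x.2.2 = m ∧ PY x.2) := by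
    intro x h
    refine ⟨?_, ?_⟩
    · by_contra hn
      exact h (by rw [if_neg hn, zero_mul])
    · by_contra hn
      exact h (by rw [if_neg hn, mul_zero])
  refine tsum_le_of_inj _ _ (fun x => ((.yp, .yp), x.1.2 ++ x.2.2)) ?_ ?_
  · rintro ⟨⟨e, p⟩, ⟨f, q⟩⟩ ⟨⟨e', p'⟩, ⟨f', q'⟩⟩ hx hx' he
    obtain ⟨a1, a2⟩ := sp1 hx
    obtain ⟨b1, b2⟩ := sp1 hx'
    simp only [Prod.mk.injEq] at he
    obtain ⟨h3, h4⟩ := cut_unique he.2 (a1.2.1.trans b1.2.1.symm)
    have e1 := a1.2.2.1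
    have e2 := a2.2.2.1
    have e3 := b1.2.2.1
    have e4 := b2.2.2.1
    simp only at e1 e2 e3 e4 h3 h4
    rw [e1, e2, e3, e4, h3, h4]
  · rintro ⟨⟨e, p⟩, ⟨f, q⟩⟩ hx
    obtain ⟨a1, a2⟩ := sp1 hx
    have e1 := a1.2.2.1
    have e2 := a2.2.2.1
    simp only at e1 e2
    subst e1 e2
    rw [if_pos a1, if_pos a2, if_pos, ← pow_add]
    · simp only [sp_append]
      exact le_of_eq (by congr 1; ring)
    · refine ⟨good_append a1.1 a2.1, ?_, rfl, pk_append a1.1 a2.1 a1.2.2.2 a2.2.2.2⟩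
      have := a1.2.1
      have := a2.2.1
      simp only [ln_append] at *
      omega

/-- connecting chains -/
theorem conn (e f : Dir) (he : Lat e) (hf : Lat f) : ∃ F : List Blk, Good ((e, f), F) ∧
    PK sq ((e, f), F) := by
  obtain ⟨vs, h1, -⟩ := pth_exists (D := vec e) (D' := vec f) he.x hf.x (vec_ne _) (vec_ne _)
  have key : ∀ (vs : List Dir) (D D' : Z3), D.1 = 0 → D ≠ 0 → PthOK D vs D' →
      ∃ F : List Blk, VC D F D' ∧ nb D F = 0 ∧ ∀ b ∈ F, Irr b := by
    intro vs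
    induction vs with
    | nil => intro D D' _ _ h; exact ⟨[], h, rfl, fun b hb => by simp at hb⟩
    | cons v vs ih =>
      intro D D' h0 hD h
      obtain ⟨g1, g2⟩ := vc_grp (K := 1) (i := 0) h0 hD h.1 h.2.1
      obtain ⟨-, -, -, g3⟩ := grp_data (K := 1) h.1 (i := 0) (by norm_num)
      have h0' : (D - vec v).1 = 0 := by rw [Prod.fst_sub, h0, h.1.x]; rfl
      obtain ⟨F, k1, k2, k3⟩ := ih _ _ h0' h.2.1 h.2.2
      refine ⟨grp 1 v 0 ++ F, vc_append.2 ⟨_, g1, k1⟩, ?_, ?_⟩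
      · rw [nb_append g1, g2, k2]
      · intro b hb
        rcases List.mem_append.1 hb with hb | hb
        · exact g3 b hb
        · exact k3 b hb
  obtain ⟨F, k1, k2, k3⟩ := key vs _ _ he.x (vec_ne _) h1
  have hg : Good ((e, f), F) := ⟨he, hf, k1, k3⟩
  refine ⟨F, hg, pq0 _ hg ?_⟩
  unfold PQ
  simp only
  omega

/-- all caps -/
theorem caps {M : ℕ} (hM0 : 0 < M) {t : ℝ≥0∞} (ht : 12 ^ (2 * M + 3) ≤ t) (htt : t ≠ ⊤) :
    ∃ C n₀ : ℕ, ∀ n : ℕ, n₀ ≤ n → Even n → Zc t (PK sq) n ≤ C * Zc t PY n := by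
  have ht1 : 1 ≤ t := le_trans (by exact one_le_pow₀ (by norm_num)) ht
  obtain ⟨T, hT⟩ : ∃ T : ℕ, t ≤ T := by
    obtain ⟨T, hT⟩ := ENNReal.exists_nat_gt htt
    exact ⟨T, hT.le⟩
  have hκ2 : kap M ≤ 2 := by
    unfold kap
    rw [ENNReal.div_le_iff_le_mul (Or.inl (by exact_mod_cast hM0.ne'))
      (Or.inl (ENNReal.natCast_ne_top _))]
    have : M + 1 ≤ 2 * M := by omega
    exact_mod_cast this
  have hT1 : (1 : ℝ≥0∞) ≤ T := ht1.trans hT
  -- one pair of caps
  have h1 : ∀ e : Dir × Dir, ∃ C : ℕ, ∀ n : ℕ, (M + 1) * 6 ^ 4 ≤ n → Even n →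
      ∑' bs : List Blk, (if Good (e, bs) ∧ ln bs = n ∧ PK sq (e, bs) then t ^ (6 * sp bs)
        else 0) ≤ C * Zc t PY n := by
    intro e
    by_cases hl : Lat e.1 ∧ Lat e.2
    · obtain ⟨G, hG, hG'⟩ := conn .yp e.1 (by simp [Lat]) hl.1
      obtain ⟨H, hH, hH'⟩ := conn e.2 .yp hl.2 (by simp [Lat])
      set β := ln G + ln H with hβ
      have hGe := ln_even_vc hG
      have hHe := ln_even_vc hH
      simp only at hGe hHe
      obtain ⟨j, hj⟩ : ∃ j, β = 2 * j := by
        obtain ⟨j, hj⟩ := hGe.add hHe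
        exact ⟨j, by omega⟩
      refine ⟨2 ^ (2 * j) * T ^ (6 * j), fun n hn hne => ?_⟩
      have h2 : ∑' bs : List Blk, (if Good (e, bs) ∧ ln bs = n ∧ PK sq (e, bs) then
          t ^ (6 * sp bs) else 0) ≤ Zc t PY (n + β) := by
        unfold Zc
        refine tsum_le_of_inj _ _ (fun bs => ((.yp, .yp), G ++ bs ++ H)) ?_ ?_
        · intro p q _ _ hpq
          simp only [Prod.mk.injEq, true_and, List.append_cancel_right_eq,
            List.append_cancel_left_eq] at hpq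
          exact hpq
        · intro bs hbs
          have m : Good (e, bs) ∧ ln bs = n ∧ PK sq (e, bs) := by
            by_contra hn; exact hbs (if_neg hn)
          have g1 := good_append hG (e2 := e.2) (cs := bs) m.1
          have g2 := pk_append hG (e2 := e.2) (cs := bs) m.1 hG' m.2.2
          have g3 := good_append g1 hH
          have g4 := pk_append g1 hH g2 hH'
          rw [if_pos m, if_pos]
          · refine pow_le_pow_right₀ ht1 ?_
            simp only [sp_append]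
            omega
          · refine ⟨g3, ?_, rfl, g4⟩
            have := m.2.1
            simp only [ln_append]
            omega
      refine h2.trans ?_
      have hnn : (M + 1) * 6 ^ 4 ≤ 2 ^ (n + 2) :=
        calc (M + 1) * 6 ^ 4 ≤ n := hn
          _ ≤ 2 ^ n := two_pow_ge n
          _ ≤ _ := Nat.pow_le_pow_right (by norm_num) (by omega)
      have h3 := cmp_up hM0 ht htt cls_PY n hne hnn j
      rw [hj]
      refine h3.trans ?_
      calc kap M ^ (2 * j) * (t ^ (6 * j) * Zc t PY n) ≤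
          2 ^ (2 * j) * ((T : ℝ≥0∞) ^ (6 * j) * Zc t PY n) := by gcongr
        _ = _ := by push_cast; ring
    · refine ⟨0, fun n _ _ => ?_⟩
      have : ∑' bs : List Blk, (if Good (e, bs) ∧ ln bs = n ∧ PK sq (e, bs) then
          t ^ (6 * sp bs) else 0) = 0 := by
        rw [ENNReal.tsum_eq_zero]
        intro bs
        rw [if_neg]
        rintro ⟨h, -⟩
        exact hl ⟨h.l0, h.l1⟩
      rw [this]
      exact zero_le
  choose C hC using h1
  refine ⟨∑ e : Dir × Dir, C e, (M + 1) * 6 ^ 4, fun n hn hne => ?_⟩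
  calc Zc t (PK sq) n = ∑' e : Dir × Dir, ∑' bs : List Blk, (if Good (e, bs) ∧ ln bs = n ∧
        PK sq (e, bs) then t ^ (6 * sp bs) else 0) := by
        unfold Zc
        rw [ENNReal.tsum_prod']
    _ = ∑ e : Dir × Dir, ∑' bs : List Blk, (if Good (e, bs) ∧ ln bs = n ∧
        PK sq (e, bs) then t ^ (6 * sp bs) else 0) := tsum_fintype _
    _ ≤ ∑ e : Dir × Dir, (C e : ℝ≥0∞) * Zc t PY n :=
      sum_le_sum fun e _ => hC e n hn hne
    _ = _ := by rw [← sum_mul, Nat.cast_sum]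

end

end KN.ST
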