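import Pool.Agent.H132.ST.Low2

/-!
# Stretched polygons: polygons and chains
-/

set_option autoImplicit false

namespace KN.ST

open KN KN.KQ Finset
open scoped Classical ENNReal

noncomputable section

/-- the extent in the direction of the first axis -/
def xt (w : List Dir) : ℕ :=
  ((path w).toFinset ×ˢ (path w).toFinset).sup (fun x => (x.1.1 - x.2.1).natAbs)

theorem xt_eq {w : List Dir} {lo hi : ℤ} (h : ∀ p ∈ path w, lo ≤ p.1 ∧ p.1 ≤ hi)
    (h1 : ∃ p ∈ path w, p.1 = lo) (h2 : ∃ p ∈ path w, p.1 = hi) : xt w = (hi - lo).toNat := by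
  unfold xt
  apply le_antisymm
  · refine Finset.sup_le fun x hx => ?_
    rw [mem_product, List.mem_toFinset, List.mem_toFinset] at hx
    have a1 := h _ hx.1
    have a2 := h _ hx.2
    omega
  · obtain ⟨p, hp, e1⟩ := h1
    obtain ⟨q, hq, e2⟩ := h2
    have hm : (q, p) ∈ (path w).toFinset ×ˢ (path w).toFinset := by
      rw [mem_product, List.mem_toFinset, List.mem_toFinset]
      exact ⟨hq, hp⟩
    refine le_trans ?_ (Finset.le_sup (f := fun x : Z3 × Z3 => (x.1.1 - x.2.1).natAbs) hm)
    simp only
    omega

theorem xt_range (w : List Dir) : ∃ lo hi : ℤ, (∀ p ∈ path w, lo ≤ p.1 ∧ p.1 ≤ hi) ∧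
    (∃ p ∈ path w, p.1 = lo) ∧ (∃ p ∈ path w, p.1 = hi) := by
  have hne : (path w).toFinset.Nonempty := ⟨pos w, List.mem_toFinset.2 (pos_mem_path w)⟩
  obtain ⟨p, hp, h1⟩ := Finset.exists_min_image (path w).toFinset (fun p => p.1) hne
  obtain ⟨q, hq, h2⟩ := Finset.exists_max_image (path w).toFinset (fun p => p.1) hne
  refine ⟨p.1, q.1, fun r hr => ⟨h1 r (List.mem_toFinset.2 hr), h2 r (List.mem_toFinset.2 hr)⟩,
    ⟨p, List.mem_toFinset.1 hp, rfl⟩, ⟨q, List.mem_toFinset.1 hq, rfl⟩⟩

theorem xt_shift {w w' : List Dir} (s : Z3) (h : ∀ p, p ∈ path w' ↔ p - s ∈ path w) :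
    xt w' = xt w := by
  obtain ⟨lo, hi, h1, ⟨p, hp, e1⟩, ⟨q, hq, e2⟩⟩ := xt_range w
  rw [xt_eq h1 ⟨p, hp, e1⟩ ⟨q, hq, e2⟩]
  rw [xt_eq (lo := lo + s.1) (hi := hi + s.1)]
  · congr 1
    ring
  · intro r hr
    have := h1 _ ((h r).1 hr)
    simp only [Prod.fst_sub] at this
    omega
  · refine ⟨p + s, (h _).2 (by simpa using hp), ?_⟩
    simp only [Prod.fst_add, e1]
  · refine ⟨q + s, (h _).2 (by simpa using hq), ?_⟩
    simp only [Prod.fst_add, e2]

theorem mem_path_append {u v : List Dir} {p : Z3} :
    p ∈ path (u ++ v) ↔ p - pos v ∈ path u ∨ p ∈ path v := by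
  induction u with
  | nil =>
    simp only [List.nil_append, path, List.mem_singleton]
    constructor
    · exact Or.inr
    · rintro (h | h)
      · rw [sub_eq_zero.1 h]; exact pos_mem_path v
      · exact h
  | cons a u ih =>
    simp only [List.cons_append, path, List.mem_cons, ih, pos_append]
    constructor
    · rintro (h | h | h)
      · left; left; rw [h]; abel
      · left; right; exact h
      · right; exact h
    · rintro ((h | h) | h)
      · left
        rw [sub_eq_iff_eq_add] at h
        rw [h]; abel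
      · right; left; exact h
      · right; right; exact h

theorem mem_path_swap {u v : List Dir} (h0 : pos (u ++ v) = 0) (p : Z3) :
    p ∈ path (v ++ u) ↔ p - pos u ∈ path (u ++ v) := by
  rw [mem_path_append, mem_path_append]
  rw [pos_append] at h0
  have : p - pos u - pos v = p := by
    rw [sub_sub, h0, sub_zero]
  rw [this]
  tauto

theorem mem_path_rotate {w : List Dir} (h0 : pos w = 0) {k : ℕ} (hk : k ≤ w.length) (p : Z3) :
    p ∈ path (w.rotate k) ↔ p - pos (w.take k) ∈ path w := by
  rw [List.rotate_eq_drop_append_take hk]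
  have e := List.take_append_drop k w
  have := mem_path_swap (u := w.take k) (v := w.drop k) (by rw [e]; exact h0) p
  rw [e] at this
  exact this

theorem xt_rotate {w : List Dir} (h0 : pos w = 0) {k : ℕ} (hk : k ≤ w.length) :
    xt (w.rotate k) = xt w :=
  xt_shift (pos (w.take k)) (mem_path_rotate h0 hk)

theorem path_suffix {w : List Dir} {p : Z3} (h : p ∈ path w) :
    ∃ u v, w = u ++ v ∧ p = pos v := by
  induction w with
  | nil => exact ⟨[], [], rfl, by simpa [path, pos] using h⟩
  | cons a w ih =>
    rcases List.mem_cons.1 h with h | h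
    · exact ⟨[], a :: w, rfl, h⟩
    · obtain ⟨u, v, h1, h2⟩ := ih h
      exact ⟨a :: u, v, by rw [h1]; rfl, h2⟩

/-- no immediate reversals -/
theorem no_back {u v : List Dir} {a : Dir} (h : (path (u ++ neg a :: a :: v)).Nodup) : False := by
  have h1 : (path (neg a :: a :: v)).Nodup := by
    rw [← List.append_nil u, List.append_assoc] at h
    induction u with
    | nil => simpa using h
    | cons b u ih =>
      apply ih
      simp only [List.cons_append, path, List.nodup_cons] at h
      exact h.2
  simp only [path, List.nodup_cons, vec_neg] at h1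
  apply h1.1
  have : pos (a :: v) + -vec a = pos v := by simp [pos]
  rw [this]
  exact List.mem_cons_of_mem _ (pos_mem_path v)

/-- a rotation that starts with a lateral edge in the bottom plane -/
theorem rot_exists {w : List Dir} (hw : SAP w) : ∃ k < w.length, ∃ (a : Dir) (r : List Dir),
    w.rotate k = a :: r ∧ Lat a ∧ RA (- vec a) r := by
  have hlen := hw.1
  obtain ⟨k, a, r, h1, h2, h3⟩ : ∃ (k : ℕ) (a : Dir) (r : List Dir),
      w.rotate k = a :: r ∧ Lat a ∧ ∀ p ∈ path (a :: r), 0 ≤ p.1 := by
    obtain ⟨lo, hi, g1, ⟨p, hp, e1⟩, -⟩ := xt_range w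
    obtain ⟨u, v, hw', hpv⟩ := path_suffix hp
    have hr : w.rotate u.length = v ++ u := by
      rw [hw', List.rotate_append_length_eq]
    have h0 : pos (u ++ v) = 0 := by rw [← hw']; exact hw.2.1
    have hge : ∀ q ∈ path (v ++ u), 0 ≤ q.1 := by
      intro q hq
      rw [mem_path_swap h0, ← hw'] at hq
      have := (g1 _ hq).1
      rw [pos_append] at h0
      have h4 := congrArg Prod.fst h0
      simp only [Prod.fst_add, Prod.fst_sub, Prod.fst_zero] at h4 this
      rw [← e1, hpv] at this
      omega
    have hS : SAP (v ++ u) := by rw [← hr]; exact ((c_words _ hw).2.2 _).1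
    obtain ⟨a, s, hs⟩ : ∃ a s, v ++ u = a :: s := by
      cases h : v ++ u with
      | nil => rw [h] at hS; simp [SAP] at hS
      | cons a s => exact ⟨a, s, rfl⟩
    by_cases ha : Lat a
    · exact ⟨u.length, a, s, by rw [hr, hs], ha, by rw [← hs]; exact hge⟩
    rw [hs] at hge hS
    have hps : pos s = - vec a := by
      have := hS.2.1
      simp only [pos] at this
      exact eq_neg_of_add_eq_zero_left this
    have hxm : a = .xm := by
      by_contra hne
      have : a = .xp := by
        unfold Lat at ha
        tauto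
      subst this
      have := hge (pos s) (List.mem_cons_of_mem _ (pos_mem_path s))
      rw [hps] at this
      simp [vec] at this
    subst hxm
    obtain ⟨s', b, rfl⟩ : ∃ s' b, s = s' ++ [b] := by
      have hne : s ≠ [] := by
        rintro rfl
        have := hS.1
        simp at this
      exact ⟨s.dropLast, s.getLast hne, (List.dropLast_append_getLast hne).symm⟩
    have hb : Lat b := by
      by_contra hb
      have hbm : b ≠ .xm := by
        rintro rfl
        have := hge (vec .xm) (by
          have : Dir.xm :: (s' ++ [.xm]) = (Dir.xm :: s') ++ [.xm] := rfl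
          rw [this, mem_path_append]
          left
          simpa [pos] using zero_mem_path (Dir.xm :: s'))
        simp [vec] at this
      have hbp : b = .xp := by
        unfold Lat at hb
        tauto
      subst hbp
      have hnd := hS.2.2
      simp only [path, List.tail_cons] at hnd
      rw [path_mid] at hnd
      have h5 := (List.nodup_append'.1 hnd).1
      rw [nodup_sh] at h5
      have h6 : pos s' = 0 := by
        rw [pos_append] at hps
        simp only [pos] at hps
        have h7 : (0 : Z3) + vec .xp = - vec .xm := by decide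
        rw [h7] at hps
        simpa using hps
      cases s' with
      | nil => have := hS.1; simp at this
      | cons c s' =>
        simp only [path, List.nodup_cons] at h5
        rw [pos] at h6
        rw [h6] at h5
        exact h5.1 (zero_mem_path s')
    have hrot : w.rotate (u.length + (Dir.xm :: s').length) = b :: (.xm :: s') := by
      rw [← List.rotate_rotate, hr, hs]
      have : Dir.xm :: (s' ++ [b]) = (Dir.xm :: s') ++ [b] := rfl
      rw [this, List.rotate_append_length_eq]
      rfl
    refine ⟨_, b, _, hrot, hb, ?_⟩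
    intro q hq
    have h8 : pos ((Dir.xm :: s') ++ [b]) = 0 := hS.2.1
    have h9 : q ∈ path ([b] ++ (Dir.xm :: s')) := hq
    rw [mem_path_swap h8] at h9
    have h10 := hge _ h9
    have h11 : (pos (Dir.xm :: s')).1 = 0 := by
      rw [pos_append] at h8
      have := congrArg Prod.fst h8
      simp only [Prod.fst_add, pos, Prod.fst_zero] at this ⊢
      have := hb.x
      omega
    rw [Prod.fst_sub, h11] at h10
    omega
  refine ⟨k % w.length, Nat.mod_lt _ (by omega), a, r, by rw [List.rotate_mod]; exact h1, h2, ?_⟩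
  have hS : SAP (a :: r) := by rw [← h1]; exact ((c_words _ hw).2.2 _).1
  refine ⟨hS.2.2, fun p hp => h3 p (List.mem_cons_of_mem _ hp), ?_, ?_, ?_⟩
  · have := hS.2.1
    simp only [pos] at this
    exact eq_neg_of_add_eq_zero_left this
  · have := h2.x
    simp only [Prod.fst_neg]
    omega
  · exact neg_ne_zero.2 (vec_ne a)

/-- a lateral edge in the top plane -/
theorem top_exists {D : Z3} {r : List Dir} (hr : RA D r) : ∃ (A : List Dir) (a : Dir)
    (B : List Dir), r = A ++ a :: B ∧ Lat a ∧ ∀ p ∈ path r, p.1 ≤ (pos B).1 := by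
  obtain ⟨lo, hi, g1, -, ⟨p, hp, e1⟩⟩ := xt_range r
  have h0 := (g1 _ (zero_mem_path r)).2
  have hne : r ≠ [] := zero_ne_nil (by rw [hr.en]; exact hr.ne)
  rcases eq_or_lt_of_le h0 with h | h
  · -- planar
    obtain ⟨a, B, rfl⟩ : ∃ a B, r = a :: B := by
      cases r with
      | nil => exact absurd rfl hne
      | cons a B => exact ⟨a, B, rfl⟩
    have hB : (pos B).1 = 0 := by
      have h1 := g1 (pos B) (List.mem_cons_of_mem _ (pos_mem_path B))
      have h2 := hr.ge (pos B) (List.mem_cons_of_mem _ (pos_mem_path B))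
      have h3 : (0 : Z3).1 = 0 := rfl
      omega
    refine ⟨[], a, B, rfl, ?_, ?_⟩
    · apply lat_of_x
      have h1 := congrArg Prod.fst hr.en
      have h2 := hr.h0
      simp only [pos, Prod.fst_add] at h1
      omega
    · intro q hq
      have h1 := (g1 q hq).2
      have h3 : (0 : Z3).1 = 0 := rfl
      omega
  · have h3 : (0 : Z3).1 = 0 := rfl
    obtain ⟨w2, w1, h4, h5, h6⟩ := firstUp (w := r) (c := hi - 1) (by omega)
      ⟨p, hp, by omega⟩
    have hw2 : w2 ≠ [] := by
      rintro rfl
      have h7 := congrArg Prod.fst hr.en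
      rw [h4] at h7
      simp only [List.nil_append, pos, Prod.fst_add, vec] at h7
      have := hr.h0
      omega
    obtain ⟨A, a, rfl⟩ : ∃ A a, w2 = A ++ [a] :=
      ⟨w2.dropLast, w2.getLast hw2, (List.dropLast_append_getLast hw2).symm⟩
    have hB : (pos (Dir.xp :: w1)).1 = hi := by
      simp only [pos, Prod.fst_add, vec]
      omega
    have h8 : r = A ++ a :: (.xp :: w1) := by rw [h4]; simp
    refine ⟨A, a, .xp :: w1, h8, ⟨?_, ?_⟩, ?_⟩
    · rintro rfl
      have h9 := (g1 (pos (.xp :: .xp :: w1)) (by
        rw [h8, mem_path_append]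
        right
        exact pos_mem_path _)).2
      rw [pos, Prod.fst_add, hB] at h9
      simp only [vec] at h9
      omega
    · rintro rfl
      have h9 := hr.nd
      rw [h8] at h9
      exact no_back (a := .xp) h9
    · intro q hq
      rw [hB]
      exact (g1 q hq).2

theorem Rw1_inj {b b' : Blk} (h : ∀ e, Rw1 b e = Rw1 b' e) : b = b' := by
  have key : ∀ {b b' : Blk}, (∀ e, Rw1 b e = Rw1 b' e) → ¬ b.2.length < b'.2.length := by
    intro b b' h hlt
    have h1 := h (List.replicate b'.2.length .yp)
    have h2 := congrArg (fun l => l[b'.2.length]?) h1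
    simp only [Rw1] at h2
    rw [List.getElem?_append_right le_rfl, Nat.sub_self, List.getElem?_cons_zero,
      List.getElem?_append_right hlt.le] at h2
    obtain ⟨j, hj⟩ : ∃ j, b'.2.length - b.2.length = j + 1 :=
      ⟨b'.2.length - b.2.length - 1, by omega⟩
    rw [hj, List.getElem?_cons_succ, List.getElem?_append_left (by
      rw [List.length_replicate]; omega), List.getElem?_replicate_of_lt (by omega)] at h2
    simp at h2
  have hl : b.2.length = b'.2.length := by
    have h1 := key h
    have h2 := key (fun e => (h e).symm)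
    omega
  have h3 := h []
  unfold Rw1 at h3
  obtain ⟨h4, h5⟩ := List.append_inj h3 hl
  simp only [List.nil_append, List.cons.injEq, true_and] at h5
  exact Prod.ext h5 h4

/-- the chain of a polygon -/
theorem chain_exists {w : List Dir} (hw : SAP w) : ∃ (k : ℕ) (c : Ch) (b : Blk),
    k < w.length ∧ Good c ∧ ln c.2 = w.length ∧ sp c.2 = xt w + 1 ∧
    Same (vl (wrd c)) (vl w) ∧ (∀ e, Rw c.2 e = Rw1 b e) ∧
    w.rotate k = neg c.1.1 :: (b.2 ++ c.1.2 :: b.1) := by
  obtain ⟨k, hk, a, r, h1, h2, h3⟩ := rot_exists hw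
  obtain ⟨A, d, B, h4, h5, h6⟩ := top_exists h3
  have hS : SAP (a :: r) := by rw [← h1]; exact ((c_words _ hw).2.2 _).1
  have hsame : Same (vl w) (vl (a :: r)) := by rw [← h1]; exact ((c_words _ hw).2.2 _).2
  have hBx := h6 0 (zero_mem_path r)
  have hpc : Pc (vec (neg a)) (vec d) (B, A) := by
    have hpv : pv (B, A) (vec d) = path r := by
      rw [h4, path_mid]
      rfl
    refine ⟨by rw [hpv]; exact h3.nd, ?_, ?_, h5.x, ?_⟩
    · intro p hp
      rw [hpv] at hp
      exact ⟨h3.ge p hp, h6 p hp⟩
    · have := h3.en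
      rw [h4, pos_append, pos] at this
      rw [vec_neg]
      exact this
    · rw [vec_neg]
      exact h3.h0
  obtain ⟨F, k1, k2, k3, k4, k5⟩ := pfact _ _ _ _ le_rfl hpc
  have hna : neg (neg a) = a := by simp
  have hwrd : wrd ((neg a, d), F) = .xp :: a :: .xm :: (A ++ .xm :: d :: .xp :: B) := by
    simp only [wrd, word, Poly, k3, Rw1, hna]
    simp
  have hg : Good ((neg a, d), F) := ⟨h2.neg, h5, k2, k1⟩
  have hSc : SAP (wrd ((neg a, d), F)) := (word_same hg.l0 hg.l1 hg.vc).1
  have hperp : ∀ a : Dir, Lat a → perp .xp a ∧ perp .xm a := by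
    intro a ha
    unfold Lat at ha
    unfold perp
    cases a <;> simp_all [ax]
  have hlen1 : w.length = r.length + 1 := by
    rw [← List.length_rotate w k, h1, List.length_cons]
  have hlr : r.length = A.length + B.length + 1 := by
    rw [h4, List.length_append, List.length_cons]; omega
  have hw4 := hw.1
  rw [hwrd] at hSc
  obtain ⟨m1, m2⟩ := unbump [] (A ++ .xm :: d :: .xp :: B) .xp a (hperp a h2).1 hSc (by
    simp only [List.nil_append, List.length_cons, List.length_append]
    omega)
  have e1 : ([] : List Dir) ++ a :: (A ++ .xm :: d :: .xp :: B) =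
      (a :: A) ++ .xm :: d :: neg .xm :: B := rfl
  rw [e1] at m1 m2
  obtain ⟨m3, m4⟩ := unbump (a :: A) B .xm d (hperp d h5).2 m1 (by
    simp only [List.length_append, List.length_cons]
    omega)
  have e2 : (a :: A) ++ d :: B = a :: r := by rw [h4]; rfl
  rw [e2] at m4
  refine ⟨k, ((neg a, d), F), (B, A), hk, hg, ?_, ?_, ?_, k3, ?_⟩
  · simp only [k4, bl]
    omega
  · simp only [k5, wd]
    have h0w := hw.2.1
    rw [← xt_rotate h0w hk.le, h1, xt_eq (lo := 0) (hi := (pos B).1)]
    · simp
    · intro p hp
      rcases List.mem_cons.1 hp with hp | hp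
      · have : pos (a :: r) = 0 := hS.2.1
        rw [pos] at this
        rw [hp, this]
        exact ⟨le_rfl, hBx⟩
      · exact ⟨h3.ge p hp, h6 p hp⟩
    · exact ⟨0, zero_mem_path _, rfl⟩
    · refine ⟨pos B, ?_, rfl⟩
      rw [h4]
      have : a :: (A ++ d :: B) = (a :: (A ++ [d])) ++ B := by simp
      rw [this, mem_path_append]
      right
      exact pos_mem_path B
  · rw [hwrd]
    exact (m2.trans m4).trans hsame.symm
  · rw [h1, h4]
    simp

end

end KN.ST
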