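import Pool.Agent.H132.ST.Link

/-!
# Stretched polygons: comparison of the sums over polygons and over chains
-/

set_option autoImplicit false

namespace KN.ST

open KN KN.KQ Finset
open scoped Classical ENNReal

noncomputable section

/-- the weighted sum over closed words of length `n` in the class `Q` -/
def Zp (t : ℝ≥0∞) (Q : List Dir → Prop) (n : ℕ) : ℝ≥0∞ := ∑ w ∈ K Q n, t ^ (6 * xt w)

theorem tsum_range (n : ℕ) (f : Ch → ℝ≥0∞) :
    ∑' x : ℕ × Ch, (if x.1 < n then f x.2 else 0) = (n : ℝ≥0∞) * ∑' c : Ch, f c := by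
  rw [ENNReal.tsum_prod']
  have h1 : ∀ i : ℕ, ∑' c : Ch, (if i < n then f c else 0) =
      if i < n then ∑' c : Ch, f c else 0 := by
    intro i
    by_cases hi : i < n
    · rw [if_pos hi]
      refine tsum_congr fun c => ?_
      rw [if_pos hi]
    · rw [if_neg hi, ENNReal.tsum_eq_zero]
      intro c
      rw [if_neg hi]
  rw [tsum_congr h1, tsum_ite_fin (fun i => i < n) n (fun i h => h)]
  rw [sum_congr rfl (fun i hi => if_pos (mem_range.1 hi))]
  simp

/-- polygons are counted by chains -/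
theorem link1 (t : ℝ≥0∞) (k : List V) (n : ℕ) :
    t ^ 6 * Zp t (KO k) n ≤ (n : ℝ≥0∞) * Zc t (PK k) n := by
  have h1 : t ^ 6 * Zp t (KO k) n = ∑' w : List Dir, (if w ∈ K (KO k) n then
      t ^ (6 * (xt w + 1)) else 0) := by
    rw [tsum_eq_sum (s := K (KO k) n) (fun w hw => if_neg hw)]
    unfold Zp
    rw [mul_sum]
    refine sum_congr rfl fun w hw => ?_
    rw [if_pos hw, mul_add, pow_add]
    ring
  rw [h1]
  unfold Zc
  rw [← tsum_range]
  have hex : ∀ w : List Dir, ∃ x : ℕ × Ch × Blk, SAP w → x.1 < w.length ∧ Good x.2.1 ∧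
      ln x.2.1.2 = w.length ∧ sp x.2.1.2 = xt w + 1 ∧ Same (vl (wrd x.2.1)) (vl w) ∧
      (∀ e, Rw x.2.1.2 e = Rw1 x.2.2 e) ∧
      w.rotate x.1 = neg x.2.1.1.1 :: (x.2.2.2 ++ x.2.1.1.2 :: x.2.2.1) := by
    intro w
    by_cases hw : SAP w
    · obtain ⟨k, c, b, h⟩ := chain_exists hw
      exact ⟨(k, c, b), fun _ => h⟩
    · exact ⟨(0, ((.yp, .yp), []), ([], [])), fun h => absurd h hw⟩
  choose g hg using hex
  refine tsum_le_of_inj _ _ (fun w => ((g w).1, (g w).2.1)) ?_ ?_
  · intro w w' hw hw' he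
    have m : w ∈ K (KO k) n := by by_contra hn; exact hw (if_neg hn)
    have m' : w' ∈ K (KO k) n := by by_contra hn; exact hw' (if_neg hn)
    obtain ⟨-, -, -, -, -, a1, a2⟩ := hg w (mem_K.1 m).2.1
    obtain ⟨-, -, -, -, -, b1, b2⟩ := hg w' (mem_K.1 m').2.1
    simp only [Prod.mk.injEq] at he
    rw [he.1, he.2] at a2
    rw [he.2] at a1
    have hb : (g w).2.2 = (g w').2.2 := Rw1_inj (fun e => (a1 e).symm.trans (b1 e))
    rw [hb, ← b2] at a2
    exact List.rotate_injective _ a2
  · intro w hw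
    have m : w ∈ K (KO k) n := by by_contra hn; exact hw (if_neg hn)
    have hK := mem_K.1 m
    obtain ⟨a1, a2, a3, a4, a5, a6, a7⟩ := hg w hK.2.1
    have hn : w.length = n := hK.1
    rw [if_pos m, if_pos (by simp only; omega), if_pos, a4]
    exact ⟨a2, by rw [a3, hn], a5.trans hK.2.2⟩

theorem Rw_top {bs : List Blk} : ∀ {D D' : Z3} {r : List Dir} {M : ℕ}, VC D bs D' → RA D' r →
    (∀ p ∈ path r, p.1 ≤ M) → (∃ p ∈ path r, p.1 = M) →
    (∀ p ∈ path (Rw bs r), p.1 ≤ ((sp bs + M : ℕ) : ℤ)) ∧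
      (∃ p ∈ path (Rw bs r), p.1 = ((sp bs + M : ℕ) : ℤ)) := by
  induction bs with
  | nil =>
    intro D D' r M _ _ h1 h2
    simp only [Rw, sp_nil, zero_add]
    exact ⟨h1, h2⟩
  | cons b bs ih =>
    intro D D' r M h hr h1 h2
    obtain ⟨h3, h4⟩ := ih h.2 hr h1 h2
    have hRA := h.2.ra hr
    have hj := h.1.pos1
    have hsp : ((sp (b :: bs) + M : ℕ) : ℤ) = (pos b.1).1 + 1 + ((sp bs + M : ℕ) : ℤ) := by
      rw [sp_cons]
      unfold wd
      push_cast
      rw [Int.toNat_of_nonneg hj]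
      ring
    simp only [Rw]
    rw [path_Rw1 hRA.en, hsp]
    have hM : (0 : ℤ) ≤ ((sp bs + M : ℕ) : ℤ) := Int.natCast_nonneg _
    constructor
    · intro p hp
      rw [List.mem_append, List.mem_append] at hp
      rcases hp with hp | hp | hp
      · have := (h.1.rg p (List.mem_append_left _ hp)).2
        omega
      · have := h3 _ (mem_sh.1 hp)
        simp only [Prod.fst_sub, Prod.fst_add, vec] at this
        omega
      · have := (h.1.rg p (List.mem_append_right _ hp)).2
        omega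
    · obtain ⟨p, hp, e⟩ := h4
      refine ⟨p + (pos b.1 + vec .xp), ?_, ?_⟩
      · rw [List.mem_append, List.mem_append]
        right; left
        rw [mem_sh]
        simpa using hp
      · simp only [Prod.fst_add, e, vec]
        omega

theorem wrd_form (c : Ch) : wrd c = .xp :: neg c.1.1 :: .xm :: Rw c.2 [c.1.2] := by
  simp [wrd, word, Poly]

theorem good_ra {c : Ch} (h : Good c) : RA (vec c.1.1) (Rw c.2 [c.1.2]) :=
  h.vc.ra (pa_one h.l1).ra

theorem good_sap {c : Ch} (h : Good c) : SAP (wrd c) := (word_same h.l0 h.l1 h.vc).1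

theorem xt_wrd {c : Ch} (h : Good c) : xt (wrd c) = sp c.2 + 1 := by
  have hr := good_ra h
  have hone : ∀ p ∈ path [c.1.2], p.1 ≤ ((0 : ℕ) : ℤ) := by
    intro p hp
    simp only [path, pos, List.mem_cons, List.not_mem_nil, or_false, zero_add] at hp
    rcases hp with rfl | rfl
    · have := h.l1.x
      omega
    · simp
  obtain ⟨h1, p, hp, e⟩ := Rw_top h.vc (pa_one h.l1).ra hone ⟨0, zero_mem_path _, rfl⟩
  rw [add_zero] at h1 e
  have hx := h.l0.x
  have hxm : vec .xp + vec .xm = 0 := by decide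
  have hpath : ∀ q : Z3, q ∈ path (wrd c) ↔ q = 0 ∨ q = vec .xm ∨ q = vec c.1.1 + vec .xm ∨
      q ∈ path (Rw c.2 [c.1.2]) := by
    intro q
    have hp0 := (good_sap h).2.1
    rw [wrd_form] at hp0 ⊢
    simp only [path, pos, List.mem_cons]
    rw [hr.en, vec_neg]
    have e1 : vec c.1.1 + vec .xm + -vec c.1.1 = vec .xm := by abel
    rw [e1]
    have e2 : vec .xm + vec .xp = 0 := by decide
    rw [e2]
  rw [xt_eq (lo := -1) (hi := sp c.2)]
  · omega
  · intro q hq
    rw [hpath] at hq
    rcases hq with rfl | rfl | rfl | hq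
    · simp only [Prod.fst_zero]; omega
    · simp only [vec]; omega
    · simp only [Prod.fst_add, hx]
      simp only [vec]
      omega
    · have := hr.ge q hq
      have := h1 q hq
      omega
  · exact ⟨vec .xm, (hpath _).2 (Or.inr (Or.inl rfl)), rfl⟩
  · exact ⟨p, (hpath _).2 (Or.inr (Or.inr (Or.inr hp))), e⟩

theorem wrd_rot {c c' : Ch} (h : Good c) (h' : Good c') {i : ℕ} (hi : i < (wrd c).length)
    (he : (wrd c).rotate i = wrd c') : i = 0 := by
  have hr := good_ra h
  have hr' := good_ra h'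
  rw [wrd_form, wrd_form] at he
  rw [wrd_form] at hi
  set r := Rw c.2 [c.1.2] with hrd
  set r' := Rw c'.2 [c'.1.2] with hrd'
  have hl := h.l0.neg
  have hl' := h'.l0.neg
  unfold Lat at hl hl'
  match i, hi, he with
  | 0, _, _ => rfl
  | 1, _, he =>
    rw [List.rotate_cons_succ, List.rotate_zero] at he
    simp only [List.cons_append, List.cons.injEq] at he
    exact absurd he.1 hl.1
  | 2, _, he =>
    rw [List.rotate_cons_succ] at he
    simp only [List.cons_append] at he
    rw [List.rotate_cons_succ, List.rotate_zero] at he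
    simp only [List.cons_append, List.cons.injEq, reduceCtorEq, false_and] at he
  | i + 3, hi, he =>
    exfalso
    simp only [List.length_cons] at hi
    have hir : i ≤ r.length := by omega
    have e1 : (Dir.xp :: neg c.1.1 :: .xm :: r).rotate (i + 3) =
        r.drop i ++ (.xp :: neg c.1.1 :: .xm :: r.take i) := by
      rw [List.rotate_eq_drop_append_take (by simp only [List.length_cons]; omega)]
      simp
    rw [e1] at he
    obtain ⟨r1, r2, hr12, hr2⟩ : ∃ r1 r2, r = r1 ++ r2 ∧ r2.length = r.length - i ∧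
        r.drop i = r2 ∧ r.take i = r1 :=
      ⟨r.take i, r.drop i, (List.take_append_drop i r).symm, List.length_drop, rfl, rfl⟩
    obtain ⟨hlen, hd, ht⟩ := hr2
    rw [hd, ht] at he
    have h1 : r2.length ≠ 0 := by omega
    match r2, hr12, he, h1 with
    | [x], _, he, _ =>
      simp only [List.cons_append, List.nil_append, List.cons.injEq] at he
      exact hl'.1 he.2.1.symm
    | [x, y], _, he, _ =>
      simp only [List.cons_append, List.nil_append, List.cons.injEq, reduceCtorEq, false_and,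
        and_false] at he
    | x :: y :: z :: r3, hr12, he, _ =>
      simp only [List.cons_append, List.cons.injEq] at he
      obtain ⟨rfl, rfl, rfl, h4⟩ := he
      have a1 := hr.ge (pos (neg c'.1.1 :: .xm :: r3)) (by
        rw [hr12]
        have : r1 ++ .xp :: neg c'.1.1 :: .xm :: r3 = (r1 ++ [.xp]) ++
          (neg c'.1.1 :: .xm :: r3) := by simp
        rw [this, mem_path_append]
        right
        exact pos_mem_path _)
      have a2 := hr'.ge (pos (neg c.1.1 :: .xm :: r1)) (by
        rw [← h4]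
        have : r3 ++ .xp :: neg c.1.1 :: .xm :: r1 = (r3 ++ [.xp]) ++
          (neg c.1.1 :: .xm :: r1) := by simp
        rw [this, mem_path_append]
        right
        exact pos_mem_path _)
      have a3 := congrArg Prod.fst hr.en
      rw [hr12, pos_append] at a3
      have a4 := h.l0.x
      have a5 := h.l0.neg.x
      have a6 := h'.l0.neg.x
      have v1 : (vec .xp).1 = 1 := rfl
      have v2 : (vec .xm).1 = -1 := rfl
      simp only [pos, Prod.fst_add] at a1 a2 a3
      omega

theorem rot_cancel {c c' : Ch} (h : Good c) (h' : Good c') {i i' L : ℕ}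
    (hL : (wrd c).length = L) (hL' : (wrd c').length = L) (hi : i < L) (hi' : i' < L)
    (he : (wrd c).rotate i = (wrd c').rotate i') : i = i' ∧ c = c' := by
  have h1 := congrArg (fun l => l.rotate (L - i')) he
  simp only [List.rotate_rotate] at h1
  have e1 : i' + (L - i') = (wrd c').length := by omega
  rw [e1, List.rotate_length, ← List.rotate_mod, hL] at h1
  have h2 := wrd_rot h h' (by rw [hL]; exact Nat.mod_lt _ (by omega)) h1
  have h3 : i = i' := by
    rcases lt_or_ge i i' with h4 | h4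
    · rw [Nat.mod_eq_of_lt (by omega)] at h2
      omega
    · have : i + (L - i') = (i - i') + L := by omega
      rw [this, Nat.add_mod_right, Nat.mod_eq_of_lt (by omega)] at h2
      omega
  subst h3
  exact ⟨rfl, wrd_inj h h' (List.rotate_injective _ he)⟩

theorem msp {i n : ℕ} {a : ℝ≥0∞} {P : Prop} [Decidable P]
    (h : (if i < n then (if P then a else 0) else 0 : ℝ≥0∞) ≠ 0) : i < n ∧ P := by
  by_contra hn
  apply h
  by_cases hi : i < n
  · rw [if_pos hi, if_neg (fun hp => hn ⟨hi, hp⟩)]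
  · rw [if_neg hi]

/-- chains are counted by polygons -/
theorem link2 (t : ℝ≥0∞) (k : List V) (n : ℕ) :
    ((n + 4 : ℕ) : ℝ≥0∞) * (t ^ 6 * Zc t (PK k) n) ≤ Zp t (KO k) (n + 4) := by
  have h1 : Zp t (KO k) (n + 4) = ∑' w : List Dir, (if w ∈ K (KO k) (n + 4) then
      t ^ (6 * xt w) else 0) := by
    rw [tsum_eq_sum (s := K (KO k) (n + 4)) (fun w hw => if_neg hw)]
    unfold Zp
    refine sum_congr rfl fun w hw => ?_
    rw [if_pos hw]
  have h2 : t ^ 6 * Zc t (PK k) n = ∑' c : Ch, (if Good c ∧ ln c.2 = n ∧ PK k c then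
      t ^ (6 * (sp c.2 + 1)) else 0) := by
    unfold Zc
    rw [← ENNReal.tsum_mul_left]
    refine tsum_congr fun c => ?_
    by_cases hc : Good c ∧ ln c.2 = n ∧ PK k c
    · rw [if_pos hc, if_pos hc, mul_add, pow_add]
      ring
    · rw [if_neg hc, if_neg hc, mul_zero]
  rw [h1, h2, ← tsum_range]
  refine tsum_le_of_inj _ _ (fun x => (wrd x.2).rotate x.1) ?_ ?_
  · rintro ⟨i, c⟩ ⟨i', c'⟩ hx hx' he
    have m := msp hx
    have m' := msp hx'
    obtain ⟨h3, h4⟩ := rot_cancel m.2.1 m'.2.1 (L := n + 4) (by rw [length_wrd, m.2.2.1])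
      (by rw [length_wrd, m'.2.2.1]) m.1 m'.1 he
    exact Prod.ext h3 h4
  · rintro ⟨i, c⟩ hx
    have m := msp hx
    simp only at m
    have hS := good_sap m.2.1
    have hlen : (wrd c).length = n + 4 := by rw [length_wrd, m.2.2.1]
    obtain ⟨g1, g2⟩ := (c_words _ hS).2.2 i
    have hm : (wrd c).rotate i ∈ K (KO k) (n + 4) := by
      rw [mem_K]
      exact ⟨by rw [List.length_rotate, hlen], g1, g2.symm.trans m.2.2.2⟩
    simp only
    rw [if_pos m.1, if_pos m.2, if_pos hm, xt_rotate hS.2.1 (by omega), xt_wrd m.2.1]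

theorem Zp_kt (t : ℝ≥0∞) (k : List V) (n : ℕ) : Zp t (KO k) n ≤ Zp t (KT k) n := by
  unfold Zp
  refine sum_le_sum_of_subset ?_
  intro w hw
  rw [mem_K] at hw ⊢
  exact ⟨hw.1, hw.2.1, Or.inl hw.2.2⟩

theorem xt_back {w : List Dir} (h0 : pos w = 0) : xt (back w) = xt w := by
  have h1 : path (back w) = (path w).reverse := by
    rw [LAYU.path_back, h0]
    simp
  unfold xt
  rw [h1, List.toFinset_reverse]

theorem Zp_half (t : ℝ≥0∞) (k : List V) (n : ℕ) : Zp t (KT k) n ≤ 2 * Zp t (KO k) n := by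
  have h1 : K (KT k) n ⊆ K (KO k) n ∪ K (KO k.reverse) n := by
    intro w hw
    rw [mem_K] at hw
    obtain ⟨h1, h2, h3 | h3⟩ := hw
    · exact mem_union_left _ (mem_K.2 ⟨h1, h2, h3⟩)
    · exact mem_union_right _ (mem_K.2 ⟨h1, h2, h3⟩)
  have h2 : Zp t (KO k.reverse) n ≤ Zp t (KO k) n := by
    unfold Zp
    calc ∑ w ∈ K (KO k.reverse) n, t ^ (6 * xt w) =
        ∑ w ∈ K (KO k.reverse) n, t ^ (6 * xt (back w)) := by
          refine sum_congr rfl fun w hw => ?_
          rw [xt_back ((mem_K.1 hw).2.1.2.1)]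
      _ = ∑ u ∈ (K (KO k.reverse) n).image back, t ^ (6 * xt u) :=
        (Finset.sum_image (f := fun u => t ^ (6 * xt u)) back_inj.injOn).symm
      _ ≤ _ := by
        refine sum_le_sum_of_subset ?_
        intro u hu
        obtain ⟨w, hw, rfl⟩ := mem_image.1 hu
        have hw' := mem_K.1 hw
        obtain ⟨h3, h4⟩ := back_word S_rot_proof c_rev S_simple_proof hw'.2.1
        refine mem_K.2 ⟨by simpa [back] using hw'.1, h3, ?_⟩
        have h5 := (c_rev _ _).2 hw'.2.2
        rw [List.reverse_reverse] at h5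
        exact h4.trans h5
  calc Zp t (KT k) n ≤ ∑ w ∈ K (KO k) n ∪ K (KO k.reverse) n, t ^ (6 * xt w) :=
        sum_le_sum_of_subset h1
    _ ≤ Zp t (KO k) n + Zp t (KO k.reverse) n := by
        unfold Zp
        rw [← sum_union_inter]
        exact le_self_add
    _ ≤ Zp t (KO k) n + Zp t (KO k) n := by gcongr
    _ = 2 * Zp t (KO k) n := (two_mul _).symm

end

end KN.ST
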