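import Pool.Agent.H132.ST.Sum

/-!
# Stretched polygons: insertion of a knotted slab
-/

set_option autoImplicit false

namespace KN.ST

open KN KN.KQ
open scoped Classical

noncomputable section

theorem path_rep (n : ℕ) (a : Dir) : ∀ p ∈ path (List.replicate n a), ∃ i : ℕ, i ≤ n ∧
    p = (i : ℤ) • vec a := by
  induction n with
  | zero => intro p hp; simp [path] at hp; exact ⟨0, le_rfl, by simp [hp]⟩
  | succ n ih =>
    intro p hp
    rw [List.replicate_succ] at hp
    rcases List.mem_cons.1 hp with rfl | hp
    · refine ⟨n + 1, le_rfl, ?_⟩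
      rw [pos_replicate]
      push_cast
      rw [add_smul, one_smul]
    · obtain ⟨i, hi, h⟩ := ih p hp
      exact ⟨i, by omega, h⟩

theorem straight_eq (n : ℕ) (r : List Dir) : Rw (List.replicate (n + 1) ([], [])) r =
    Rw1 (List.replicate n .xp, List.replicate n .xm) r := by
  induction n with
  | zero => rfl
  | succ n ih =>
    rw [List.replicate_succ, Rw, ih]
    unfold Rw1
    simp only [List.nil_append]
    rw [List.replicate_succ (a := Dir.xm), List.replicate_succ' (a := Dir.xp)]
    simp

theorem straight_same {D : Z3} {l r : List Dir} (hl : LA D l) (hr : RA D r) (n : ℕ) :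
    RA D (Rw (List.replicate n ([], [])) r) ∧
    Same (vl (Poly l r)) (vl (Poly l (Rw (List.replicate n ([], [])) r))) := by
  induction n with
  | zero => exact ⟨hr, Same.refl _⟩
  | succ n ih =>
    rw [List.replicate_succ, Rw]
    exact ⟨(pc_S hl.h0 hl.ne).ra ih.1, ih.2.trans (layer hl ih.1)⟩

/-- the direction of the detour -/
def ud (D : Z3) : Dir := if D.2.1 ≤ 0 then .yp else .ym

/-- the knotted slab -/
def slb (J : ℕ) (u : Dir) (v : List Dir) : Blk :=
  (List.replicate J .xp ++ ((blk 0 v).map (rt u .xp) ++ List.replicate J .xp),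
    List.replicate (2 * J + 1) .xm)

theorem pos_blk {v : List Dir} (h : SAP (.zm :: v)) (u : Dir) :
    pos ((blk 0 v).map (rt u .xp)) = vec .xp := by
  have hv := GL1.pos_v h
  have h1 : pos (blk 0 v) = (0, 0, 1) := by
    unfold blk
    simp only [pos_append, pos_replicate, hv]
    simp [vec]
  by_cases hp : perp u .xp
  · rw [((T_rtc_proof u .xp hp).2.2.1 _).1, h1]
    simp [Rp, vec]
  · have hu : u = .xp ∨ u = .xm := by
      cases u <;> simp [perp, ax] at hp ⊢
    have key : ∀ w : List Dir, pos (w.map (rt u .xp)) =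
        (pos w).1 • vec u + (pos w).2.1 • vec (cr .xp u) + (pos w).2.2 • vec .xp := by
      intro w
      induction w with
      | nil => simp [pos]
      | cons a w ih =>
        simp only [List.map_cons, pos, ih]
        rcases hu with rfl | rfl <;> cases a <;> simp [rt, cr, vec, neg] <;> ring
    rw [key, h1]
    simp

theorem slb_pos {J : ℕ} {u : Dir} {v : List Dir} (h : SAP (.zm :: v)) :
    pos (slb J u v).1 = ((2 * J + 1 : ℕ) : ℤ) • vec .xp := by
  unfold slb
  simp only [pos_append, pos_replicate, pos_blk h]
  have : ((2 * J + 1 : ℕ) : ℤ) = (J : ℤ) + 1 + J := by push_cast; ring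
  rw [this, add_smul, add_smul, one_smul, add_assoc]

theorem slb_len (J : ℕ) (u : Dir) (v : List Dir) :
    (slb J u v).1.length + (slb J u v).2.length + 2 = 4 * J + v.length + 5 := by
  simp only [slb, blk, List.length_append, List.length_map, List.length_replicate]
  omega

theorem slab_main {L : ℕ} {v : List Dir} (hv : SmR L v) {D : Z3} {l r : List Dir} (hl : LA D l)
    (hr : RA D r) : SAP (Poly l (Rw1 (slb (L + 1) (ud D) v) r)) ∧
      IsSum (vl (Poly l r)) (vl (.zm :: v)) (vl (Poly l (Rw1 (slb (L + 1) (ud D) v) r))) := by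
  set J := L + 1 with hJ
  set u := ud D with hu
  set n := 2 * J + 1 with hn
  have hup : perp u .xp := by
    rw [hu]; unfold ud; split_ifs <;> decide
  -- the straight polygon
  obtain ⟨hra, hs0⟩ := straight_same hl hr (n + 1)
  rw [straight_eq] at hra hs0
  have hS0 := sap_poly hl hra
  set w0 := Poly l (Rw1 (List.replicate n .xp, List.replicate n .xm) r) with hw0
  set A : List Dir := .xp :: (l ++ .xm :: (List.replicate n .xm ++ .xm ::
    (r ++ .xp :: List.replicate J .xp))) with hA
  set B : List Dir := List.replicate J .xp with hB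
  have e0 : w0 = A ++ .xp :: B := by
    have : List.replicate n Dir.xp = List.replicate J .xp ++ .xp :: List.replicate J .xp := by
      rw [← List.replicate_succ, ← List.replicate_add]
      congr 1
      omega
    rw [hw0, this]
    simp [Poly, Rw1, hA, hB]
  have e1 : Poly l (Rw1 (slb J u v) r) = A ++ (blk 0 v).map (rt u .xp) ++ B := by
    simp [Poly, Rw1, slb, hA, hB, hn]
  -- rotation
  obtain ⟨⟨d', f', hp', hd1, hd2, hi1, hi2, hP1, hP2⟩, -, hpp, hRp⟩ := T_rtc_proof u .xp hup
  obtain ⟨⟨-, -, -, -, -, -, -, -, -⟩, -, hpp', hRp'⟩ := T_rtc_proof d' f' hp'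
  obtain ⟨hS0', hs0'⟩ := T_rt_proof d' f' hp' w0 hS0
  have e2 : w0.map (rt d' f') = A.map (rt d' f') ++ .zp :: B.map (rt d' f') := by
    have e9 : (Dir.xp :: B).map (rt d' f') = .zp :: B.map (rt d' f') := by
      rw [List.map_cons, hd2]
    rw [e0, List.map_append, e9]
  have hspot : Spot 0 L (A.map (rt d' f')) (B.map (rt d' f')) := by
    refine ⟨by rw [← e2]; exact hS0', ?_, ?_⟩
    · intro j h1 h2
      omega
    · intro h h1 h2 h3 h4 h5 hm
      rw [← e2, (hpp' w0).2, List.mem_map] at hm
      obtain ⟨q, hq, hqe⟩ := hm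
      rw [(hpp' B).1] at hqe
      have hq2 : q = pos B + Rp u .xp h := by
        have := congrArg (Rp u .xp) hqe
        rw [hP2, hRp, hP2] at this
        exact this
      have hB1 : pos B = ((J : ℤ), 0, 0) := by
        rw [hB, pos_replicate]; simp [vec]
      rw [hB1] at hq2
      have hD0 := hl.h0
      -- coordinates
      have c1 : q.1 = J + h.2.2 := by
        rw [hq2]
        unfold Rp
        rw [hu]; unfold ud
        split_ifs <;> simp [vec, cr]
      have c2 : (D.2.1 ≤ 0 ∧ q.2.1 = h.1) ∨ (0 < D.2.1 ∧ q.2.1 = - h.1) := by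
        rw [hq2]
        unfold Rp
        rw [hu]; unfold ud
        split_ifs with h6
        · left; exact ⟨h6, by simp [vec, cr]⟩
        · right; exact ⟨by omega, by simp [vec, cr]⟩
      have hp1 : path w0 = 0 :: (sh (D + vec .xm) (path l) ++ (sh ((n : ℤ) • vec .xp + D)
          (path (List.replicate n .xm)) ++ (sh ((n : ℤ) • vec .xp + vec .xp) (path r) ++
          path (List.replicate n .xp)))) := by
        have h7 := hS0.2.1
        have h8 : w0 = .xp :: (l ++ .xm :: Rw1 (List.replicate n .xp, List.replicate n .xm) r) :=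
          rfl
        rw [h8] at h7 ⊢
        rw [path]
        rw [pos] at h7
        rw [h7, path_poly l hra.en, path_Rw1 hr.en, pos_replicate]
      rw [hp1, List.mem_cons, List.mem_append, List.mem_append, List.mem_append] at hq
      rcases hq with hq | hq | hq | hq | hq
      · have := congrArg (fun x : Z3 => x.2.1) hq
        simp only [Prod.snd_zero, Prod.fst_zero] at this
        omega
      · have := hl.le _ (mem_sh.1 hq)
        simp only [Prod.fst_sub, Prod.fst_add, vec] at this
        omega
      · obtain ⟨i, hi, h9⟩ := path_rep _ _ _ (mem_sh.1 hq)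
        have := congrArg (fun x : Z3 => x.2.1) h9
        simp [vec] at this
        omega
      · have := hr.ge _ (mem_sh.1 hq)
        simp [vec] at this
        omega
      · obtain ⟨i, hi, h9⟩ := path_rep _ _ _ hq
        have := congrArg (fun x : Z3 => x.2.1) h9
        simp [vec] at this
        omega
  obtain ⟨m1, m2, hm1, hm2, hm3⟩ := left_rep _ hS0'
  have hM := d_master 0 L _ _ m1 m2 v hspot hv (K2TOWU.bgL L hm1 hm2) (by rw [← e2]; exact hm3)
  have e3 : A.map (rt d' f') ++ blk 0 v ++ B.map (rt d' f') =
      (Poly l (Rw1 (slb J u v) r)).map (rt d' f') := by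
    rw [e1, List.map_append, List.map_append, List.map_map]
    congr 2
    have : rt d' f' ∘ rt u .xp = id := by funext e; exact hi1 e
    rw [this, List.map_id]
  rw [e3] at hM
  have hSw : SAP (Poly l (Rw1 (slb J u v) r)) := by
    have := (T_rt_proof u .xp hup _ hM.1).1
    rw [List.map_map] at this
    have h9 : rt u .xp ∘ rt d' f' = id := by funext e; exact hi2 e
    rwa [h9, List.map_id] at this
  refine ⟨hSw, ?_⟩
  refine isSum_congr (k := vl (m1 ++ .zp :: m2)) (l := vl (.zm :: v)) (s := vl (join m1 v m2))
    ⟨m1, v, m2, ⟨hm1, hm2, hv.1, fun p hp => (hv.2 p hp).1⟩, Same.refl _, Same.refl _,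
      Same.refl _⟩ ?_ (Same.refl _) ?_
  · exact hm3.symm.trans (hs0'.symm.trans hs0.symm)
  · exact hM.2.symm.trans (T_rt_proof d' f' hp' _ hSw).2.symm

theorem slab_pc {L : ℕ} {v : List Dir} (hv : SmR L v) {D : Z3} (h0 : D.1 = 0) (hD : D ≠ 0) :
    Pc D D (slb (L + 1) (ud D) v) := by
  have hp := pa_cp h0 hD
  have hS := (slab_main hv hp.la hp.ra).1
  set J := L + 1 with hJ
  set u := ud D with hu
  have hup : perp u .xp := by
    rw [hu]; unfold ud; split_ifs <;> decide
  have hpos := slb_pos (J := J) (u := u) hv.1
  have hb2 : pos (slb J u v).2 = ((2 * J + 1 : ℕ) : ℤ) • vec .xm := pos_replicate _ _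
  have hxx : vec .xm = - vec .xp := by decide
  refine ⟨?_, ?_, ?_, h0, h0⟩
  · have h1 := hS.2.2
    unfold Poly at h1
    rw [path, List.tail_cons, path_poly (D := D) _ (by
      rw [pos_Rw1, hb2, hpos, pos_cp h0, hxx]; simp), path_Rw1 (pos_cp h0)] at h1
    have h2 := (List.nodup_append'.1 h1).2.1
    unfold pv
    refine h2.sublist ?_
    exact List.Sublist.append (List.Sublist.refl _) (List.sublist_append_right _ _)
  · have hx : (pos (slb J u v).1).1 = 2 * J + 1 := by
      rw [hpos]; simp [vec]
    intro p hp
    rw [hx]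
    unfold pv at hp
    rw [List.mem_append] at hp
    rcases hp with hp | hp
    · obtain ⟨i, hi, h9⟩ := path_rep _ _ _ (mem_sh.1 hp)
      have h10 := congrArg Prod.fst h9
      rw [hpos] at h10
      simp only [Prod.fst_sub, Prod.fst_add, Prod.smul_fst, vec, smul_eq_mul, h0] at h10
      push_cast at h10
      have h11 : (i : ℤ) ≤ 2 * J + 1 := by exact_mod_cast hi
      constructor <;> linarith [Int.natCast_nonneg i]
    · have key : ∀ q ∈ path ((blk 0 v).map (rt u .xp)), -(L : ℤ) ≤ q.1 ∧ q.1 ≤ L + 1 := by
        intro q hq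
        rw [((T_rtc_proof u .xp hup).2.2.1 _).2, List.mem_map] at hq
        obtain ⟨t, ht, rfl⟩ := hq
        have e : (Rp u .xp t).1 = t.2.2 := by
          unfold Rp
          rw [hu]; unfold ud
          split_ifs <;> simp [vec, cr]
        rw [e]
        have eb : blk 0 v = [] ++ .xm :: (v ++ .xp :: []) := by simp [blk]
        rw [eb, path_mid, path_mid, List.mem_append, List.mem_append] at ht
        have hvp := GL1.pos_v hv.1
        rcases ht with ht | ht | ht
        · have := mem_sh.1 ht
          simp only [path, List.mem_singleton] at this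
          have h12 := congrArg (fun x : Z3 => x.2.2) this
          simp [pos, vec, pos_append, hvp] at h12
          omega
        · have := hv.2 _ (mem_sh.1 ht)
          simp only [pos, vec, zero_add, Prod.snd_sub] at this
          omega
        · simp only [path, List.mem_singleton] at ht
          subst ht
          simp
          omega
      have e1 : (slb J u v).1 = List.replicate J .xp ++
          ((blk 0 v).map (rt u .xp) ++ List.replicate J .xp) := rfl
      rw [e1] at hp
      rw [path_append, path_append, List.mem_append, List.mem_append] at hp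
      have hblk := pos_blk hv.1 u
      rcases hp with hp | hp | hp
      · rw [List.mem_map] at hp
        obtain ⟨q, hq, rfl⟩ := hp
        obtain ⟨i, hi, h9⟩ := path_rep _ _ _ (List.mem_of_mem_dropLast hq)
        rw [h9, pos_append, hblk, pos_replicate]
        have h11 : (i : ℤ) ≤ J := by exact_mod_cast hi
        simp [vec]
        constructor <;> linarith [Int.natCast_nonneg i, Int.natCast_nonneg J]
      · rw [List.mem_map] at hp
        obtain ⟨q, hq, rfl⟩ := hp
        have := key q (List.mem_of_mem_dropLast hq)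
        rw [pos_replicate]
        simp [vec]
        omega
      · obtain ⟨i, hi, h9⟩ := path_rep _ _ _ hp
        rw [h9]
        have h11 : (i : ℤ) ≤ J := by exact_mod_cast hi
        simp [vec]
        linarith [Int.natCast_nonneg i, Int.natCast_nonneg J]
  · rw [hpos, hb2, hxx]; simp

/-- for every knot there is a slab of the given type, for each difference of the two strands -/
theorem slab (k : List V) (hk : ∃ w, SAP w ∧ Same (vl w) k) : ∃ β ω : ℕ, ∀ D : Z3, D.1 = 0 →
    D ≠ 0 → ∃ p : Blk, Pc D D p ∧ p.1.length + p.2.length + 2 = β ∧ (pos p.1).1 = ω ∧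
      ∀ l r, LA D l → RA D r → IsSum (vl (Poly l r)) k (vl (Poly l (Rw1 p r))) := by
  obtain ⟨L, v, hv, hvk⟩ := T_vex_proof k hk
  refine ⟨4 * (L + 1) + v.length + 5, 2 * (L + 1) + 1, fun D h0 hD =>
    ⟨slb (L + 1) (ud D) v, slab_pc hv h0 hD, slb_len _ _ _, ?_, ?_⟩⟩
  · rw [slb_pos hv.1]; simp [vec]
  · intro l r hl hr
    exact isSum_congr (slab_main hv hl hr).2 (Same.refl _) hvk (Same.refl _)

end

end KN.ST
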