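import Pool.Agent.H132.ST.Dom2
import Pool.Agent.H132.ST.Slab

/-!
# Stretched polygons: upper and lower bounds for the chains of a given knot type
-/

set_option autoImplicit false

namespace KN.ST

open KN KN.KQ Finset
open scoped Classical ENNReal

noncomputable section

/-- chains of a given (oriented) knot type -/
def PK (k : List V) (c : Ch) : Prop := Same (vl (wrd c)) k

theorem Zc_mono (t : ℝ≥0∞) {P P' : Ch → Prop} (h : ∀ c, Good c → P c → P' c) (n : ℕ) :
    Zc t P n ≤ Zc t P' n := by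
  refine ENNReal.tsum_le_tsum fun c => ?_
  by_cases hc : Good c ∧ ln c.2 = n ∧ P c
  · rw [if_pos hc, if_pos ⟨hc.1, hc.2.1, h c hc.1 hc.2.2⟩]
  · rw [if_neg hc]
    exact zero_le

theorem pk_le {k : List V} {N : ℕ} (h : MaxN k N) (c : Ch) (hc : Good c) (hk : PK k c) :
    PQ N c := by
  unfold PQ
  exact h.2 _ (sumN_congr hk (sumN_word hc.l0 hc.l1 hc.vc))

theorem pq0 (c : Ch) (hc : Good c) (h : PQ 0 c) : PK sq c := by
  unfold PQ at h
  have h1 := sumN_word hc.l0 hc.l1 hc.vc
  have h2 : nb (vec c.1.1) c.2 = 0 := by omega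
  rw [h2] at h1
  exact h1

theorem wrd_ext {c : Ch} {p q : List Blk} {e : Dir × Dir} (hc : c = (e, p ++ q)) {D : Z3}
    (h0 : Lat e.1) (h1 : Lat e.2) (hp : VC (vec e.1) p D) (hq : VC D q (vec e.2)) :
    Same (vl (wrd c)) (vl (Poly (extL [neg e.1] p) (Rw q [e.2]))) := by
  subst hc
  have : wrd (e, p ++ q) = Poly [neg e.1] (Rw p (Rw q [e.2])) := by
    simp only [wrd, word, Rw_append]
  rw [this]
  exact extL_same (la_one h0) hp (hq.ra (pa_one h1).ra)

theorem cls_PK : Cls (PK sq) := by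
  constructor
  · intro e bs cs hg
    obtain ⟨E, h1, h2⟩ := vc_append.1 hg.vc
    obtain ⟨h3, h4⟩ := vc_ne h1 hg.l0.x (vec_ne _)
    have g : VC E (S0 :: cs) (vec e.2) := by
      simp only [VC, nxt_S0]
      exact ⟨pc_S h3 h4, h2⟩
    have e1 := wrd_ext (c := (e, bs ++ cs)) rfl hg.l0 hg.l1 h1 h2
    have e2 := wrd_ext (c := (e, bs ++ S0 :: cs)) rfl hg.l0 hg.l1 h1 g
    have e3 := layer (h1.la (la_one hg.l0)) (h2.ra (pa_one hg.l1).ra)
    have e4 : Same (vl (wrd (e, bs ++ S0 :: cs))) (vl (wrd (e, bs ++ cs))) :=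
      e2.trans (e3.symm.trans e1.symm)
    exact ⟨fun h => e4.symm.trans h, fun h => e4.trans h⟩
  · intro m
    exact pq0 _ (good_straight m) ((cls_PQ 0).st m)

/-- the upper bound -/
theorem upper {N K : ℕ} (hN0 : 0 < N) {t : ℝ≥0∞} (ht : 12 ^ (2 * N + 3) ≤ t) (htt : t ≠ ⊤)
    (hK : 576 ≤ K) (hκ : kap N ^ (2 * K + 1) ≤ 2) (n : ℕ) (hn : Even n)
    (hN : (N + 1) * 6 ^ 4 ≤ 2 ^ (n + 2)) (Q : ℕ) :
    Zc t (PQ Q) n ≤ (((16 * K + 17 : ℕ) : ℝ≥0∞) * t ^ 6 * ((n + 1 : ℕ) : ℝ≥0∞)) ^ Q *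
      Zc t (PQ 0) n := by
  have ht1 : 1 ≤ t := le_trans (by exact one_le_pow₀ (by norm_num)) ht
  induction Q with
  | zero => simp
  | succ Q ih =>
    have h1 := Mk_le hN0 ht htt hK hκ Q n hn hN (fun _ => True)
    simp only [if_true] at h1
    have h2 : (2 : ℝ≥0∞) * ∑' b : Blk, (12 : ℝ≥0∞)⁻¹ ^ bl b ≤ 8 := by
      calc (2 : ℝ≥0∞) * ∑' b : Blk, (12 : ℝ≥0∞)⁻¹ ^ bl b ≤ 2 * 4 := by
            gcongr; exact tsum_blk12
        _ = 8 := by norm_num
    have h3 : Zc t (PQ (Q + 1)) n ≤ (((16 * K + 17 : ℕ) : ℝ≥0∞) * t ^ 6 *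
        ((n + 1 : ℕ) : ℝ≥0∞)) * Zc t (PQ Q) n := by
      refine (Zc_split t Q n).trans ?_
      refine (add_le_add_right (h1.trans (mul_le_mul_right h2 _)) _).trans ?_
      have h4 : (1 : ℝ≥0∞) ≤ t ^ 6 * ((n + 1 : ℕ) : ℝ≥0∞) := by
        calc (1 : ℝ≥0∞) = 1 * 1 := by norm_num
          _ ≤ _ := by
            gcongr
            · exact one_le_pow₀ ht1
            · exact_mod_cast Nat.le_add_left 1 n
      calc Zc t (PQ Q) n + ((2 * K + 2 : ℕ) : ℝ≥0∞) * t ^ 6 *
            (((n + 1 : ℕ) : ℝ≥0∞) * Zc t (PQ Q) n) * 8 =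
          1 * Zc t (PQ Q) n + ((16 * K + 16 : ℕ) : ℝ≥0∞) * t ^ 6 *
            ((n + 1 : ℕ) : ℝ≥0∞) * Zc t (PQ Q) n := by push_cast; ring
        _ ≤ (t ^ 6 * ((n + 1 : ℕ) : ℝ≥0∞)) * Zc t (PQ Q) n +
            ((16 * K + 16 : ℕ) : ℝ≥0∞) * t ^ 6 * ((n + 1 : ℕ) : ℝ≥0∞) * Zc t (PQ Q) n := by
          gcongr
        _ = _ := by push_cast; ring
    refine h3.trans ?_
    calc (((16 * K + 17 : ℕ) : ℝ≥0∞) * t ^ 6 * ((n + 1 : ℕ) : ℝ≥0∞)) * Zc t (PQ Q) n ≤
        (((16 * K + 17 : ℕ) : ℝ≥0∞) * t ^ 6 * ((n + 1 : ℕ) : ℝ≥0∞)) *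
        ((((16 * K + 17 : ℕ) : ℝ≥0∞) * t ^ 6 * ((n + 1 : ℕ) : ℝ≥0∞)) ^ Q * Zc t (PQ 0) n) := by
          gcongr
      _ = _ := by ring

/-! ### the lower bound -/

/-- a bounded monotone sequence has few increases over windows of length `β` -/
theorem few_inc (f : ℕ → ℕ) (hf : Monotone f) (B : ℕ) (hB : ∀ i, f i ≤ B) (β m : ℕ) :
    ∑ i ∈ range m, (f (i + β) - f i) ≤ β * B := by
  induction β with
  | zero => simp
  | succ β ih =>
    have h1 : ∀ i, f (i + (β + 1)) - f i = (f (i + 1 + β) - f (i + β)) + (f (i + β) - f i) := by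
      intro i
      have a1 : f (i + β) ≤ f (i + 1 + β) := hf (by omega)
      have a2 : f i ≤ f (i + β) := hf (by omega)
      have : i + (β + 1) = i + 1 + β := by ring
      rw [this]
      omega
    rw [sum_congr rfl (fun i _ => h1 i), sum_add_distrib]
    have h2 : ∑ i ∈ range m, (f (i + 1 + β) - f (i + β)) ≤ B := by
      have h3 : ∑ i ∈ range m, (f (i + 1 + β) - f (i + β)) = f (m + β) - f (0 + β) :=
        sum_range_tsub (f := fun i => f (i + β)) (fun a b hab => hf (by omega)) m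
      rw [h3]
      exact (Nat.sub_le _ _).trans (hB _)
    calc _ ≤ B + β * B := add_le_add h2 ih
      _ = (β + 1) * B := by ring

theorem nb_take_mono (D : Z3) (l : List Blk) : Monotone (fun i => nb D (l.take i)) := by
  intro i j hij
  simp only
  induction l generalizing D i j with
  | nil => simp [nb]
  | cons b l ih =>
    cases i with
    | zero => simp [nb]
    | succ i =>
      cases j with
      | zero => omega
      | succ j =>
        simp only [List.take_succ_cons, nb]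
        have := ih (nxt D b) (i := i) (j := j) (by omega)
        omega

theorem nb_take_le (D : Z3) (l : List Blk) (i : ℕ) : nb D (l.take i) ≤ nb D l := by
  have h := nb_take_mono D l (le_max_left i l.length)
  simp only at h
  rw [List.take_of_length_le (le_max_right i l.length)] at h
  exact h

/-- the total of the weights of the chains of type `k` counted with their numbers of blocks -/
def Wc (t : ℝ≥0∞) (P : Ch → Prop) (n : ℕ) : ℝ≥0∞ :=
  ∑' c : Ch, ((c.2.length + 1 : ℕ) : ℝ≥0∞) *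
    (if Good c ∧ ln c.2 = n ∧ P c then t ^ (6 * sp c.2) else 0)

theorem length_le_ln (l : List Blk) : 2 * l.length ≤ ln l := by
  have := ln_eq l
  omega

theorem insert_slab (t : ℝ≥0∞) {k k' l : List V} {N : ℕ} (hk : MaxN k (N + 1))
    (hl : ¬ Same l sq) (hs : IsSum k' l k) : ∃ β ω : ℕ, ∀ n : ℕ,
    t ^ (6 * ω) * Wc t (PK k') n ≤ ((β * (N + 1) : ℕ) : ℝ≥0∞) * Zc t (PK k) (n + β) := by
  have hlr : ∃ w, SAP w ∧ Same (vl w) l := by
    obtain ⟨l1, v, l2, hF, h1, h2, h3⟩ := hs
    exact ⟨_, hF.2.2.1, h2⟩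
  obtain ⟨β, ω, hsl⟩ := slab l hlr
  refine ⟨β, ω + 1, fun n => ?_⟩
  -- the factorised slabs
  have hF : ∀ D : Z3, ∃ F : List Blk, D.1 = 0 → D ≠ 0 → (∀ b ∈ F, Irr b) ∧ VC D F D ∧
      ln F = β ∧ sp F = ω + 1 ∧ 1 ≤ nb D F ∧ ∀ p r, LA D p → RA D r →
        IsSum (vl (Poly p r)) l (vl (Poly p (Rw F r))) := by
    intro D
    by_cases h0 : D.1 = 0 ∧ D ≠ 0
    · obtain ⟨p, g1, g2, g3, g4⟩ := hsl D h0.1 h0.2
      obtain ⟨F, k1, k2, k3, k4, k5⟩ := pfact (bl p) D D p le_rfl g1
      refine ⟨F, fun _ _ => ⟨k1, k2, by rw [k4]; exact g2, ?_, ?_, ?_⟩⟩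
      · rw [k5, wd, g3]; simp
      · by_contra hn
        have h5 : nb D F = 0 := by omega
        have hp := pa_cp h0.1 h0.2
        have h6 := sumN_ext hp.la k2 (M := 0) (ribbon_sq hp)
        rw [h5] at h6
        have h7 := extL_same hp.la k2 hp.ra
        have h8 := g4 _ _ hp.la hp.ra
        rw [← k3] at h8
        have h9 : Same (vl (Poly (back (cp D)) (Rw F (cp D)))) sq := h7.trans h6
        have h10 := left_unit h8 (ribbon_sq hp)
        exact hl (h10.symm.trans h9)
      · intro q r hq hr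
        rw [k3]
        exact g4 q r hq hr
    · exact ⟨[], fun h h' => absurd ⟨h, h'⟩ h0⟩
  choose Ff hFf using hF
  -- the difference after the left part
  set dd : Dir × Dir → List Blk → Z3 := fun e p =>
    if h : ∃ D, VC (vec e.1) p D then h.choose else 0 with hdd
  have hdd' : ∀ (e : Dir × Dir) (p : List Blk) (D : Z3), VC (vec e.1) p D → dd e p = D := by
    intro e p D hD
    have huniq : ∀ (p : List Blk) (A B C : Z3), VC A p B → VC A p C → B = C := by
      intro p
      induction p with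
      | nil => intro A B C h1 h2; simp only [VC] at h1 h2; rw [← h1, ← h2]
      | cons b p ih => intro A B C h1 h2; exact ih _ _ _ h1.2 h2.2
    have hex : ∃ D, VC (vec e.1) p D := ⟨D, hD⟩
    simp only [hdd]
    rw [dif_pos hex]
    exact huniq _ _ _ _ hex.choose_spec hD
  -- left-hand side as a sum over cut lists
  have h1 : t ^ (6 * (ω + 1)) * Wc t (PK k') n = ∑' x : (Dir × Dir) × (List Blk × List Blk),
      (if Good (x.1, x.2.1 ++ x.2.2) ∧ ln (x.2.1 ++ x.2.2) = n ∧ PK k' (x.1, x.2.1 ++ x.2.2) then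
        t ^ (6 * sp (x.2.1 ++ x.2.2) + 6 * (ω + 1)) else 0) := by
    unfold Wc
    refine (congrArg (fun z => t ^ (6 * (ω + 1)) * z) ENNReal.tsum_prod').trans ?_
    refine Eq.trans ?_ ENNReal.tsum_prod'.symm
    rw [← ENNReal.tsum_mul_left]
    refine tsum_congr fun e => ?_
    rw [tsum_append (fun l : List Blk => if Good (e, l) ∧ ln l = n ∧ PK k' (e, l) then
      t ^ (6 * sp l + 6 * (ω + 1)) else 0), ← ENNReal.tsum_mul_left]
    refine tsum_congr fun m => ?_
    by_cases hc : Good (e, m) ∧ ln m = n ∧ PK k' (e, m)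
    · rw [if_pos hc, if_pos hc, pow_add]; ring
    · rw [if_neg hc, if_neg hc]; simp
  -- right-hand side
  set V : Ch → ℕ → Prop := fun c i => nb (vec c.1.1) (c.2.take i) <
    nb (vec c.1.1) (c.2.take (i + β)) with hV
  have h2 : ∑' y : Ch × ℕ, (if (Good y.1 ∧ ln y.1.2 = n + β ∧ PK k y.1) ∧ y.2 ≤ y.1.2.length ∧
      V y.1 y.2 then t ^ (6 * sp y.1.2) else 0) ≤
      ((β * (N + 1) : ℕ) : ℝ≥0∞) * Zc t (PK k) (n + β) := by
    rw [ENNReal.tsum_prod']
    unfold Zc
    rw [← ENNReal.tsum_mul_left]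
    refine ENNReal.tsum_le_tsum fun c => ?_
    by_cases hc : Good c ∧ ln c.2 = n + β ∧ PK k c
    · rw [if_pos hc]
      have e1 : ∑' i : ℕ, (if (Good c ∧ ln c.2 = n + β ∧ PK k c) ∧ i ≤ c.2.length ∧ V c i then
          t ^ (6 * sp c.2) else 0) = ∑ i ∈ range (c.2.length + 1),
          if i ≤ c.2.length ∧ V c i then t ^ (6 * sp c.2) else 0 := by
        rw [← tsum_ite_fin (fun i => i ≤ c.2.length ∧ V c i) (c.2.length + 1)
          (fun i h => by have := h.1; omega) (fun _ => t ^ (6 * sp c.2))]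
        refine tsum_congr fun i => ?_
        by_cases hi : i ≤ c.2.length ∧ V c i
        · rw [if_pos ⟨hc, hi⟩, if_pos hi]
        · rw [if_neg (fun h => hi h.2), if_neg hi]
      rw [e1]
      have e2 : ∀ i ∈ range (c.2.length + 1), (if i ≤ c.2.length ∧ V c i then
          t ^ (6 * sp c.2) else 0) ≤ ((nb (vec c.1.1) (c.2.take (i + β)) -
            nb (vec c.1.1) (c.2.take i) : ℕ) : ℝ≥0∞) * t ^ (6 * sp c.2) := by
        intro i _
        by_cases hi : i ≤ c.2.length ∧ V c i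
        · rw [if_pos hi]
          have h3 := hi.2
          simp only [hV] at h3
          have h4 : 1 ≤ nb (vec c.1.1) (c.2.take (i + β)) - nb (vec c.1.1) (c.2.take i) := by
            omega
          calc t ^ (6 * sp c.2) = ((1 : ℕ) : ℝ≥0∞) * t ^ (6 * sp c.2) := by simp
            _ ≤ _ := by gcongr
        · rw [if_neg hi]
          exact zero_le
      refine (sum_le_sum e2).trans ?_
      rw [← sum_mul, ← Nat.cast_sum]
      refine mul_le_mul_left ?_ _
      have h5 := few_inc (fun i => nb (vec c.1.1) (c.2.take i)) (nb_take_mono _ _)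
        (nb (vec c.1.1) c.2) (nb_take_le _ _) β (c.2.length + 1)
      have h6 : nb (vec c.1.1) c.2 ≤ N + 1 := pk_le hk c hc.1 hc.2.2
      exact_mod_cast h5.trans (Nat.mul_le_mul_left _ h6)
    · have : ∑' i : ℕ, (if (Good c ∧ ln c.2 = n + β ∧ PK k c) ∧ i ≤ c.2.length ∧ V c i then
          t ^ (6 * sp c.2) else 0) = 0 := by
        rw [ENNReal.tsum_eq_zero]
        intro i
        rw [if_neg (fun h => hc h.1)]
      rw [this]
      exact zero_le
  rw [h1]
  refine le_trans ?_ h2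
  refine tsum_le_of_inj _ _ (fun x => ((x.1, x.2.1 ++ Ff (dd x.1 x.2.1) ++ x.2.2),
    x.2.1.length)) ?_ ?_
  · rintro ⟨e, p, q⟩ ⟨e', p', q'⟩ _ _ h
    simp only [Prod.mk.injEq] at h
    obtain ⟨⟨rfl, h3⟩, h4⟩ := h
    rw [List.append_assoc, List.append_assoc] at h3
    have h5 := List.append_inj h3 h4
    obtain ⟨rfl, h6⟩ := h5
    rw [List.append_cancel_left h6]
  · rintro ⟨e, p, q⟩ h
    by_cases hc : Good (e, p ++ q) ∧ ln (p ++ q) = n ∧ PK k' (e, p ++ q)
    · obtain ⟨D, g1, g2⟩ := vc_append.1 hc.1.vc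
      obtain ⟨g3, g4⟩ := vc_ne g1 hc.1.l0.x (vec_ne _)
      obtain ⟨k1, k2, k3, k4, k5, k6⟩ := hFf D g3 g4
      simp only
      rw [hdd' e p D g1]
      have hg : Good (e, p ++ Ff D ++ q) := by
        refine ⟨hc.1.l0, hc.1.l1, ?_, ?_⟩
        · exact vc_append.2 ⟨D, vc_append.2 ⟨D, g1, k2⟩, g2⟩
        · intro b hb
          have hir := hc.1.ir
          simp only [List.mem_append] at hb hir
          rcases hb with (hb | hb) | hb
          · exact hir b (Or.inl hb)
          · exact k1 b hb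
          · exact hir b (Or.inr hb)
      have hpk : PK k (e, p ++ Ff D ++ q) := by
        have m1 := wrd_ext (c := (e, p ++ q)) rfl hc.1.l0 hc.1.l1 g1 g2
        have m2 : VC D (Ff D ++ q) (vec e.2) := vc_append.2 ⟨D, k2, g2⟩
        have m3 := wrd_ext (c := (e, p ++ Ff D ++ q)) (p := p) (q := Ff D ++ q)
          (by rw [List.append_assoc]) hc.1.l0 hc.1.l1 g1 m2
        rw [Rw_append] at m3
        have m4 := k6 _ _ (g1.la (la_one hc.1.l0)) (g2.ra (pa_one hc.1.l1).ra)
        have m5 : IsSum k' l (vl (wrd (e, p ++ Ff D ++ q))) :=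
          isSum_congr m4 (m1.symm.trans hc.2.2) (Same.refl _) m3.symm
        exact isSum_unique m5 hs
      have hlen : (Ff D).length ≤ β := by
        have := length_le_ln (Ff D)
        omega
      have hVV : V (e, p ++ Ff D ++ q) p.length := by
        simp only [hV]
        have a1 : (p ++ Ff D ++ q).take p.length = p := by
          rw [List.append_assoc, List.take_left']
          rfl
        have a2 : nb (vec e.1) (p ++ Ff D) ≤ nb (vec e.1)
            ((p ++ Ff D ++ q).take (p.length + β)) := by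
          have h7 := nb_take_mono (vec e.1) (p ++ Ff D ++ q)
            (show p.length + (Ff D).length ≤ p.length + β by omega)
          simp only at h7
          have a3 : (p ++ Ff D ++ q).take (p.length + (Ff D).length) = p ++ Ff D := by
            rw [← List.length_append, List.take_left']
            rfl
          rw [a3] at h7
          exact h7
        rw [a1]
        refine lt_of_lt_of_le ?_ a2
        have g1' : VC (vec e.1) p D := g1
        rw [nb_append g1']
        omega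
      rw [if_pos hc, if_pos]
      · refine le_of_eq ?_
        congr 1
        simp only [sp_append, k4]
        ring
      · refine ⟨⟨hg, ?_, hpk⟩, ?_, hVV⟩
        · have := hc.2.1
          simp only [ln_append, k3] at this ⊢
          omega
        · simp only [List.length_append]
          omega
    · exact absurd (if_neg hc) h

end

end KN.ST
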