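import Pool.Agent.H132.ST.Low

/-!
# Stretched polygons: the lower bound for the chains of a given knot type
-/

set_option autoImplicit false

namespace KN.ST

open KN KN.KQ Finset
open scoped Classical ENNReal

noncomputable section

/-- chains with few blocks have little weight -/
theorem few_sum {t : ℝ≥0∞} (ht : 144 ≤ t) (P : Ch → Prop) (n : ℕ) :
    2 ^ n * ∑' c : Ch, (if (Good c ∧ ln c.2 = n ∧ P c) ∧ 4 * (c.2.length + 1) < n then
      t ^ (6 * sp c.2) else 0) ≤ 6 ^ 4 * t ^ (3 * n) := by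
  have ht1 : 1 ≤ t := le_trans (by norm_num) ht
  have key : ∀ c : Ch, (12 : ℝ≥0∞) ^ n * (if (Good c ∧ ln c.2 = n ∧ P c) ∧
      4 * (c.2.length + 1) < n then t ^ (6 * sp c.2) else 0) ≤
      t ^ (3 * n) * (if Good c ∧ ln c.2 = n then 1 else 0) := by
    intro c
    by_cases hc : (Good c ∧ ln c.2 = n ∧ P c) ∧ 4 * (c.2.length + 1) < n
    · rw [if_pos hc, if_pos ⟨hc.1.1, hc.1.2.1⟩, mul_one]
      have h0 := ln_eq c.2
      have h2 := sp_le hc.1.1.vc hc.1.1.ir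
      have h4 := hc.2
      rw [hc.1.2.1] at h0 h2
      have h1 : n ≤ 2 * bsm c.2 := by omega
      have h3 : (12 : ℝ≥0∞) ^ n ≤ t ^ bsm c.2 := by
        calc (12 : ℝ≥0∞) ^ n ≤ 12 ^ (2 * bsm c.2) :=
              pow_le_pow_right₀ (by norm_num) h1
          _ = (144 : ℝ≥0∞) ^ bsm c.2 := by rw [pow_mul]; norm_num
          _ ≤ t ^ bsm c.2 := pow_le_pow_left' ht _
      calc (12 : ℝ≥0∞) ^ n * t ^ (6 * sp c.2) ≤ t ^ bsm c.2 * t ^ (6 * sp c.2) :=
            mul_le_mul_left h3 _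
        _ = t ^ (bsm c.2 + 6 * sp c.2) := (pow_add _ _ _).symm
        _ ≤ t ^ (3 * n) := pow_le_pow_right₀ ht1 (by omega)
    · rw [if_neg hc, mul_zero]
      exact zero_le
  have h1 : (12 : ℝ≥0∞) ^ n * ∑' c : Ch, (if (Good c ∧ ln c.2 = n ∧ P c) ∧
      4 * (c.2.length + 1) < n then t ^ (6 * sp c.2) else 0) ≤ t ^ (3 * n) * 6 ^ (n + 4) := by
    rw [← ENNReal.tsum_mul_left]
    refine (ENNReal.tsum_le_tsum key).trans ?_
    rw [ENNReal.tsum_mul_left]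
    exact mul_le_mul_right (count_le n) _
  have h2 : (12 : ℝ≥0∞) ^ n = 6 ^ n * 2 ^ n := by
    rw [← mul_pow]; norm_num
  have h3 : (6 : ℝ≥0∞) ^ n * (2 ^ n * ∑' c : Ch, (if (Good c ∧ ln c.2 = n ∧ P c) ∧
      4 * (c.2.length + 1) < n then t ^ (6 * sp c.2) else 0)) ≤
      6 ^ n * (6 ^ 4 * t ^ (3 * n)) := by
    rw [← mul_assoc, ← h2]
    refine h1.trans (le_of_eq ?_)
    rw [pow_add]
    ring
  exact (ENNReal.mul_le_mul_iff_right (by positivity) (ENNReal.pow_ne_top (by norm_num))).1 h3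

theorem many {t : ℝ≥0∞} (P : Ch → Prop) (n : ℕ) :
    (n : ℝ≥0∞) * Zc t P n ≤ 4 * Wc t P n + (n : ℝ≥0∞) *
      ∑' c : Ch, (if (Good c ∧ ln c.2 = n ∧ P c) ∧ 4 * (c.2.length + 1) < n then
      t ^ (6 * sp c.2) else 0) := by
  unfold Zc Wc
  rw [← ENNReal.tsum_mul_left, ← ENNReal.tsum_mul_left, ← ENNReal.tsum_mul_left,
    ← ENNReal.tsum_add]
  refine ENNReal.tsum_le_tsum fun c => ?_
  by_cases hc : Good c ∧ ln c.2 = n ∧ P c
  · by_cases hf : 4 * (c.2.length + 1) < n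
    · rw [if_pos hc, if_pos ⟨hc, hf⟩]
      exact le_add_self
    · rw [if_pos hc, if_neg (fun h => hf h.2), mul_zero, add_zero]
      have : (n : ℝ≥0∞) ≤ 4 * ((c.2.length + 1 : ℕ) : ℝ≥0∞) := by
        have h : n ≤ 4 * (c.2.length + 1) := by omega
        exact_mod_cast h
      calc (n : ℝ≥0∞) * t ^ (6 * sp c.2) ≤ (4 * ((c.2.length + 1 : ℕ) : ℝ≥0∞)) *
          t ^ (6 * sp c.2) := mul_le_mul_left this _
        _ = _ := by ring
  · rw [if_neg hc]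
    simp

theorem two_pow_ge (m : ℕ) : m ≤ 2 ^ m := Nat.lt_two_pow_self.le

/-- the lower bound -/
theorem lower {M : ℕ} (hM0 : 0 < M) {t : ℝ≥0∞} (ht : 12 ^ (2 * M + 3) ≤ t) (htt : t ≠ ⊤)
    (N : ℕ) : ∀ k : List V, MaxN k N → ∃ C n₀ : ℕ, ∀ n : ℕ, n₀ ≤ n → Even n →
      (n : ℝ≥0∞) ^ N * Zc t (PK sq) n ≤ C * Zc t (PK k) n := by
  have ht1 : 1 ≤ t := le_trans (by exact one_le_pow₀ (by norm_num)) ht
  have ht144 : 144 ≤ t := by
    refine le_trans ?_ ht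
    calc (144 : ℝ≥0∞) = 12 ^ 2 := by norm_num
      _ ≤ 12 ^ (2 * M + 3) := pow_le_pow_right₀ (by norm_num) (by omega)
  have htpos : t ≠ 0 := (lt_of_lt_of_le one_pos ht1).ne'
  obtain ⟨T, hT⟩ : ∃ T : ℕ, t ≤ T := by
    obtain ⟨T, hT⟩ := ENNReal.exists_nat_gt htt
    exact ⟨T, hT.le⟩
  have hκ2 : kap M ≤ 2 := by
    unfold kap
    rw [ENNReal.div_le_iff_le_mul (Or.inl (by exact_mod_cast hM0.ne'))
      (Or.inl (ENNReal.natCast_ne_top _))]
    have : M + 1 ≤ 2 * M := by omega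
    exact_mod_cast this
  induction N with
  | zero =>
    intro k hk
    refine ⟨1, 0, fun n _ _ => ?_⟩
    have h1 : Same k sq := hk.1
    rw [pow_zero, Nat.cast_one, one_mul, one_mul]
    exact Zc_mono t (fun c _ h => Same.trans h h1.symm) n
  | succ N ih =>
    intro k hk
    obtain ⟨k', l, h1, h2, h3⟩ := hk.pred
    obtain ⟨C', n₁, hC'⟩ := ih k' h1
    obtain ⟨β, ω, hβ⟩ := insert_slab t hk h2 h3
    -- inequality at `n`
    have hA : ∀ n : ℕ, n₁ ≤ n → 2 * C' * 6 ^ 4 ≤ n → 1 ≤ n → Even n →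
        (n : ℝ≥0∞) ^ (N + 1) * Zc t (PK sq) n ≤
          ((8 * C' * (β * (N + 1)) : ℕ) : ℝ≥0∞) * Zc t (PK k) (n + β) := by
      intro n hn1 hn2 hn3 hne
      set F := ∑' c : Ch, (if (Good c ∧ ln c.2 = n ∧ PK k' c) ∧ 4 * (c.2.length + 1) < n then
        t ^ (6 * sp c.2) else 0) with hF
      set X := Zc t (PK sq) n with hX
      have hXt : X ≠ ⊤ := Zc_ne_top ht1 htt _ _
      have g1 : ((2 * C' : ℕ) : ℝ≥0∞) * F ≤ X := by
        have g2 : (2 : ℝ≥0∞) ^ n * F ≤ 6 ^ 4 * X := by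
          refine (few_sum ht144 (PK k') n).trans (mul_le_mul_right ?_ _)
          obtain ⟨m, hm⟩ := hne
          have := Zc_ge t cls_PK m
          have e : 2 * m = n := by omega
          rw [e] at this
          exact this
        have g3 : ((2 * C' * 6 ^ 4 : ℕ) : ℝ≥0∞) ≤ ((2 ^ n : ℕ) : ℝ≥0∞) := by
          exact_mod_cast hn2.trans (two_pow_ge n)
        have g4 : (6 : ℝ≥0∞) ^ 4 * (((2 * C' : ℕ) : ℝ≥0∞) * F) ≤ 6 ^ 4 * X := by
          calc (6 : ℝ≥0∞) ^ 4 * (((2 * C' : ℕ) : ℝ≥0∞) * F) =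
                ((2 * C' * 6 ^ 4 : ℕ) : ℝ≥0∞) * F := by push_cast; ring
            _ ≤ ((2 ^ n : ℕ) : ℝ≥0∞) * F := mul_le_mul_left g3 _
            _ = 2 ^ n * F := by push_cast; rfl
            _ ≤ _ := g2
        exact (ENNReal.mul_le_mul_iff_right (by norm_num) (by norm_num)).1 g4
      have g5 := hC' n hn1 hne
      have g6 := many (t := t) (PK k') n
      have g7 := hβ n
      have hn0 : (1 : ℝ≥0∞) ≤ (n : ℝ≥0∞) := by exact_mod_cast hn3
      have g8 : (n : ℝ≥0∞) ≤ (n : ℝ≥0∞) ^ (N + 1) := by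
        calc (n : ℝ≥0∞) = (n : ℝ≥0∞) ^ 1 := (pow_one _).symm
          _ ≤ _ := pow_le_pow_right₀ hn0 (by omega)
      set Y := (n : ℝ≥0∞) ^ (N + 1) * X with hY
      have hYt : Y ≠ ⊤ := ENNReal.mul_ne_top (ENNReal.pow_ne_top (ENNReal.natCast_ne_top _)) hXt
      have g9 : Y ≤ C' * (4 * Wc t (PK k') n + (n : ℝ≥0∞) * F) := by
        calc Y = (n : ℝ≥0∞) * ((n : ℝ≥0∞) ^ N * X) := by rw [hY, pow_succ]; ring
          _ ≤ n * (C' * Zc t (PK k') n) := mul_le_mul_right g5 _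
          _ = C' * (n * Zc t (PK k') n) := by ring
          _ ≤ _ := mul_le_mul_right g6 _
      have g10 : Y + Y ≤ ((8 * C' : ℕ) : ℝ≥0∞) * Wc t (PK k') n + Y := by
        calc Y + Y = 2 * Y := (two_mul _).symm
          _ ≤ 2 * (C' * (4 * Wc t (PK k') n + (n : ℝ≥0∞) * F)) := mul_le_mul_right g9 _
          _ = ((8 * C' : ℕ) : ℝ≥0∞) * Wc t (PK k') n +
              (n : ℝ≥0∞) * (((2 * C' : ℕ) : ℝ≥0∞) * F) := by push_cast; ring
          _ ≤ ((8 * C' : ℕ) : ℝ≥0∞) * Wc t (PK k') n + (n : ℝ≥0∞) ^ (N + 1) * X := by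
              gcongr
      have g11 : Y ≤ ((8 * C' : ℕ) : ℝ≥0∞) * Wc t (PK k') n :=
        (ENNReal.add_le_add_iff_right hYt).1 g10
      calc Y ≤ ((8 * C' : ℕ) : ℝ≥0∞) * Wc t (PK k') n := g11
        _ ≤ ((8 * C' : ℕ) : ℝ≥0∞) * (t ^ (6 * ω) * Wc t (PK k') n) := by
          refine mul_le_mul_right ?_ _
          calc Wc t (PK k') n = 1 * Wc t (PK k') n := (one_mul _).symm
            _ ≤ _ := mul_le_mul_left (one_le_pow₀ ht1) _
        _ ≤ ((8 * C' : ℕ) : ℝ≥0∞) * (((β * (N + 1) : ℕ) : ℝ≥0∞) * Zc t (PK k) (n + β)) :=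
          mul_le_mul_right g7 _
        _ = _ := by push_cast; ring
    -- `β` is even
    have hβe : Even β := by
      by_contra hodd
      set n := 2 * (n₁ + 2 * C' * 6 ^ 4 + 1) with hn
      have hne : Even n := even_two_mul _
      have g1 := hA n (by omega) (by omega) (by omega) hne
      rw [Zc_odd t (PK k) (n := n + β) (fun h => hodd ((Nat.even_add.1 h).1 hne)), mul_zero] at g1
      have g2 := Zc_ge t cls_PK (n₁ + 2 * C' * 6 ^ 4 + 1)
      rw [← hn] at g2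
      have g3 : Zc t (PK sq) n ≠ 0 := by
        intro h0
        rw [h0] at g2
        exact pow_ne_zero _ htpos (le_antisymm g2 (zero_le))
      have g4 : (n : ℝ≥0∞) ≠ 0 := by
        rw [Nat.cast_ne_zero]
        omega
      exact mul_ne_zero (pow_ne_zero _ g4) g3 (le_antisymm g1 (zero_le))
    obtain ⟨j, hj⟩ : ∃ j, β = 2 * j := by
      obtain ⟨j, hj⟩ := hβe
      exact ⟨j, by omega⟩
    refine ⟨(β + 1) ^ (N + 1) * (2 ^ (2 * j) * (T ^ (6 * j) * (8 * C' * (β * (N + 1))))),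
      n₁ + 2 * C' * 6 ^ 4 + 1 + β + (M + 1) * 6 ^ 4, fun n' hn' hne' => ?_⟩
    obtain ⟨n, rfl⟩ : ∃ n, n' = n + β := ⟨n' - β, by omega⟩
    have hne : Even n := by
      have := Nat.even_add.1 hne'
      exact this.2 ⟨j, by omega⟩
    have g1 := hA n (by omega) (by omega) (by omega) hne
    have g2 : (M + 1) * 6 ^ 4 ≤ 2 ^ (n + 2) :=
      calc (M + 1) * 6 ^ 4 ≤ n := by omega
        _ ≤ 2 ^ n := two_pow_ge n
        _ ≤ _ := Nat.pow_le_pow_right (by norm_num) (by omega)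
    have g3 := cmp_up hM0 ht htt cls_PK n hne g2 j
    have g4 : ((n + β : ℕ) : ℝ≥0∞) ≤ ((β + 1 : ℕ) : ℝ≥0∞) * n := by
      have : n + β ≤ (β + 1) * n := by nlinarith
      exact_mod_cast this
    calc ((n + β : ℕ) : ℝ≥0∞) ^ (N + 1) * Zc t (PK sq) (n + β) ≤
          (((β + 1 : ℕ) : ℝ≥0∞) * n) ^ (N + 1) *
            (kap M ^ (2 * j) * (t ^ (6 * j) * Zc t (PK sq) n)) := by
          rw [hj] at g4 ⊢
          gcongr
      _ = ((β + 1 : ℕ) : ℝ≥0∞) ^ (N + 1) * (kap M ^ (2 * j) * (t ^ (6 * j) *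
            ((n : ℝ≥0∞) ^ (N + 1) * Zc t (PK sq) n))) := by ring
      _ ≤ ((β + 1 : ℕ) : ℝ≥0∞) ^ (N + 1) * (2 ^ (2 * j) * ((T : ℝ≥0∞) ^ (6 * j) *
            (((8 * C' * (β * (N + 1)) : ℕ) : ℝ≥0∞) * Zc t (PK k) (n + β)))) := by
          gcongr
      _ = _ := by push_cast; ring

end

end KN.ST
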