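import Pool.Agent.H132.ST.Triv

/-!
# Stretched polygons: sums of nontrivial knots and the types of the blocks of a chain
-/

set_option autoImplicit false

namespace KN.ST

open KN KN.KQ
open scoped Classical

noncomputable section

/-- `k` is a connected sum of `N` nontrivial knots -/
def SumN : ℕ → List V → Prop
  | 0, k => Same k sq
  | N + 1, k => ∃ k' l : List V, SumN N k' ∧ ¬ Same l sq ∧ IsSum k' l k

/-- `N` is the largest number of nontrivial knots whose connected sum is `k` -/
def MaxN (k : List V) (N : ℕ) : Prop := SumN N k ∧ ∀ M, SumN M k → M ≤ N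

theorem sumN_congr {k k' : List V} (h : Same k k') {N : ℕ} (hN : SumN N k) : SumN N k' := by
  cases N with
  | zero => exact h.symm.trans hN
  | succ N =>
    obtain ⟨a, l, h1, h2, h3⟩ := hN
    exact ⟨a, l, h1, h2, isSum_congr h3 (Same.refl _) (Same.refl _) h⟩

theorem right_unit {k l s : List V} (h : IsSum k l s) (hl : Same l sq) : Same s k := by
  obtain ⟨l1, v, l2, hF, h1, h2, h3⟩ := h
  exact (h3.trans (c_glue1 l1 v l2 hF (h2.trans hl))).trans h1

theorem left_unit {k l s : List V} (h : IsSum k l s) (hk : Same k sq) : Same s l := by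
  obtain ⟨l1, v, l2, hF, h1, h2, h3⟩ := h
  exact (h3.trans (c_glue2 l1 v l2 hF (h1.trans hk))).trans h2

theorem sumN_add {N M : ℕ} {k : List V} (h : SumN N k) (h' : SumN M sq) : SumN (M + N) k := by
  induction N generalizing k with
  | zero => exact sumN_congr (Same.symm h) h'
  | succ N ih =>
    obtain ⟨a, l, h1, h2, h3⟩ := h
    exact ⟨a, l, ih h1, h2, h3⟩

theorem MaxN.noinv {k : List V} {N : ℕ} (h : MaxN k N) {M : ℕ} (h' : SumN M sq) : M = 0 := by
  have := h.2 _ (sumN_add h.1 h')
  omega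

theorem MaxN.pred {k : List V} {N : ℕ} (h : MaxN k (N + 1)) :
    ∃ k' l : List V, MaxN k' N ∧ ¬ Same l sq ∧ IsSum k' l k := by
  obtain ⟨⟨k', l, h1, h2, h3⟩, h4⟩ := h
  refine ⟨k', l, ⟨h1, fun M hM => ?_⟩, h2, h3⟩
  have := h4 (M + 1) ⟨k', l, hM, h2, h3⟩
  omega

theorem sumN_step {N : ℕ} {k l s : List V} (h : SumN N k) (hs : IsSum k l s) :
    (Same l sq → SumN N s) ∧ (¬ Same l sq → SumN (N + 1) s) :=
  ⟨fun hl => sumN_congr (right_unit hs hl).symm h, fun hl => ⟨k, l, h, hl, hs⟩⟩

/-- the difference after a block -/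
def nxt (D : Z3) (b : Blk) : Z3 := D - pos b.2 - pos b.1

theorem Pc.nxt {D D' : Z3} {b : Blk} (h : Pc D D' b) : nxt D b = D' := by
  unfold KN.ST.nxt
  rw [← h.rel]
  abel

/-- valid sequences of blocks -/
def VC : Z3 → List Blk → Z3 → Prop
  | D, [], D' => D = D'
  | D, b :: bs, D' => Pc D (nxt D b) b ∧ VC (nxt D b) bs D'

theorem vc_append {bs cs : List Blk} {D D' : Z3} :
    VC D (bs ++ cs) D' ↔ ∃ E, VC D bs E ∧ VC E cs D' := by
  induction bs generalizing D with
  | nil => simp [VC]
  | cons b bs ih =>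
    simp only [List.cons_append, VC, ih]
    constructor
    · rintro ⟨h1, E, h2, h3⟩
      exact ⟨E, ⟨h1, h2⟩, h3⟩
    · rintro ⟨E, ⟨h1, h2⟩, h3⟩
      exact ⟨h1, E, h2, h3⟩

theorem VC.ra {bs : List Blk} {D D' : Z3} {r : List Dir} (h : VC D bs D') (hr : RA D' r) :
    RA D (Rw bs r) := by
  induction bs generalizing D with
  | nil => simp only [VC] at h; subst h; exact hr
  | cons b bs ih => exact h.1.ra (ih h.2)

/-- a left arc continued by blocks -/
def extL (l : List Dir) (bs : List Blk) : List Dir := bs.foldl ext l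

theorem VC.la {bs : List Blk} {D D' : Z3} {l : List Dir} (h : VC D bs D') (hl : LA D l) :
    LA D' (extL l bs) := by
  induction bs generalizing D l with
  | nil => simp only [VC] at h; subst h; exact hl
  | cons b bs ih => exact ih h.2 (h.1.la hl)

theorem ext_same {D D' : Z3} {l r : List Dir} {b : Blk} (hl : LA D l) (hb : Pc D D' b)
    (hr : RA D' r) : Same (vl (Poly l (Rw1 b r))) (vl (Poly (ext l b) r)) := by
  rw [poly_rot]
  exact ((c_words _ (sap_poly hl (hb.ra hr))).2.2 _).2

theorem extL_same {D D' : Z3} {l r : List Dir} {bs : List Blk} (hl : LA D l) (hb : VC D bs D')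
    (hr : RA D' r) : Same (vl (Poly l (Rw bs r))) (vl (Poly (extL l bs) r)) := by
  induction bs generalizing D l with
  | nil => exact Same.refl _
  | cons b bs ih =>
    exact (ext_same hl hb.1 (hb.2.ra hr)).trans (ih (hb.1.la hl) hb.2)

/-- the type of a left arc -/
def tL (D : Z3) (l : List Dir) : List V := vl (Poly l (cp D))

theorem add1 {D D' : Z3} {l : List Dir} {b : Blk} (hl : LA D l) (hb : Pc D D' b) :
    IsSum (tL D l) (tB D D' b) (tL D' (ext l b)) := by
  have hp := pa_cp hl.h0 hl.ne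
  have hp' := pa_cp hb.h0 hb.ne.2
  exact isSum_congr (cut hl (hb.ra hp'.ra) hp) (Same.refl _) (Same.refl _)
    (ext_same hl hb hp'.ra)

/-- the number of knotted blocks -/
def nb : Z3 → List Blk → ℕ
  | _, [] => 0
  | D, b :: bs => nb (nxt D b) bs + (if Same (tB D (nxt D b) b) sq then 0 else 1)

theorem nb_append {bs cs : List Blk} {D E : Z3} (h : VC D bs E) :
    nb D (bs ++ cs) = nb D bs + nb E cs := by
  induction bs generalizing D with
  | nil => simp only [VC] at h; subst h; simp [nb]
  | cons b bs ih =>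
    simp only [List.cons_append, nb, ih h.2]
    omega

theorem sumN_ext {D D' : Z3} {l : List Dir} {bs : List Blk} (hl : LA D l) (hb : VC D bs D')
    {M : ℕ} (hM : SumN M (tL D l)) : SumN (M + nb D bs) (tL D' (extL l bs)) := by
  induction bs generalizing D l M with
  | nil => simp only [VC] at hb; subst hb; exact hM
  | cons b bs ih =>
    have h1 := sumN_step hM (add1 hl hb.1)
    have h2 : SumN (M + if Same (tB D (nxt D b) b) sq then 0 else 1) (tL (nxt D b) (ext l b)) := by
      split_ifs with h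
      · exact h1.1 h
      · exact h1.2 h
    have h3 := ih (hb.1.la hl) hb.2 h2
    simp only [nb]
    have e : M + (nb (nxt D b) bs + if Same (tB D (nxt D b) b) sq then 0 else 1) =
        M + (if Same (tB D (nxt D b) b) sq then 0 else 1) + nb (nxt D b) bs := by ring
    rw [e]
    exact h3

/-- the word of a chain -/
def word (a₀ : Dir) (bs : List Blk) (a : Dir) : List Dir := Poly [neg a₀] (Rw bs [a])

theorem pa_one {a : Dir} (ha : Lat a) : PA (vec a) [a] := by
  refine ⟨?_, ?_, ?_, ?_⟩
  · intro b hb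
    rw [List.mem_singleton.1 hb]
    exact ha
  · have : vec a ≠ 0 := by cases a <;> decide
    simp [path, pos, this]
  · simp [pos]
  · cases a <;> decide

theorem cp_one {a : Dir} (ha : Lat a) : cp (vec a) = [a] := by
  cases a with
  | xp => exact absurd rfl ha.1
  | xm => exact absurd rfl ha.2
  | _ => rfl

theorem la_one {a : Dir} (ha : Lat a) : LA (vec a) [neg a] := (pa_one ha).la

theorem word_same {a₀ a : Dir} (h0 : Lat a₀) (ha : Lat a) {bs : List Blk}
    (hb : VC (vec a₀) bs (vec a)) : SAP (word a₀ bs a) ∧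
      Same (vl (word a₀ bs a)) (tL (vec a) (extL [neg a₀] bs)) := by
  refine ⟨sap_poly (la_one h0) (hb.ra (pa_one ha).ra), ?_⟩
  unfold tL
  rw [cp_one ha]
  exact extL_same (la_one h0) hb (pa_one ha).ra

theorem sumN_word {a₀ a : Dir} (h0 : Lat a₀) (ha : Lat a) {bs : List Blk}
    (hb : VC (vec a₀) bs (vec a)) : SumN (nb (vec a₀) bs) (vl (word a₀ bs a)) := by
  have h1 : SumN 0 (tL (vec a₀) [neg a₀]) := by
    unfold tL
    rw [cp_one h0]
    exact (sq_x h0).2
  have h2 := sumN_ext (la_one h0) hb h1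
  rw [zero_add] at h2
  exact sumN_congr (word_same h0 ha hb).2.symm h2

theorem nb_S {D : Z3} (h : D.1 = 0) (hD : D ≠ 0) (bs : List Blk) :
    nb D (([], []) :: bs) = nb D bs := by
  have e : nxt D ([], []) = D := by simp [nxt, pos]
  rw [nb, e, if_pos (tB_S h hD), add_zero]

theorem nb_E {D : Z3} (h : D.1 = 0) (hD : D ≠ 0) {v : Dir} (hv : Lat v) (hD' : D + vec v ≠ 0)
    (bs : List Blk) : nb (D + vec v) (([], [v]) :: bs) = nb D bs := by
  have e : nxt (D + vec v) ([], [v]) = D := by simp [nxt, pos]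
  rw [nb, e, if_pos (tB_E h hD hv hD'), add_zero]

end

end KN.ST
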