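import Pool.Agent.H132.ST.Cut

/-!
# Stretched polygons: canonical planar arcs, straight layers and single steps are unknotted
-/

set_option autoImplicit false

namespace KN.ST

open KN KN.KQ

noncomputable section

theorem sq_x {x : Dir} (hx : Lat x) : SAP [.xp, neg x, .xm, x] ∧ Same (vl [.xp, neg x, .xm, x]) sq := by
  have z : SAP [.xp, neg .zp, .xm, .zp] ∧ Same (vl [.xp, neg .zp, .xm, .zp]) sq := by
    have h1 : SAP [.xp, neg .zp, .xm, .zp] := by
      refine ⟨by simp, by decide, by decide⟩
    refine ⟨h1, ?_⟩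
    have := ((c_words _ h1).2.2 1).2
    exact this
  have y : SAP [.xp, neg .yp, .xm, .yp] ∧ Same (vl [.xp, neg .yp, .xm, .yp]) sq := by
    have h1 : SAP [.xp, neg .yp, .xm, .yp] := by
      refine ⟨by simp, by decide, by decide⟩
    exact ⟨h1, (c_words _ h1).1.2.trans z.2⟩
  have zm : SAP [.xp, neg .zm, .xm, .zm] ∧ Same (vl [.xp, neg .zm, .xm, .zm]) sq := by
    have h1 : SAP [.xp, neg .zm, .xm, .zm] := by
      refine ⟨by simp, by decide, by decide⟩
    exact ⟨h1, (c_words _ h1).1.2.trans y.2⟩
  have ym : SAP [.xp, neg .ym, .xm, .ym] ∧ Same (vl [.xp, neg .ym, .xm, .ym]) sq := by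
    have h1 : SAP [.xp, neg .ym, .xm, .ym] := by
      refine ⟨by simp, by decide, by decide⟩
    exact ⟨h1, (c_words _ h1).1.2.trans zm.2⟩
  cases x with
  | xp => exact absurd rfl hx.1
  | xm => exact absurd rfl hx.2
  | yp => exact y
  | ym => exact ym
  | zp => exact z
  | zm => exact zm

theorem ribbon_sq {D : Z3} {q : List Dir} (hq : PA D q) : Same (vl (Poly (back q) q)) sq := by
  have hne : q ≠ [] := zero_ne_nil (by rw [hq.en]; exact hq.ne)
  have hP := sap_poly hq.la hq.ra
  obtain ⟨q', x, rfl⟩ : ∃ q' x, q = q' ++ [x] := ⟨q.dropLast, q.getLast hne,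
    (List.dropLast_append_getLast hne).symm⟩
  have hx : Lat x := hq.pla x (by simp)
  have qp : Pla q' := fun a ha => hq.pla a (by simp [ha])
  have e : Poly (back (q' ++ [x])) (q' ++ [x]) =
      [.xp, neg x] ++ (back q' ++ .xm :: back (back q')) ++ [x] := by
    rw [back_back', back_snoc]
    simp [Poly]
  rw [e] at hP ⊢
  have h := ribbon [.xp, neg x] [x] (back q') qp.back hP (by simp)
  exact h.2.trans (sq_x hx).2

/-- a flip between two closed self-avoiding words -/
theorem flip2 {U V : List Dir} {a b : Dir} (hab : perp a b) (h : SAP (U ++ a :: b :: V))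
    (h' : SAP (U ++ b :: a :: V)) : Same (vl (U ++ a :: b :: V)) (vl (U ++ b :: a :: V)) := by
  have e : ∀ c d : Dir, path (U ++ c :: d :: V) =
      sh (pos V + (vec c + vec d)) (path U) ++ (pos V + vec d) :: path V := by
    intro c d
    rw [path_mid]
    simp only [pos, path]
    congr 2
    abel
  refine (T_flip_proof U V a b hab h ?_).2.1
  intro hm
  have hne : pos V + vec a ≠ pos V + vec b := by
    intro h0
    have := vec_inj (add_left_cancel h0)
    subst this
    exact hab rfl
  have h1 := h'.2.2
  obtain ⟨t, ht⟩ := path_cons U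
  have hz : pos (U ++ b :: a :: V) = 0 := h'.2.1
  have hz2 : pos U + (pos V + (vec a + vec b)) = 0 := by
    rw [pos_append] at hz
    simp only [pos] at hz
    rw [← add_assoc (pos V)]
    exact hz
  rw [e b a, ht] at h1
  simp only [sh, List.map_cons, List.cons_append, List.tail_cons] at h1
  rw [List.nodup_append', List.nodup_cons] at h1
  rw [e a b, ht] at hm
  simp only [sh, List.map_cons, List.cons_append, List.mem_cons, List.mem_append] at hm
  rcases hm with hm | hm | hm | hm
  · rw [hz2] at hm
    exact h1.2.1.1 (hm ▸ zero_mem_path V)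
  · rw [add_comm (vec a)] at hm
    exact h1.2.2 hm List.mem_cons_self
  · exact hne hm
  · exact h1.2.1.1 hm

/-- two planar arcs which can be exchanged -/
def Eqp (D : Z3) (q q' : List Dir) : Prop :=
  (∀ l, LA D l → Same (vl (Poly l q)) (vl (Poly l q'))) ∧
  (∀ r, RA D r → Same (vl (Poly (back q) r)) (vl (Poly (back q') r)))

theorem Eqp.refl (D : Z3) (q : List Dir) : Eqp D q q :=
  ⟨fun _ _ => Same.refl _, fun _ _ => Same.refl _⟩

theorem Eqp.trans {D : Z3} {q q' q'' : List Dir} (h : Eqp D q q') (h' : Eqp D q' q'') :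
    Eqp D q q'' :=
  ⟨fun l hl => (h.1 l hl).trans (h'.1 l hl), fun r hr => (h.2 r hr).trans (h'.2 r hr)⟩

theorem perp_neg {a b : Dir} (h : perp a b) : perp (neg b) (neg a) := by
  cases a <;> cases b <;> simp_all [perp, ax, neg]

theorem eqp_flip {D : Z3} {A B : List Dir} {a b : Dir} (hab : perp a b)
    (h : PA D (A ++ a :: b :: B)) (h' : PA D (A ++ b :: a :: B)) :
    Eqp D (A ++ a :: b :: B) (A ++ b :: a :: B) := by
  constructor
  · intro l hl
    have h1 := sap_poly hl h.ra
    have h2 := sap_poly hl h'.ra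
    have e : ∀ c d : Dir, Poly l (A ++ c :: d :: B) = (.xp :: (l ++ .xm :: A)) ++ c :: d :: B := by
      intro c d
      simp [Poly]
    rw [e] at h1 h2 ⊢
    rw [e]
    exact flip2 hab h1 h2
  · intro r hr
    have h1 := sap_poly h.la hr
    have h2 := sap_poly h'.la hr
    have e : ∀ c d : Dir, Poly (back (A ++ c :: d :: B)) r =
        (.xp :: back B) ++ neg d :: neg c :: (back A ++ .xm :: r) := by
      intro c d
      simp [Poly, back]
    rw [e] at h1 h2 ⊢
    rw [e]
    exact flip2 (perp_neg hab) h1 h2

/-- monotone walks are self-avoiding -/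
theorem mono_nodup (f : Z3 → ℤ) (hf : ∀ p q, f (p + q) = f p + f q) (w : List Dir)
    (h : ∀ a ∈ w, 0 < f (vec a)) : (path w).Nodup ∧ ∀ p ∈ path w, f p ≤ f (pos w) := by
  induction w with
  | nil => simp [path, pos]
  | cons a w ih =>
    obtain ⟨h1, h2⟩ := ih (fun b hb => h b (List.mem_cons_of_mem _ hb))
    have h3 := h a List.mem_cons_self
    simp only [path, pos]
    refine ⟨?_, ?_⟩
    · rw [List.nodup_cons]
      refine ⟨fun hm => ?_, h1⟩
      have := h2 _ hm
      rw [hf] at this
      omega
    · intro p hp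
      rcases List.mem_cons.1 hp with rfl | hp
      · exact le_rfl
      · have := h2 p hp
        rw [hf]
        omega

theorem slide (f : Z3 → ℤ) (hf : ∀ p q, f (p + q) = f p + f q) (z v : Dir) (hz : Lat z)
    (hv : Lat v) (hzv : perp v z) (Y : List Dir) (hY : Pla Y) (fz : 0 < f (vec z))
    (fv : 0 < f (vec v)) (fY : ∀ a ∈ Y, 0 < f (vec a)) (D : Z3) (hD : D ≠ 0) (n : ℕ) :
    ∀ k : ℕ, pos (List.replicate k z ++ v :: (List.replicate n z ++ Y)) = D →
    Eqp D (List.replicate k z ++ v :: (List.replicate n z ++ Y))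
      (List.replicate (k + n) z ++ v :: Y) := by
  have pa : ∀ i j : ℕ, pos (List.replicate i z ++ v :: (List.replicate j z ++ Y)) = D →
      PA D (List.replicate i z ++ v :: (List.replicate j z ++ Y)) := by
    intro i j hp
    have hl : ∀ a ∈ List.replicate i z ++ v :: (List.replicate j z ++ Y),
        Lat a ∧ 0 < f (vec a) := by
      intro a ha
      simp only [List.mem_append, List.mem_cons, List.mem_replicate] at ha
      rcases ha with ⟨-, rfl⟩ | rfl | ⟨-, rfl⟩ | ha
      · exact ⟨hz, fz⟩
      · exact ⟨hv, fv⟩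
      · exact ⟨hz, fz⟩
      · exact ⟨hY a ha, fY a ha⟩
    exact ⟨fun a ha => (hl a ha).1, (mono_nodup f hf _ (fun a ha => (hl a ha).2)).1, hp, hD⟩
  induction n with
  | zero =>
    intro k _
    exact Eqp.refl _ _
  | succ n ih =>
    intro k hp
    have hp2 : pos (List.replicate (k + 1) z ++ v :: (List.replicate n z ++ Y)) = D := by
      rw [← hp]
      simp only [pos_append, List.replicate_succ, List.cons_append, pos]
      abel
    have e1 : List.replicate k z ++ v :: (List.replicate (n + 1) z ++ Y) =
        List.replicate k z ++ v :: z :: (List.replicate n z ++ Y) := by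
      simp [List.replicate_succ]
    have e2 : List.replicate (k + 1) z ++ v :: (List.replicate n z ++ Y) =
        List.replicate k z ++ z :: v :: (List.replicate n z ++ Y) := by
      rw [List.replicate_succ']
      simp
    have h1 := pa k (n + 1) hp
    have h2 := pa (k + 1) n hp2
    rw [e1] at h1 ⊢
    rw [e2] at h2
    have h3 := ih (k + 1) hp2
    rw [e2] at h3
    have e3 : k + 1 + n = k + (n + 1) := by ring
    rw [e3] at h3
    exact (eqp_flip hzv h1 h2).trans h3

/-! ### canonical arcs -/

def yl (a : ℤ) : List Dir := if 0 ≤ a then List.replicate a.toNat .yp else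
  List.replicate (-a).toNat .ym
def zl (a : ℤ) : List Dir := if 0 ≤ a then List.replicate a.toNat .zp else
  List.replicate (-a).toNat .zm

/-- the canonical planar arc -/
def cp (D : Z3) : List Dir := zl D.2.2 ++ yl D.2.1

theorem pos_replicate (n : ℕ) (a : Dir) : pos (List.replicate n a) = (n : ℤ) • vec a := by
  induction n with
  | zero => simp [pos]
  | succ n ih =>
    rw [List.replicate_succ, pos, ih]
    push_cast
    rw [add_smul, one_smul]

theorem pos_yl (a : ℤ) : pos (yl a) = (0, a, 0) := by
  unfold yl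
  split_ifs with h
  · rw [pos_replicate, Int.toNat_of_nonneg h]
    simp [vec]
  · rw [pos_replicate, Int.toNat_of_nonneg (by omega)]
    simp [vec]

theorem pos_zl (a : ℤ) : pos (zl a) = (0, 0, a) := by
  unfold zl
  split_ifs with h
  · rw [pos_replicate, Int.toNat_of_nonneg h]
    simp [vec]
  · rw [pos_replicate, Int.toNat_of_nonneg (by omega)]
    simp [vec]

theorem pos_cp {D : Z3} (h : D.1 = 0) : pos (cp D) = D := by
  unfold cp
  rw [pos_append, pos_yl, pos_zl]
  ext <;> simp [h]

/-- the functional for the signs of `D` -/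
def fn (s t : ℤ) (p : Z3) : ℤ := s * p.2.1 + t * p.2.2

theorem fn_add (s t : ℤ) (p q : Z3) : fn s t (p + q) = fn s t p + fn s t q := by
  unfold fn
  simp only [Prod.snd_add, Prod.fst_add]
  ring

def sg (a : ℤ) : ℤ := if 0 ≤ a then 1 else -1

theorem mem_yl {a : ℤ} {d : Dir} (h : d ∈ yl a) (t : ℤ) : Lat d ∧ 0 < fn (sg a) t (vec d) := by
  unfold yl at h
  unfold sg
  split_ifs at h ⊢ with h0
  · rw [List.mem_replicate] at h
    rw [h.2]; simp [Lat, fn, vec]
  · rw [List.mem_replicate] at h
    rw [h.2]; simp [Lat, fn, vec]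

theorem mem_zl {a : ℤ} {d : Dir} (h : d ∈ zl a) (t : ℤ) : Lat d ∧ 0 < fn t (sg a) (vec d) := by
  unfold zl at h
  unfold sg
  split_ifs at h ⊢ with h0
  · rw [List.mem_replicate] at h
    rw [h.2]; simp [Lat, fn, vec]
  · rw [List.mem_replicate] at h
    rw [h.2]; simp [Lat, fn, vec]

theorem pa_cp {D : Z3} (h : D.1 = 0) (hD : D ≠ 0) : PA D (cp D) := by
  have hm : ∀ d ∈ cp D, Lat d ∧ 0 < fn (sg D.2.1) (sg D.2.2) (vec d) := by
    intro d hd
    unfold cp at hd
    rw [List.mem_append] at hd
    rcases hd with hd | hd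
    · exact mem_zl hd _
    · exact mem_yl hd _
  exact ⟨fun a ha => (hm a ha).1, (mono_nodup _ (fn_add _ _) _ (fun a ha => (hm a ha).2)).1,
    pos_cp h, hD⟩

/-- `v` points away from the origin at `D` -/
def Out (D : Z3) (v : Dir) : Prop :=
  (v = .yp ∧ 0 ≤ D.2.1) ∨ (v = .ym ∧ D.2.1 ≤ 0) ∨ (v = .zp ∧ 0 ≤ D.2.2) ∨ (v = .zm ∧ D.2.2 ≤ 0)

theorem out_or {D : Z3} {v : Dir} (hv : Lat v) : Out D v ∨ Out (D + vec v) (neg v) := by
  unfold Out
  cases v with
  | xp => exact absurd rfl hv.1
  | xm => exact absurd rfl hv.2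
  | _ => simp [vec, neg]; omega

theorem yl_succ {a : ℤ} (h : 0 ≤ a) : yl (a + 1) = .yp :: yl a := by
  unfold yl
  rw [if_pos (by omega), if_pos h, show (a + 1).toNat = a.toNat + 1 by omega,
    List.replicate_succ]

theorem yl_pred {a : ℤ} (h : a ≤ 0) : yl (a - 1) = .ym :: yl a := by
  unfold yl
  rw [if_neg (by omega), show (-(a - 1)).toNat = (-a).toNat + 1 by omega, List.replicate_succ]
  split_ifs with h0
  · have : a = 0 := by omega
    subst this
    rfl
  · rfl

theorem zl_succ {a : ℤ} (h : 0 ≤ a) : zl (a + 1) = .zp :: zl a := by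
  unfold zl
  rw [if_pos (by omega), if_pos h, show (a + 1).toNat = a.toNat + 1 by omega,
    List.replicate_succ]

theorem zl_pred {a : ℤ} (h : a ≤ 0) : zl (a - 1) = .zm :: zl a := by
  unfold zl
  rw [if_neg (by omega), show (-(a - 1)).toNat = (-a).toNat + 1 by omega, List.replicate_succ]
  split_ifs with h0
  · have : a = 0 := by omega
    subst this
    rfl
  · rfl

theorem eqp_cp {D : Z3} (h : D.1 = 0) {v : Dir} (ho : Out D v) (hD : D + vec v ≠ 0) :
    Eqp (D + vec v) (v :: cp D) (cp (D + vec v)) := by
  -- the two signs of the third coordinate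
  have main : ∀ (v : Dir) (s : ℤ), Lat v → D + vec v ≠ 0 → perp v .zp → perp v .zm →
      (∀ t, 0 < fn s t (vec v)) → (∀ d ∈ yl D.2.1, ∀ t, 0 < fn s t (vec d)) →
      Eqp (D + vec v) (v :: (zl D.2.2 ++ yl D.2.1)) (zl D.2.2 ++ v :: yl D.2.1) := by
    intro v s hv hD p1 p2 hs hy
    have hp : pos (v :: (zl D.2.2 ++ yl D.2.1)) = D + vec v := by
      rw [pos]
      exact congrArg (fun x => x + vec v) (pos_cp h)
    unfold zl at hp ⊢
    split_ifs at hp ⊢ with h0
    · have := slide (fn s 1) (fn_add s 1) .zp v (by simp [Lat]) hv p1 (yl D.2.1)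
        (fun a ha => (mem_yl ha 1).1) (by simp [fn, vec]) (hs 1) (fun a ha => hy a ha 1)
        (D + vec v) hD D.2.2.toNat 0 hp
      simpa using this
    · have := slide (fn s (-1)) (fn_add s (-1)) .zm v (by simp [Lat]) hv p2 (yl D.2.1)
        (fun a ha => (mem_yl ha (-1)).1) (by simp [fn, vec]) (hs (-1)) (fun a ha => hy a ha (-1))
        (D + vec v) hD (-D.2.2).toNat 0 hp
      simpa using this
  rcases ho with ⟨rfl, h1⟩ | ⟨rfl, h1⟩ | ⟨rfl, h1⟩ | ⟨rfl, h1⟩
  · have e : cp (D + vec .yp) = zl D.2.2 ++ .yp :: yl D.2.1 := by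
      unfold cp
      simp only [Prod.snd_add, Prod.fst_add, vec, add_zero]
      rw [yl_succ h1]
    rw [e]
    refine main .yp 1 (by simp [Lat]) hD (by decide) (by decide) (by simp [fn, vec]) ?_
    intro d hd t
    have := (mem_yl hd t).2
    rwa [sg, if_pos h1] at this
  · have e : cp (D + vec .ym) = zl D.2.2 ++ .ym :: yl D.2.1 := by
      unfold cp
      simp only [Prod.snd_add, Prod.fst_add, vec, add_zero]
      rw [← sub_eq_add_neg, yl_pred h1]
    rw [e]
    refine main .ym (-1) (by simp [Lat]) hD (by decide) (by decide) (by simp [fn, vec]) ?_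
    intro d hd t
    have := (mem_yl hd t).2
    rw [sg] at this
    split_ifs at this with h2
    · have h3 : D.2.1 = 0 := by omega
      rw [h3] at hd
      simp [yl] at hd
    · exact this
  · have e : cp (D + vec .zp) = .zp :: cp D := by
      unfold cp
      simp only [Prod.snd_add, Prod.fst_add, vec, add_zero]
      rw [zl_succ h1]
      rfl
    rw [e]
    exact Eqp.refl _ _
  · have e : cp (D + vec .zm) = .zm :: cp D := by
      unfold cp
      simp only [Prod.snd_add, Prod.fst_add, vec, add_zero]
      rw [← sub_eq_add_neg, zl_pred h1]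
      rfl
    rw [e]
    exact Eqp.refl _ _

/-- the type of a block (between the differences `D` and `D'`) -/
def tB (D D' : Z3) (b : Blk) : List V := vl (Poly (back (cp D)) (Rw1 b (cp D')))

theorem tB_S {D : Z3} (h : D.1 = 0) (hD : D ≠ 0) : Same (tB D D ([], [])) sq := by
  have hp := pa_cp h hD
  exact (layer hp.la hp.ra).symm.trans (ribbon_sq hp)

theorem pc_E {D : Z3} (h : D.1 = 0) (hD : D ≠ 0) {v : Dir} (hv : Lat v) (hD' : D + vec v ≠ 0) :
    Pc (D + vec v) D ([], [v]) := by
  have hv0 : vec v ≠ 0 := by cases v <;> decide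
  have hvx := hv.x
  refine ⟨?_, ?_, ?_, h, ?_⟩
  · have e : pv ([], [v]) D = [D + vec v, D, 0] := by
      simp [pv, sh, path, pos, add_comm]
    rw [e]
    simp [hv0, hD, hD']
  · have e : pv ([], [v]) D = [D + vec v, D, 0] := by
      simp [pv, sh, path, pos, add_comm]
    rw [e]
    intro p hp
    simp only [List.mem_cons, List.not_mem_nil, or_false] at hp
    rcases hp with rfl | rfl | rfl
    · simp [pos, h, hvx]
    · simp [pos, h]
    · simp [pos]
  · simp only [pos]
    abel
  · simp only [Prod.fst_add, h, hvx, add_zero]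

theorem perp_x {v : Dir} (hv : Lat v) : perp v .xm := by
  cases v <;> simp [Lat, perp, ax] at hv ⊢

theorem tB_E {D : Z3} (h : D.1 = 0) (hD : D ≠ 0) {v : Dir} (hv : Lat v) (hD' : D + vec v ≠ 0) :
    Same (tB (D + vec v) D ([], [v])) sq := by
  have hpc := pc_E h hD hv hD'
  have h0' : (D + vec v).1 = 0 := hpc.h1
  have hp := pa_cp h hD
  have hp' := pa_cp h0' hD'
  unfold tB
  rcases out_or (D := D) hv with ho | ho
  · -- the left arc is changed
    have h1 := (eqp_cp h ho hD').2 _ (hpc.ra hp.ra)
    refine h1.symm.trans ?_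
    have e : Poly (back (v :: cp D)) (Rw1 ([], [v]) (cp D)) =
        (.xp :: back (cp D)) ++ neg v :: .xm :: neg (neg v) :: (.xm :: (cp D ++ [.xp])) := by
      rw [back_cons, neg_neg_dir]
      simp [Poly, Rw1]
    have hvp : PA (D + vec v) (v :: cp D) := by
      refine ⟨?_, ?_, ?_, hD'⟩
      · intro a ha
        rcases List.mem_cons.1 ha with rfl | ha
        · exact hv
        · exact hp.pla a ha
      · have key : ∀ d ∈ v :: cp D, 0 < fn (if v = .yp then 1 else if v = .ym then -1 else
            sg D.2.1) (if v = .zp then 1 else if v = .zm then -1 else sg D.2.2) (vec d) := by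
          intro d hd
          have hy : ∀ d ∈ yl D.2.1, ∀ t, 0 < fn (if v = .yp then 1 else if v = .ym then -1 else
              sg D.2.1) t (vec d) := by
            intro d hd t
            have h2 := (mem_yl hd t).2
            have hne : D.2.1 ≠ 0 := by
              intro h3; rw [h3] at hd; simp [yl] at hd
            rcases ho with ⟨rfl, g1⟩ | ⟨rfl, g1⟩ | ⟨rfl, g1⟩ | ⟨rfl, g1⟩
            · rw [sg, if_pos g1] at h2
              simpa using h2
            · have h4 : ¬ (0 ≤ D.2.1) := by omega
              simpa [sg, h4] using h2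
            · simpa using h2
            · simpa using h2
          have hz : ∀ d ∈ zl D.2.2, ∀ t, 0 < fn t (if v = .zp then 1 else if v = .zm then -1 else
              sg D.2.2) (vec d) := by
            intro d hd t
            have h2 := (mem_zl hd t).2
            have hne : D.2.2 ≠ 0 := by
              intro h3; rw [h3] at hd; simp [zl] at hd
            rcases ho with ⟨rfl, g1⟩ | ⟨rfl, g1⟩ | ⟨rfl, g1⟩ | ⟨rfl, g1⟩
            · simpa using h2
            · simpa using h2
            · rw [sg, if_pos g1] at h2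
              simpa using h2
            · have h4 : ¬ (0 ≤ D.2.2) := by omega
              simpa [sg, h4] using h2
          rcases List.mem_cons.1 hd with rfl | hd
          · rcases ho with ⟨rfl, g1⟩ | ⟨rfl, g1⟩ | ⟨rfl, g1⟩ | ⟨rfl, g1⟩ <;> simp [fn, vec]
          · unfold cp at hd
            rw [List.mem_append] at hd
            rcases hd with hd | hd
            · exact hz d hd _
            · exact hy d hd _
        exact (mono_nodup _ (fn_add _ _) _ key).1
      · rw [pos, pos_cp h]
    have hS := sap_poly hvp.la (hpc.ra hp.ra)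
    rw [e] at hS ⊢
    have h2 := unbump (.xp :: back (cp D)) (.xm :: (cp D ++ [.xp])) (neg v) .xm
      (perp_x hv.neg) hS (by
        have h5 : 0 < (cp D).length := List.length_pos_iff.2 (zero_ne_nil (by
          rw [pos_cp h]; exact hD))
        simp only [List.length_append, List.length_cons, List.length_nil]
        omega)
    refine h2.2.trans ?_
    have e2 : (Dir.xp :: back (cp D)) ++ .xm :: (.xm :: (cp D ++ [.xp])) =
        Poly (back (cp D)) (Rw1 ([], []) (cp D)) := by
      simp [Poly, Rw1]
    rw [e2]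
    exact tB_S h hD
  · -- the right arc is changed
    have hx : D + vec v + vec (neg v) = D := by rw [vec_neg]; abel
    have h1 := eqp_cp h0' ho (by rw [hx]; exact hD)
    rw [hx] at h1
    have hext := hpc.la hp'.la
    have h2 := h1.1 _ hext
    have hrot : ∀ q, RA D q → Same (vl (Poly (back (cp (D + vec v))) (Rw1 ([], [v]) q)))
        (vl (Poly (ext (back (cp (D + vec v))) ([], [v])) q)) := by
      intro q hq
      rw [poly_rot]
      exact ((c_words _ (sap_poly hp'.la (hpc.ra hq))).2.2 _).2
    have hnp : PA D (neg v :: cp (D + vec v)) := by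
      refine ⟨?_, ?_, ?_, hD⟩
      · intro a ha
        rcases List.mem_cons.1 ha with rfl | ha
        · exact hv.neg
        · exact hp'.pla a ha
      · set E := D + vec v with hE
        set u := neg v with hu
        have key : ∀ d ∈ u :: cp E, 0 < fn (if u = .yp then 1 else if u = .ym then -1 else
            sg E.2.1) (if u = .zp then 1 else if u = .zm then -1 else sg E.2.2) (vec d) := by
          intro d hd
          have hy : ∀ d ∈ yl E.2.1, ∀ t, 0 < fn (if u = .yp then 1 else if u = .ym then -1 else
              sg E.2.1) t (vec d) := by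
            intro d hd t
            have h2 := (mem_yl hd t).2
            have hne : E.2.1 ≠ 0 := by
              intro h3; rw [h3] at hd; simp [yl] at hd
            rcases ho with ⟨h6, h1⟩ | ⟨h6, h1⟩ | ⟨h6, h1⟩ | ⟨h6, h1⟩ <;> rw [h6]
            · simpa [sg, h1] using h2
            · have h4 : ¬ (0 ≤ E.2.1) := by omega
              simpa [sg, h4] using h2
            · simpa using h2
            · simpa using h2
          have hz : ∀ d ∈ zl E.2.2, ∀ t, 0 < fn t (if u = .zp then 1 else if u = .zm then -1 else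
              sg E.2.2) (vec d) := by
            intro d hd t
            have h2 := (mem_zl hd t).2
            have hne : E.2.2 ≠ 0 := by
              intro h3; rw [h3] at hd; simp [zl] at hd
            rcases ho with ⟨h6, h1⟩ | ⟨h6, h1⟩ | ⟨h6, h1⟩ | ⟨h6, h1⟩ <;> rw [h6]
            · simpa using h2
            · simpa using h2
            · simpa [sg, h1] using h2
            · have h4 : ¬ (0 ≤ E.2.2) := by omega
              simpa [sg, h4] using h2
          rcases List.mem_cons.1 hd with rfl | hd
          · rcases ho with ⟨h6, h1⟩ | ⟨h6, h1⟩ | ⟨h6, h1⟩ | ⟨h6, h1⟩ <;> simp [h6, fn, vec]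
          · unfold cp at hd
            rw [List.mem_append] at hd
            rcases hd with hd | hd
            · exact hz d hd _
            · exact hy d hd _
        exact (mono_nodup _ (fn_add _ _) _ key).1
      · rw [pos, pos_cp h0', hx]
    refine (hrot _ hp.ra).trans (h2.symm.trans ((hrot _ hnp.ra).symm.trans ?_))
    have e : Poly (back (cp (D + vec v))) (Rw1 ([], [v]) (neg v :: cp (D + vec v))) =
        (.xp :: (back (cp (D + vec v)) ++ [.xm])) ++ v :: .xm :: neg v ::
          (cp (D + vec v) ++ [.xp]) := by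
      simp [Poly, Rw1]
    have hS := sap_poly hp'.la (hpc.ra hnp.ra)
    rw [e] at hS ⊢
    have h3 := unbump _ _ v .xm (perp_x hv) hS (by
        have h5 : 0 < (cp (D + vec v)).length := List.length_pos_iff.2 (zero_ne_nil (by
          rw [pos_cp h0']; exact hD'))
        simp only [List.length_append, List.length_cons, List.length_nil]
        omega)
    refine h3.2.trans ?_
    have e2 : (Dir.xp :: (back (cp (D + vec v)) ++ [.xm])) ++ .xm :: (cp (D + vec v) ++ [.xp]) =
        Poly (back (cp (D + vec v))) (Rw1 ([], []) (cp (D + vec v))) := by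
      simp [Poly, Rw1]
    rw [e2]
    exact tB_S h0' hD'

end

end KN.ST
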